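import Mathlib

/-!
MP_60edde_al, negative answer: a right-angled Coxeter group with an element of irrational
stable reflection length.  This file holds the basic definitions only.
-/

namespace Pool.Agent.Lib.MP_60edde_al.Neg

/-! ### Words in universal Coxeter groups -/

section Red

variable {S : Type*} [DecidableEq S]

/-- push a letter on a reduced word -/
def push (s : S) : List S → List S
  | [] => [s]
  | t :: l => if s = t then l else s :: t :: l

/-- the reduced form of a word in the free product of copies of `ℤ/2` indexed by `S` -/
def red : List S → List S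
  | [] => []
  | s :: l => push s (red l)

/-- ordered product of the values of `κ` over consecutive letters -/
def kap {S : Type*} {H : Type*} [Group H] (κ : S → S → H) : List S → H
  | [] => 1
  | [_] => 1
  | s :: t :: l => κ s t * kap κ (t :: l)

end Red

/-! ### Conjugation invariant length on a free group -/

/-- `delLen g` is the least number of letters which have to be deleted from some word for `g`
to obtain a word for `1`. -/
noncomputable def delLen {α : Type*} (g : FreeGroup α) : ℕ :=
  sInf {n | ∃ π π' : List (α × Bool), FreeGroup.mk π = g ∧ π'.Sublist π ∧ FreeGroup.mk π' = 1 ∧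
    π.length = π'.length + n}

/-! ### Classes, blocks, ports -/

/-- the three classes of blocks -/
inductive Cls
  | E | O | L
  deriving DecidableEq

instance : Fintype Cls := ⟨{.E, .O, .L}, by intro x; cases x <;> decide⟩

/-- number of maximal constant runs of a list -/
def runs {α : Type*} [DecidableEq α] : List α → ℕ
  | [] => 0
  | [_] => 1
  | a :: b :: l => if a = b then runs (b :: l) else runs (b :: l) + 1

/-- letters of one port -/
abbrev P6 := Bool × Fin 6

/-- The word of a signed port: `(l, true)` is the port `x_l = s_{l0} ... s_{l5}`,
`(l, false)` is its inverse. -/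
def sport (x : Bool × Bool) : List P6 :=
  if x.2 then (List.finRange 6).map (fun i => (x.1, i))
  else ((List.finRange 6).map (fun i => (x.1, i))).reverse

/-- the word of a list of signed ports -/
def enc (π : List (Bool × Bool)) : List P6 := π.flatMap sport

/-- A-ports of a block; the data letter `a` is `false`, the data letter `b` is `true` -/
def portA : Cls × Bool → List (Bool × Bool)
  | (.E, false) => [(true, true), (false, true)]
  | (.E, true) => [(false, true)]
  | (.O, l) => [(l, false)]
  | (.L, l) => [(l, false)]

/-- B-ports of a block -/
def portB : Cls × Bool → List (Bool × Bool)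
  | (.E, l) => [(l, false)]
  | (.O, l) => [(l, true)]
  | (.L, _) => []

/-- D-word of a list of classes -/
def dword (l : List Cls) : List (Cls × Bool) := l.flatMap (fun c => [(c, false), (c, true)])

/-! ### The discrepancy -/

/-- `ψ = 1/φ` -/
noncomputable def psi : ℝ := (Real.sqrt 5 - 1) / 2

/-- discrepancy of a data letter -/
noncomputable def dl (x : Bool) : ℝ := if x then 1 else -psi

/-- discrepancy of a data word -/
noncomputable def dsum (u : List Bool) : ℝ := (u.map dl).sum

/-! ### The alphabet -/

/-- letters of the group `A × B × D` -/
inductive GLt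
  | A (x : P6)
  | B (x : P6)
  | D (x : Cls × Bool)
  deriving DecidableEq

instance : Finite GLt := Finite.of_surjective
  (fun x : P6 ⊕ P6 ⊕ (Cls × Bool) => match x with
    | .inl x => GLt.A x
    | .inr (.inl x) => GLt.B x
    | .inr (.inr x) => GLt.D x)
  (by
    intro y
    cases y with
    | A x => exact ⟨.inl x, rfl⟩
    | B x => exact ⟨.inr (.inl x), rfl⟩
    | D x => exact ⟨.inr (.inr x), rfl⟩)

/-- letters of the free factor `C` -/
inductive CLt
  | tE | tO | bt (c : Cls)
  deriving DecidableEq

instance : Finite CLt := Finite.of_surjective
  (fun x : Option (Option Cls) => match x with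
    | none => CLt.tE
    | some none => CLt.tO
    | some (some c) => CLt.bt c)
  (by
    intro y
    cases y with
    | tE => exact ⟨none, rfl⟩
    | tO => exact ⟨some none, rfl⟩
    | bt c => exact ⟨some (some c), rfl⟩)

/-- the whole alphabet -/
abbrev Lt := GLt ⊕ CLt

/-- which of the three direct factors a letter belongs to -/
def GLt.sort : GLt → Fin 3
  | .A _ => 0
  | .B _ => 1
  | .D _ => 2

/-- commuting letters -/
def comm : Lt → Lt → Bool
  | .inl s, .inl t => decide (s.sort ≠ t.sort)
  | _, _ => false

/-- the word of a block -/
def blk (b : Cls × Bool) : List GLt :=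
  (enc (portA b)).map GLt.A ++ ((enc (portB b)).map GLt.B ++ [GLt.D (b.1, false), GLt.D (b.1, true)])

/-- the arcs of a period -/
def arc : Fin 10 → Option (Cls × Bool) :=
  ![some (.L, false), some (.L, true), none, none, some (.E, true), some (.E, false), none,
    some (.O, false), some (.O, true), none]

/-- the letters of `C` between the arcs of a period -/
def zl : Fin 10 → CLt :=
  ![.bt .L, .bt .L, .tE, .bt .E, .bt .E, .tE, .tO, .bt .O, .bt .O, .tO]

/-- the word of an arc -/
def arcW (i : Fin 10) : List GLt := (arc i).elim [] blk

/-- one period -/
def per : List Lt :=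
  (List.finRange 10).flatMap (fun i => (arcW i).map Sum.inl ++ [Sum.inr (zl i)])

/-- `n` periods -/
def perN (n : ℕ) : List Lt := (List.replicate n per).flatten

/-! ### Weights.  `K` is the constant of the discrepancy lemma. -/

/-- weight of the letters of `A` and `B` -/
def wM (K : ℕ) : ℕ := 12 * K

/-- weight of the letters of `D` -/
def wD (K : ℕ) : Cls → ℕ
  | .E => 18 * wM K + 10 * K + 2
  | .O => 21 * wM K + 10 * K + 2
  | .L => 24 * wM K + 10 * K + 2

/-- cost of a block with data letter `a` -/
def wQ (K : ℕ) : ℕ := 54 * wM K + 20 * K + 4

/-- cost of a block with data letter `b` -/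
def wP (K : ℕ) : Cls → ℕ
  | .E => 48 * wM K + 20 * K + 4
  | .O => wQ K
  | .L => wQ K

/-- weights of the letters -/
def wt (K : ℕ) : Lt → ℕ
  | .inl (.A _) => wM K
  | .inl (.B _) => wM K
  | .inl (.D x) => wD K x.1
  | .inr .tE => wQ K
  | .inr .tO => wQ K
  | .inr (.bt c) => wP K c / 2 - 1

/-- weight of a word -/
def wtl (K : ℕ) (l : List Lt) : ℕ := (l.map (wt K)).sum

/-- weight of a word in `A × B × D` -/
def wtg (K : ℕ) (l : List GLt) : ℕ := wtl K (l.map Sum.inl)

/-- projections of a word to the three factors -/
def prA (l : List GLt) : List P6 := l.filterMap (fun s => match s with | .A x => some x | _ => none)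
/-- projection -/
def prB (l : List GLt) : List P6 := l.filterMap (fun s => match s with | .B x => some x | _ => none)
/-- projection -/
def prD (l : List GLt) : List (Cls × Bool) :=
  l.filterMap (fun s => match s with | .D x => some x | _ => none)

/-- triviality in `A × B × D` -/
def TrivG (l : List GLt) : Prop := red (prA l) = [] ∧ red (prB l) = [] ∧ red (prD l) = []

/-- the dual weight of a block -/
noncomputable def dw (b : Cls × Bool) : ℝ := 2 * dl b.2

end Pool.Agent.Lib.MP_60edde_al.Neg
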