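import Mathlib
import Pool.Agent.Lib.MP_60edde_al.Neg.Defs

/-! Words in universal Coxeter groups. -/

namespace Pool.Agent.Lib.MP_60edde_al.Neg

section P1
variable {S : Type*} [DecidableEq S]

theorem push_nil (s : S) : push s ([] : List S) = [s] := rfl

theorem push_cons_self (s : S) (l : List S) : push s (s :: l) = l := by
  simp [push]

theorem push_cons_ne {s t : S} (h : s ≠ t) (l : List S) : push s (t :: l) = s :: t :: l := by
  simp [push, h]

theorem red_cons (s : S) (l : List S) : red (s :: l) = push s (red l) := rfl

theorem push_chain (s : S) {l : List S} (h : l.IsChain (· ≠ ·)) :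
    (push s l).IsChain (· ≠ ·) := by
  cases l with
  | nil => simp [push]
  | cons t l =>
    by_cases hst : s = t
    · subst hst
      rw [push_cons_self]
      exact h.tail
    · rw [push_cons_ne hst]
      exact List.IsChain.cons_cons hst h

theorem push_push (s : S) {l : List S} (h : l.IsChain (· ≠ ·)) : push s (push s l) = l := by
  cases l with
  | nil => simp [push]
  | cons t l =>
    by_cases hst : s = t
    · subst hst
      rw [push_cons_self]
      cases l with
      | nil => rfl
      | cons u l =>
        have hne : s ≠ u := (List.isChain_cons_cons.1 h).1
        rw [push_cons_ne hne]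
    · rw [push_cons_ne hst, push_cons_self]

theorem red_chain (l : List S) : (red l).IsChain (· ≠ ·) := by
  induction l with
  | nil => exact List.IsChain.nil
  | cons s l ih => exact push_chain s ih

theorem red_of_chain {l : List S} (h : l.IsChain (· ≠ ·)) : red l = l := by
  induction l with
  | nil => rfl
  | cons s l ih =>
    rw [red_cons, ih h.tail]
    cases l with
    | nil => rfl
    | cons t l => rw [push_cons_ne (List.isChain_cons_cons.1 h).1]

theorem red_append (p q : List S) : red (p ++ q) = p.foldr push (red q) := by
  induction p with
  | nil => rfl
  | cons s p ih =>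
    change push s (red (p ++ q)) = push s (p.foldr push (red q))
    rw [ih]

theorem red_cancel (p q : List S) (s : S) : red (p ++ s :: s :: q) = red (p ++ q) := by
  rw [red_append, red_append]
  have : red (s :: s :: q) = red q := push_push s (red_chain q)
  rw [this]

theorem red_push_append (s : S) (l q : List S) :
    red (push s l ++ q) = push s (red (l ++ q)) := by
  cases l with
  | nil => rfl
  | cons t l =>
    by_cases hst : s = t
    · subst hst
      rw [push_cons_self]
      exact (push_push s (red_chain (l ++ q))).symm
    · rw [push_cons_ne hst]
      rfl

theorem red_append_red_left (p q : List S) : red (red p ++ q) = red (p ++ q) := by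
  induction p with
  | nil => rfl
  | cons s p ih =>
    rw [red_cons, red_push_append, ih]
    rfl

theorem red_append_red_right (p q : List S) : red (p ++ red q) = red (p ++ q) := by
  rw [red_append, red_append, red_of_chain (red_chain q)]

omit [DecidableEq S] in
theorem chain_reverse {l : List S} (h : l.IsChain (· ≠ ·)) : l.reverse.IsChain (· ≠ ·) := by
  rw [List.isChain_reverse]
  exact h.imp (fun _ _ hab => Ne.symm hab)

theorem red_cons_reverse (s : S) {l : List S} (h : l.IsChain (· ≠ ·)) :
    red (s :: l).reverse = (push s l).reverse := by
  cases l with
  | nil => rfl
  | cons t l =>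
    by_cases hst : s = t
    · subst hst
      have e1 : (s :: s :: l).reverse = l.reverse ++ s :: s :: [] := by simp
      have hl : l.IsChain (· ≠ ·) := h.tail
      rw [e1, red_cancel, List.append_nil, red_of_chain (chain_reverse hl), push_cons_self]
    · have hc : (s :: t :: l).IsChain (· ≠ ·) := List.IsChain.cons_cons hst h
      rw [red_of_chain (chain_reverse hc), push_cons_ne hst]

theorem red_reverse (l : List S) : red l.reverse = (red l).reverse := by
  induction l with
  | nil => rfl
  | cons s l ih =>
    have e1 : (s :: l).reverse = l.reverse ++ [s] := by simp
    rw [e1, ← red_append_red_left, ih]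
    have e2 : (red l).reverse ++ [s] = (s :: red l).reverse := by simp
    rw [e2, red_cons_reverse s (red_chain l)]
    rfl

theorem red_filter_red (l : List S) (p : S → Bool) :
    red ((red l).filter p) = red (l.filter p) := by
  induction l with
  | nil => rfl
  | cons s l ih =>
    rw [red_cons]
    have key : ∀ m : List S, red ((push s m).filter p) = red ((s :: m).filter p) := by
      intro m
      cases m with
      | nil => rfl
      | cons t m =>
        by_cases hst : s = t
        · subst hst
          rw [push_cons_self]
          by_cases hp : p s = true
          · rw [List.filter_cons_of_pos hp, List.filter_cons_of_pos hp]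
            exact (red_cancel [] (m.filter p) s).symm
          · rw [List.filter_cons_of_neg hp, List.filter_cons_of_neg hp]
        · rw [push_cons_ne hst]
    rw [key]
    by_cases hp : p s = true
    · rw [List.filter_cons_of_pos hp, List.filter_cons_of_pos hp, red_cons, red_cons, ih]
    · rw [List.filter_cons_of_neg hp, List.filter_cons_of_neg hp]
      exact ih

theorem red_filter {l : List S} (h : red l = []) (p : S → Bool) : red (l.filter p) = [] := by
  rw [← red_filter_red, h]
  rfl

theorem red_length_parity (l : List S) : ((red l).length + l.length) % 2 = 0 := by
  induction l with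
  | nil => rfl
  | cons s l ih =>
    rw [red_cons]
    have key : ∀ m : List S, ((push s m).length + m.length) % 2 = 1 := by
      intro m
      cases m with
      | nil => rfl
      | cons t m =>
        by_cases hst : s = t
        · subst hst
          rw [push_cons_self]
          simp only [List.length_cons]; omega
        · rw [push_cons_ne hst]
          simp only [List.length_cons]; omega
    have := key (red l)
    simp only [List.length_cons]
    omega

theorem red_even {l : List S} (h : red l = []) : Even l.length := by
  have := red_length_parity l
  rw [h] at this
  rw [Nat.even_iff]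
  simpa using this

theorem nodup_triv {ω κ : List S} (h : ω.Nodup) (hs : κ.Sublist ω) (hr : red κ = []) :
    κ = [] := by
  have h1 : κ.Nodup := h.sublist hs
  have h2 : κ.IsChain (· ≠ ·) := List.Pairwise.isChain h1
  rw [← red_of_chain h2]
  exact hr

/-- reduced words -/
def RL (S : Type*) : Type _ := {l : List S // l.IsChain (· ≠ ·)}

/-- the permutation of reduced words given by a letter -/
def pushP (s : S) : Equiv.Perm (RL S) where
  toFun := fun l => ⟨push s l.1, push_chain s l.2⟩
  invFun := fun l => ⟨push s l.1, push_chain s l.2⟩
  left_inv := fun l => Subtype.ext (push_push s l.2)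
  right_inv := fun l => Subtype.ext (push_push s l.2)

theorem pushP_mul_self (s : S) : pushP s * pushP s = 1 := by
  refine Equiv.ext (fun l => ?_)
  exact Subtype.ext (push_push s l.2)

theorem pushP_prod_apply (κ : List S) (l : RL S) :
    ((κ.map pushP).prod l).1 = κ.foldr push l.1 := by
  induction κ with
  | nil => rfl
  | cons s κ ih =>
    rw [List.map_cons, List.prod_cons]
    change push s ((κ.map pushP).prod l).1 = push s (κ.foldr push l.1)
    rw [ih]

theorem red_eq_nil_of_prod {κ : List S} (h : (κ.map pushP).prod = 1) : red κ = [] := by
  have h1 := pushP_prod_apply κ (⟨[], List.IsChain.nil⟩ : RL S)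
  rw [h] at h1
  have h2 : red (κ ++ []) = κ.foldr push (red []) := red_append κ []
  rw [List.append_nil] at h2
  rw [h2]
  exact h1.symm
end P1

end Pool.Agent.Lib.MP_60edde_al.Neg
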