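import Mathlib
import Pool.Agent.Lib.MP_60edde_al.Neg.Defs
import Pool.Agent.Lib.MP_60edde_al.Neg.UC

/-! The quasi-homomorphism lemma for words in universal Coxeter groups. -/

namespace Pool.Agent.Lib.MP_60edde_al.Neg

section P2
variable {S : Type*} {H : Type*} [Group H] (κ : S → S → H)

theorem kap_append (p q : List S) (y t : S) :
    kap κ (p ++ y :: t :: q) = kap κ (p ++ [y]) * κ y t * kap κ (t :: q) := by
  induction p with
  | nil => simp [kap]
  | cons a p ih =>
    cases p with
    | nil =>
      change κ a y * kap κ (y :: t :: q) = (κ a y * kap κ [y]) * κ y t * kap κ (t :: q)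
      simp [kap, mul_assoc]
    | cons b p =>
      change κ a b * kap κ (b :: p ++ y :: t :: q) =
        (κ a b * kap κ (b :: p ++ [y])) * κ y t * kap κ (t :: q)
      rw [ih]
      simp [mul_assoc]

theorem kap_reverse (hκ : ∀ s t, κ t s = (κ s t)⁻¹) (l : List S) :
    kap κ l.reverse = (kap κ l)⁻¹ := by
  induction l with
  | nil => simp [kap]
  | cons s l ih =>
    cases l with
    | nil => simp [kap]
    | cons t l =>
      have e : (s :: t :: l).reverse = l.reverse ++ t :: s :: [] := by simp
      have e2 : (t :: l).reverse = l.reverse ++ [t] := by simp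
      rw [e, kap_append, ← e2, ih, hκ s t]
      simp [kap]

/-- the splitting of a product of two reduced words -/
theorem red_split [DecidableEq S] (l1 l2 : List S) (h1 : l1.IsChain (· ≠ ·))
    (h2 : l2.IsChain (· ≠ ·)) :
    ∃ p c q : List S, l1 = p ++ c ∧ l2 = c.reverse ++ q ∧ red (l1 ++ l2) = p ++ q := by
  induction l1 using List.reverseRecOn generalizing l2 with
  | nil => exact ⟨[], [], l2, rfl, rfl, red_of_chain h2⟩
  | append_singleton l1 a ih =>
    cases l2 with
    | nil =>
      refine ⟨l1 ++ [a], [], [], by simp, rfl, ?_⟩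
      rw [List.append_nil, red_of_chain h1]
    | cons b l2 =>
      by_cases hab : a = b
      · subst hab
        obtain ⟨p, c, q, e1, e2, e3⟩ := ih l2 (List.isChain_append.1 h1).1 h2.tail
        refine ⟨p, c ++ [a], q, by rw [e1]; simp, by rw [e2]; simp, ?_⟩
        have : l1 ++ [a] ++ a :: l2 = l1 ++ a :: a :: l2 := by simp
        rw [this, red_cancel, e3]
      · refine ⟨l1 ++ [a], [], b :: l2, by simp, rfl, ?_⟩
        apply red_of_chain
        rw [List.isChain_append]
        refine ⟨h1, h2, ?_⟩
        intro x hx y hy
        simp at hx hy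
        subst hx hy
        exact hab

theorem kap_red_le [DecidableEq S] (hκ : ∀ s t, κ t s = (κ s t)⁻¹) (N : H → ℕ) (hN1 : N 1 = 0)
    (hNm : ∀ x y, N (x * y) ≤ N x + N y) (hNc : ∀ x y, N (y * x * y⁻¹) ≤ N x) (C : ℕ)
    (hC1 : ∀ s t, N (κ s t) ≤ C) (hC3 : ∀ s t u, N (κ s t * κ t u * κ u s) ≤ C)
    (l1 l2 : List S) (h1 : l1.IsChain (· ≠ ·)) (h2 : l2.IsChain (· ≠ ·)) :
    N (kap κ (red (l1 ++ l2))) ≤ N (kap κ l1) + N (kap κ l2) + C := by
  obtain ⟨p, c, q, e1, e2, e3⟩ := red_split l1 l2 h1 h2
  rw [e3, e1, e2]
  have hk : kap κ ([] : List S) = 1 := rfl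
  have hk1 : ∀ s : S, kap κ [s] = 1 := fun s => rfl
  cases c with
  | nil =>
    rw [List.append_nil, List.reverse_nil, List.nil_append]
    rcases List.eq_nil_or_concat p with hp | ⟨p', y, hp⟩
    · subst hp
      rw [List.nil_append, hk, hN1]
      omega
    · cases q with
      | nil =>
        rw [List.append_nil]
        omega
      | cons t q =>
        rw [List.concat_eq_append] at hp
        subst hp
        have e : p' ++ [y] ++ t :: q = p' ++ y :: t :: q := by simp
        rw [e, kap_append]
        set F := kap κ (p' ++ [y])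
        set G := kap κ (t :: q)
        have hh : F * κ y t * G = F * κ y t * F⁻¹ * (F * G) := by group
        rw [hh]
        have a1 := hNm (F * κ y t * F⁻¹) (F * G)
        have a2 := hNc (κ y t) F
        have a3 := hNm F G
        have a4 := hC1 y t
        omega
  | cons x c =>
    have hcr : (x :: c).reverse = c.reverse ++ [x] := by simp
    have hrev : kap κ (c.reverse ++ [x]) = (kap κ (x :: c))⁻¹ := by
      rw [← hcr, kap_reverse κ hκ]
    rcases List.eq_nil_or_concat p with hp | ⟨p', y, hp⟩
    · subst hp
      cases q with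
      | nil =>
        simp only [List.nil_append]
        rw [hk, hN1]
        omega
      | cons t q =>
        simp only [List.nil_append]
        have e : (x :: c).reverse ++ t :: q = c.reverse ++ x :: t :: q := by simp
        rw [e, kap_append, hrev]
        set F := kap κ (x :: c)
        set G := kap κ (t :: q)
        have hh : G = κ t x * (F * (F⁻¹ * κ x t * G)) := by
          rw [hκ x t]; group
        have a1 := hNm (κ t x) (F * (F⁻¹ * κ x t * G))
        have a2 := hNm F (F⁻¹ * κ x t * G)
        have a3 := hC1 t x
        rw [← hh] at a1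
        omega
    · rw [List.concat_eq_append] at hp
      subst hp
      cases q with
      | nil =>
        simp only [List.append_nil]
        have e : p' ++ [y] ++ x :: c = p' ++ y :: x :: c := by simp
        rw [e, kap_append, hcr, hrev]
        set F := kap κ (x :: c)
        set G := kap κ (p' ++ [y])
        have hh : G = (G * κ y x * F) * F⁻¹ * κ x y := by
          rw [hκ y x]; group
        have a1 := hNm (G * κ y x * F * F⁻¹) (κ x y)
        have a2 := hNm (G * κ y x * F) F⁻¹
        have a3 := hC1 x y
        rw [← hh] at a1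
        omega
      | cons t q =>
        have e0 : p' ++ [y] ++ t :: q = p' ++ y :: t :: q := by simp
        have e : p' ++ [y] ++ x :: c = p' ++ y :: x :: c := by simp
        have e' : (x :: c).reverse ++ t :: q = c.reverse ++ x :: t :: q := by simp
        rw [e0, e, e', kap_append, kap_append, kap_append, hrev]
        set F := kap κ (x :: c)
        set P := kap κ (p' ++ [y])
        set G := kap κ (t :: q)
        have hh : P * κ y t * G =
            (P * κ y x * F) * (F⁻¹ * κ x t * G) *
              (G⁻¹ * (κ t x * κ x y * κ y t) * G⁻¹⁻¹) := by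
          rw [hκ x t, hκ y x]; group
        rw [hh]
        have a1 := hNm ((P * κ y x * F) * (F⁻¹ * κ x t * G))
          (G⁻¹ * (κ t x * κ x y * κ y t) * G⁻¹⁻¹)
        have a2 := hNm (P * κ y x * F) (F⁻¹ * κ x t * G)
        have a3 := hNc (κ t x * κ x y * κ y t) G⁻¹
        have a4 := hC3 t x y
        omega

theorem kap_palindrome (hκ : ∀ s t, κ t s = (κ s t)⁻¹) {l : List S} (h : l.Palindrome)
    (hodd : Odd l.length) : kap κ l = 1 := by
  induction h with
  | nil => simp at hodd
  | singleton x => rfl
  | @cons_concat x l h ih =>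
    have ho : Odd l.length := by
      simp only [List.length_cons, List.length_append, List.length_nil] at hodd
      rw [Nat.odd_iff] at hodd ⊢
      omega
    have hk := ih ho
    cases l with
    | nil => simp at ho
    | cons y l =>
      have hrev : (y :: l).reverse = y :: l := h.reverse_eq
      have e1 : x :: (y :: l ++ [x]) = [] ++ x :: y :: (l ++ [x]) := by simp
      rw [e1, kap_append]
      have e2 : y :: (l ++ [x]) = (y :: l).reverse ++ [x] := by
        rw [hrev]; simp
      have e3 : (y :: l).reverse ++ [x] = l.reverse ++ y :: x :: [] := by simp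
      have e4 : l.reverse ++ [y] = y :: l := by
        rw [← List.reverse_cons]; exact hrev
      rw [e2, e3, kap_append, e4, hk, hκ x y]
      simp [kap]

end P2

theorem red_cancel_rev {S : Type*} [DecidableEq S] (a p q : List S) :
    red (a ++ p.reverse ++ (p ++ q)) = red (a ++ q) := by
  induction p generalizing a q with
  | nil => simp
  | cons s p ih =>
    have e : a ++ (s :: p).reverse ++ (s :: p ++ q) = (a ++ p.reverse) ++ s :: s :: (p ++ q) := by
      simp
    rw [e, red_cancel]
    exact ih a q

theorem sublist_delete {S : Type*} {κ' ω : List S} (h : κ'.Sublist ω)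
    (hl : κ'.length < ω.length) :
    ∃ (p : List S) (s : S) (q : List S), ω = p ++ s :: q ∧ κ'.Sublist (p ++ q) := by
  induction h with
  | slnil => exact absurd hl (lt_irrefl _)
  | cons a h _ => exact ⟨[], a, _, rfl, h⟩
  | cons_cons a h ih =>
    obtain ⟨p, s, q, e, hsub⟩ := ih (by simpa using hl)
    exact ⟨a :: p, s, q, by rw [e]; rfl, hsub.cons_cons a⟩

theorem quasi {S : Type*} [DecidableEq S] {H : Type*} [Group H] (κ : S → S → H)
    (hκ : ∀ s t, κ t s = (κ s t)⁻¹) (N : H → ℕ) (hN1 : N 1 = 0)
    (hNm : ∀ x y, N (x * y) ≤ N x + N y) (hNc : ∀ x y, N (y * x * y⁻¹) ≤ N x) (C : ℕ)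
    (hC1 : ∀ s t, N (κ s t) ≤ C) (hC3 : ∀ s t u, N (κ s t * κ t u * κ u s) ≤ C)
    {ω κ' : List S} (hs : κ'.Sublist ω) (hr : red κ' = []) :
    N (kap κ (red ω)) ≤ C * (ω.length - κ'.length - 1) := by
  obtain ⟨n, hn⟩ : ∃ n, ω.length = κ'.length + n := ⟨ω.length - κ'.length, by
    have := hs.length_le
    omega⟩
  have e : ω.length - κ'.length - 1 = n - 1 := by omega
  rw [e]
  induction n generalizing ω with
  | zero =>
    have : κ' = ω := hs.eq_of_length (by omega)
    subst this
    rw [hr]
    change N 1 ≤ _
    rw [hN1]
    exact Nat.zero_le _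
  | succ m ih =>
    obtain ⟨p, s, q, e1, hsub⟩ := sublist_delete hs (by omega)
    have hlen : (p ++ q).length = κ'.length + m := by
      rw [e1] at hn
      simp only [List.length_append, List.length_cons] at hn ⊢
      omega
    have hih := ih hsub hlen (by omega)
    -- the reflection
    set r := red (p ++ s :: p.reverse) with hrdef
    have hrc : r.IsChain (· ≠ ·) := red_chain _
    have hrrev : r.reverse = r := by
      rw [hrdef, ← red_reverse]
      congr 1
      simp
    have hrodd : Odd r.length := by
      have := red_length_parity (p ++ s :: p.reverse)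
      rw [← hrdef] at this
      simp only [List.length_append, List.length_cons, List.length_reverse] at this
      rw [Nat.odd_iff]
      omega
    have hkr : kap κ r = 1 := kap_palindrome κ hκ (List.Palindrome.of_reverse_eq hrrev) hrodd
    have hred : red ω = red (r ++ red (p ++ q)) := by
      rw [red_append_red_right, hrdef, red_append_red_left, e1]
      have e2 : p ++ s :: p.reverse ++ (p ++ q) = (p ++ [s]) ++ p.reverse ++ (p ++ q) := by simp
      rw [e2, red_cancel_rev]
      simp
    rcases Nat.eq_zero_or_pos m with hm | hm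
    · subst hm
      have : κ' = p ++ q := hsub.eq_of_length (by omega)
      rw [hred, ← this, hr, List.append_nil, red_of_chain hrc, hkr, hN1]
      exact Nat.zero_le _
    · rw [hred]
      have := kap_red_le κ hκ N hN1 hNm hNc C hC1 hC3 r (red (p ++ q)) hrc (red_chain _)
      rw [hkr, hN1] at this
      obtain ⟨m', rfl⟩ : ∃ m', m = m' + 1 := ⟨m - 1, by omega⟩
      simp only [Nat.add_sub_cancel] at hih ⊢
      calc N (kap κ (red (r ++ red (p ++ q)))) ≤ 0 + N (kap κ (red (p ++ q))) + C := this
        _ ≤ C * m' + C := by omega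
        _ = C * (m' + 1) := by ring

end Pool.Agent.Lib.MP_60edde_al.Neg
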