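import Mathlib
import Pool.Agent.Lib.MP_60edde_al.Neg.Defs
import Pool.Agent.Lib.MP_60edde_al.Neg.UC
import Pool.Agent.Lib.MP_60edde_al.Neg.Quasi

namespace Pool.Agent.Lib.MP_60edde_al.Neg

theorem dword_cons (c : Cls) (l : List Cls) : dword (c :: l) = (c, false) :: (c, true) :: dword l :=
  rfl

theorem dword_chain (l : List Cls) : (dword l).IsChain (· ≠ ·) := by
  induction l with
  | nil => simp [dword]
  | cons c l ih =>
    rw [dword_cons]
    cases l with
    | nil => simp [dword]
    | cons c' l =>
      rw [dword_cons] at ih ⊢
      rw [List.isChain_cons_cons, List.isChain_cons_cons]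
      refine ⟨by simp, by simp, ih⟩

/-- class change counting -/
def kdw (s t : Cls × Bool) : Multiplicative ℤ :=
  Multiplicative.ofAdd (if s.1 = t.1 then 0 else if s.2 = true ∧ t.2 = false then 1 else
    if s.2 = false ∧ t.2 = true then -1 else 0)

theorem kdw_inv (s t : Cls × Bool) : kdw t s = (kdw s t)⁻¹ := by
  revert s t
  decide

theorem kdw_dword (c : Cls) (l : List Cls) :
    kap kdw (dword (c :: l)) = Multiplicative.ofAdd ((runs (c :: l) : ℤ) - 1) := by
  induction l generalizing c with
  | nil => simp [dword, kap, kdw, runs]
  | cons c' l ih =>
    have h1 : dword (c :: c' :: l) = (c, false) :: (c, true) :: (c', false) ::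
        ((c', true) :: dword l) := rfl
    have h2 : kap kdw (dword (c :: c' :: l)) = kdw (c, false) (c, true) *
        (kdw (c, true) (c', false) * kap kdw (dword (c' :: l))) := by
      rw [h1]; rfl
    rw [h2, ih]
    by_cases h : c = c'
    · subst h
      simp [kdw, runs]
    · simp only [kdw, runs, h, if_false, if_true]
      simp only [← ofAdd_add]
      congr 1
      push_cast
      simp

theorem dword_filter (l : List Cls) (c : Cls) :
    (dword l).filter (fun x => decide (x.1 = c)) = dword (l.filter (fun x => decide (x = c))) := by
  induction l with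
  | nil => rfl
  | cons a l ih =>
    rw [dword_cons]
    by_cases h : a = c
    · subst h
      simp [dword_cons, ih]
    · simp [h, ih]

theorem dword_class (l : List Cls) (c : Cls) (hc : c ∈ l) (κ : List (Cls × Bool))
    (hs : κ.Sublist (dword l)) (hr : red κ = []) :
    κ.countP (fun x => x.1 = c) + 2 ≤ (dword l).countP (fun x => x.1 = c) := by
  have h1 : (κ.filter (fun x => decide (x.1 = c))).Sublist
      ((dword l).filter (fun x => decide (x.1 = c))) := hs.filter _
  have h2 := red_even (red_filter hr (fun x => decide (x.1 = c)))
  rw [List.countP_eq_length_filter, List.countP_eq_length_filter]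
  have h3 := h1.length_le
  have h4 : Even ((dword l).filter (fun x => decide (x.1 = c))).length := by
    rw [dword_filter]
    generalize l.filter (fun x => decide (x = c)) = m
    induction m with
    | nil => simp [dword]
    | cons a m ih => rw [dword_cons]; simp [Nat.even_add_one, ih]
  by_contra hlt
  have h5 : (κ.filter (fun x => decide (x.1 = c))).length =
      ((dword l).filter (fun x => decide (x.1 = c))).length := by
    obtain ⟨a, ha⟩ := h2
    obtain ⟨b, hb⟩ := h4
    omega
  have h6 := h1.eq_of_length h5
  have h7 := red_filter hr (fun x => decide (x.1 = c))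
  rw [h6, dword_filter, red_of_chain (dword_chain _)] at h7
  have h8 : c ∈ l.filter (fun x => decide (x = c)) := by simp [hc]
  cases h9 : l.filter (fun x => decide (x = c)) with
  | nil => rw [h9] at h8; simp at h8
  | cons a m => rw [h9, dword_cons] at h7; simp at h7

theorem runs_pos (c : Cls) (l : List Cls) : 1 ≤ runs (c :: l) := by
  induction l generalizing c with
  | nil => simp [runs]
  | cons a l ih =>
    have := ih a
    simp only [runs]
    split_ifs <;> omega

theorem dword_runs (l : List Cls) (κ : List (Cls × Bool)) (hs : κ.Sublist (dword l))
    (hr : red κ = []) : κ.length + runs l ≤ (dword l).length := by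
  cases l with
  | nil => simpa [runs] using hs.length_le
  | cons c l =>
    have h1 := quasi kdw kdw_inv (fun x => (Multiplicative.toAdd x).natAbs) (by simp)
      (by intro x y; exact Int.natAbs_add_le _ _)
      (by intro x y; simp [mul_comm]) 1 (by decide) (by decide) hs hr
    rw [red_of_chain (dword_chain _), kdw_dword] at h1
    have h2 := dword_class (c :: l) c (by simp) κ hs hr
    have h3 : κ.length + 1 ≤ (dword (c :: l)).length := by
      by_contra h
      have := hs.eq_of_length_le (by omega)
      rw [this] at h2
      omega
    have h4 := runs_pos c l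
    simp only [toAdd_ofAdd] at h1
    omega

end Pool.Agent.Lib.MP_60edde_al.Neg
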