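import Mathlib
import Pool.Agent.Lib.MP_60edde_al.Neg.Defs

/-!
MP_60edde_al, negative answer: further definitions.
-/

namespace Pool.Agent.Lib.MP_60edde_al.Neg

/-- the discrepancy bound with constant `K` -/
def DLK (K : ℕ) : Prop :=
  1 ≤ K ∧ ∀ (L : List (Cls × Bool)) (κA κB : List (Bool × Bool)),
    κA.Sublist (L.flatMap portA) → κB.Sublist (L.flatMap portB) →
    FreeGroup.mk κA = 1 → FreeGroup.mk κB = 1 →
    dsum (L.map Prod.snd) ≤ (K : ℝ) * ((runs (L.map Prod.fst) +
      (((L.flatMap portA).length - κA.length) + ((L.flatMap portB).length - κB.length)) : ℕ) : ℝ)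

/-- the irrational slope -/
noncomputable def slope (K : ℕ) : ℝ :=
  2 * wQ K + (wP K .E + wP K .O + wP K .L) - 2 * psi

/-- A word is trivial in the base right-angled Coxeter group when it is killed by every
homomorphism-like assignment. -/
def TrivW (κ : List Lt) : Prop := ∀ (G : Type) [Group G] (f : Lt → G), (∀ s, f s * f s = 1) →
  (∀ s t, comm s t = true → f s * f t = f t * f s) → (κ.map f).prod = 1

end Pool.Agent.Lib.MP_60edde_al.Neg
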