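import Mathlib
import Pool.Agent.Lib.MP_60edde_al.Neg.Defs

/-!
MP_60edde_al, negative answer, piece P3: the deletion length on free groups.
-/

namespace Pool.Agent.Lib.MP_60edde_al.Neg

variable {α : Type*}

/-- a word reducing to one letter contains that letter, between two trivial words -/
theorem fd_single {L : List (α × Bool)} {x : α × Bool} (h : FreeGroup.Red L [x]) :
    ∃ u v : List (α × Bool), L = u ++ x :: v ∧ FreeGroup.mk u = 1 ∧ FreeGroup.mk v = 1 := by
  induction h using Relation.ReflTransGen.head_induction_on with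
  | refl => exact ⟨[], [], rfl, rfl, rfl⟩
  | head hs _ ih =>
    rename_i a c
    obtain ⟨u, v, huv, hu, hv⟩ := ih
    cases hs with
    | not =>
      rename_i p q y b
      rcases List.append_eq_append_iff.mp huv with ⟨w, hw1, hw2⟩ | ⟨w, hw1, hw2⟩
      · refine ⟨p ++ (y, b) :: (y, !b) :: w, v, ?_, ?_, hv⟩
        · rw [hw2]
          simp
        · have h1 : FreeGroup.mk (p ++ (y, b) :: (y, !b) :: w) = FreeGroup.mk (p ++ w) :=
            Quot.sound FreeGroup.Red.Step.not
          rw [h1, ← hw1]
          exact hu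
      · rcases w with _ | ⟨z, w⟩
        · simp only [List.nil_append] at hw2
          simp only [List.append_nil] at hw1
          refine ⟨p ++ [(y, b), (y, !b)], v, ?_, ?_, hv⟩
          · rw [← hw2]
            simp
          · have h1 : FreeGroup.mk (p ++ (y, b) :: (y, !b) :: []) = FreeGroup.mk (p ++ []) :=
              Quot.sound FreeGroup.Red.Step.not
            rw [h1, List.append_nil, hw1]
            exact hu
        · simp only [List.cons_append, List.cons.injEq] at hw2
          obtain ⟨rfl, hw2⟩ := hw2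
          refine ⟨u, w ++ (y, b) :: (y, !b) :: q, ?_, hu, ?_⟩
          · rw [hw1]
            simp
          · have h1 : FreeGroup.mk (w ++ (y, b) :: (y, !b) :: q) = FreeGroup.mk (w ++ q) :=
              Quot.sound FreeGroup.Red.Step.not
            rw [h1, ← hw2]
            exact hv

/-- removing one letter of a trivial word can be repaired by removing one other letter -/
theorem fd_repair {p q : List (α × Bool)} {x : α} {b : Bool}
    (h : FreeGroup.mk (p ++ (x, b) :: q) = 1) :
    ∃ p' q' : List (α × Bool), p'.Sublist p ∧ q'.Sublist q ∧ FreeGroup.mk (p' ++ q') = 1 ∧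
      p.length + q.length = p'.length + q'.length + 1 := by
  have h1 : FreeGroup.mk p * (FreeGroup.mk [(x, b)] * FreeGroup.mk q) = 1 := by
    rw [FreeGroup.mul_mk, FreeGroup.mul_mk]
    exact h
  have hx : FreeGroup.mk [(x, !b)] * FreeGroup.mk [(x, b)] = 1 := by
    rw [FreeGroup.mul_mk]
    have : FreeGroup.mk ([] ++ (x, !b) :: (x, !(!b)) :: []) = FreeGroup.mk ([] ++ []) :=
      Quot.sound FreeGroup.Red.Step.not
    rw [Bool.not_not] at this
    exact this
  have hx' : FreeGroup.mk [(x, !b)] = (FreeGroup.mk [(x, b)])⁻¹ := eq_inv_of_mul_eq_one_left hx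
  have h2 : FreeGroup.mk (q ++ p) = FreeGroup.mk [(x, !b)] := by
    rw [← FreeGroup.mul_mk, hx']
    have h3 : (FreeGroup.mk p) = (FreeGroup.mk [(x, b)] * FreeGroup.mk q)⁻¹ :=
      eq_inv_of_mul_eq_one_left h1
    rw [h3]
    group
  obtain ⟨c, hc1, hc2⟩ := FreeGroup.Red.exact.mp h2
  have hc3 : c = [(x, !b)] := FreeGroup.Red.singleton_iff.mp hc2
  rw [hc3] at hc1
  obtain ⟨u, v, huv, hu, hv⟩ := fd_single hc1
  rcases List.append_eq_append_iff.mp huv with ⟨w, hw1, hw2⟩ | ⟨w, hw1, hw2⟩
  · refine ⟨w ++ v, q, ?_, List.Sublist.refl q, ?_, ?_⟩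
    · rw [hw2]
      exact (List.Sublist.refl w).append (List.sublist_cons_self _ _)
    · rw [← FreeGroup.mul_mk, ← FreeGroup.mul_mk, hv, mul_one]
      rw [hw1, ← FreeGroup.mul_mk] at hu
      exact mul_eq_one_comm.mp hu
    · rw [hw2]
      simp only [List.length_append, List.length_cons]
      omega
  · rcases w with _ | ⟨z, w⟩
    · simp only [List.nil_append] at hw2
      simp only [List.append_nil] at hw1
      refine ⟨v, q, ?_, List.Sublist.refl q, ?_, ?_⟩
      · rw [← hw2]
        exact List.sublist_cons_self _ _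
      · rw [← FreeGroup.mul_mk, hv, one_mul, hw1]
        exact hu
      · rw [← hw2]
        simp only [List.length_cons]
        omega
    · simp only [List.cons_append, List.cons.injEq] at hw2
      obtain ⟨rfl, hw2⟩ := hw2
      refine ⟨p, u ++ w, List.Sublist.refl p, ?_, ?_, ?_⟩
      · rw [hw1]
        exact (List.Sublist.refl u).append (List.sublist_cons_self _ _)
      · rw [← FreeGroup.mul_mk, ← FreeGroup.mul_mk, hu, one_mul]
        rw [hw2, ← FreeGroup.mul_mk] at hv
        exact mul_eq_one_comm.mp hv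
      · rw [hw1]
        simp only [List.length_append, List.length_cons]
        omega

/-- `n` deletions suffice to make the word trivial -/
def FdDel (n : ℕ) (π : List (α × Bool)) : Prop :=
  ∃ κ : List (α × Bool), κ.Sublist π ∧ FreeGroup.mk κ = 1 ∧ π.length ≤ κ.length + n

theorem fd_step {n : ℕ} {L₁ L₂ : List (α × Bool)} (h : FreeGroup.Red.Step L₁ L₂) :
    FdDel n L₁ ↔ FdDel n L₂ := by
  cases h with
  | not =>
    rename_i P Q x b
    constructor
    · rintro ⟨κ, hs, ht, hl⟩
      obtain ⟨κp, κr, rfl, hp, hr⟩ := List.sublist_append_iff.mp hs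
      have h2 : κr.Sublist ([(x, b), (x, !b)] ++ Q) := hr
      obtain ⟨κm, κq, rfl, hm, hq⟩ := List.sublist_append_iff.mp h2
      simp only [List.length_append, List.length_cons] at hl
      cases hm with
      | cons _ hm =>
        cases hm with
        | cons _ hm =>
          cases hm
          refine ⟨κp ++ κq, hp.append hq, by simpa using ht, ?_⟩
          simp only [List.length_append, List.length_nil] at hl ⊢
          omega
        | cons_cons _ hm =>
          cases hm
          obtain ⟨p', q', hp', hq', h1, h3⟩ := fd_repair (p := κp) (q := κq) (x := x) (b := !b)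
            (by simpa using ht)
          refine ⟨p' ++ q', (hp'.trans hp).append (hq'.trans hq), h1, ?_⟩
          simp only [List.length_append, List.length_cons, List.length_nil] at hl ⊢
          omega
      | cons_cons _ hm =>
        cases hm with
        | cons _ hm =>
          cases hm
          obtain ⟨p', q', hp', hq', h1, h3⟩ := fd_repair (p := κp) (q := κq) (x := x) (b := b)
            (by simpa using ht)
          refine ⟨p' ++ q', (hp'.trans hp).append (hq'.trans hq), h1, ?_⟩
          simp only [List.length_append, List.length_cons, List.length_nil] at hl ⊢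
          omega
        | cons_cons _ hm =>
          cases hm
          refine ⟨κp ++ κq, hp.append hq, ?_, ?_⟩
          · rw [← ht]
            exact (Quot.sound (FreeGroup.Red.Step.not (L₁ := κp) (L₂ := κq) (x := x)
              (b := b))).symm
          · simp only [List.length_append, List.length_cons, List.length_nil] at hl ⊢
            omega
    · rintro ⟨κ, hs, ht, hl⟩
      obtain ⟨κp, κq, rfl, hp, hq⟩ := List.sublist_append_iff.mp hs
      refine ⟨κp ++ (x, b) :: (x, !b) :: κq, hp.append ((hq.cons_cons _).cons_cons _), ?_, ?_⟩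
      · rw [← ht]
        exact Quot.sound FreeGroup.Red.Step.not
      · simp only [List.length_append, List.length_cons] at hl ⊢
        omega

theorem fd_red {n : ℕ} {L₁ L₂ : List (α × Bool)} (h : FreeGroup.Red L₁ L₂) :
    FdDel n L₁ ↔ FdDel n L₂ := by
  induction h with
  | refl => exact Iff.rfl
  | tail _ hs ih => exact ih.trans (fd_step hs)

theorem fd_mk {n : ℕ} {L₁ L₂ : List (α × Bool)} (h : FreeGroup.mk L₁ = FreeGroup.mk L₂) :
    FdDel n L₁ ↔ FdDel n L₂ := by
  obtain ⟨c, h1, h2⟩ := FreeGroup.Red.exact.mp h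
  exact (fd_red h1).trans (fd_red h2).symm

theorem delLen_spec (π : List (α × Bool)) : ∃ π' : List (α × Bool), π'.Sublist π ∧
    FreeGroup.mk π' = 1 ∧ π.length ≤ π'.length + delLen (FreeGroup.mk π) := by
  have hne : {n | ∃ π₁ π₂ : List (α × Bool), FreeGroup.mk π₁ = FreeGroup.mk π ∧
      π₂.Sublist π₁ ∧ FreeGroup.mk π₂ = 1 ∧ π₁.length = π₂.length + n}.Nonempty :=
    ⟨π.length, π, [], rfl, List.nil_sublist _, rfl, by simp⟩
  obtain ⟨π₁, π₂, h1, h2, h3, h4⟩ := Nat.sInf_mem hne
  exact (fd_mk h1).mp ⟨π₂, h2, h3, h4.le⟩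

theorem delLen_le {n : ℕ} {π : List (α × Bool)} (h : FdDel n π) :
    delLen (FreeGroup.mk π) ≤ n := by
  obtain ⟨κ, h1, h2, h3⟩ := h
  have h4 : delLen (FreeGroup.mk π) ≤ π.length - κ.length :=
    Nat.sInf_le ⟨π, κ, rfl, h1, h2, by have := h1.length_le; omega⟩
  omega

theorem delLen_one : delLen (1 : FreeGroup α) = 0 := by
  have h : delLen (FreeGroup.mk ([] : List (α × Bool))) ≤ 0 :=
    delLen_le ⟨[], List.Sublist.refl _, rfl, by simp⟩
  exact Nat.le_zero.mp h

theorem delLen_mul (g h : FreeGroup α) : delLen (g * h) ≤ delLen g + delLen h := by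
  induction g using Quot.inductionOn with | _ L₁ => ?_
  induction h using Quot.inductionOn with | _ L₂ => ?_
  obtain ⟨a, a1, a2, a3⟩ := delLen_spec L₁
  obtain ⟨b, b1, b2, b3⟩ := delLen_spec L₂
  refine delLen_le (π := L₁ ++ L₂) ⟨a ++ b, a1.append b1, ?_, ?_⟩
  · rw [← FreeGroup.mul_mk, a2, b2, mul_one]
  · simp only [List.length_append]
    have e1 : delLen (FreeGroup.mk L₁) = delLen (Quot.mk FreeGroup.Red.Step L₁) := rfl
    have e2 : delLen (FreeGroup.mk L₂) = delLen (Quot.mk FreeGroup.Red.Step L₂) := rfl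
    omega

theorem delLen_conj (g h : FreeGroup α) : delLen (h * g * h⁻¹) ≤ delLen g := by
  induction g using Quot.inductionOn with | _ L₁ => ?_
  induction h using Quot.inductionOn with | _ L₂ => ?_
  obtain ⟨a, a1, a2, a3⟩ := delLen_spec L₁
  refine delLen_le (π := (L₂ ++ L₁) ++ FreeGroup.invRev L₂)
    ⟨(L₂ ++ a) ++ FreeGroup.invRev L₂,
      ((List.Sublist.refl _).append a1).append (List.Sublist.refl _), ?_, ?_⟩
  · rw [← FreeGroup.mul_mk, ← FreeGroup.mul_mk, a2, mul_one, ← FreeGroup.inv_mk, mul_inv_cancel]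
  · simp only [List.length_append]
    have e1 : delLen (FreeGroup.mk L₁) = delLen (Quot.mk FreeGroup.Red.Step L₁) := rfl
    omega

theorem delLen_inv (g : FreeGroup α) : delLen g⁻¹ ≤ delLen g := by
  induction g using Quot.inductionOn with | _ L₁ => ?_
  obtain ⟨a, a1, a2, a3⟩ := delLen_spec L₁
  refine delLen_le (π := FreeGroup.invRev L₁) ⟨FreeGroup.invRev a, ?_, ?_, ?_⟩
  · exact (a1.map _).reverse
  · rw [← FreeGroup.inv_mk, a2, inv_one]
  · simp only [FreeGroup.invRev_length]
    exact a3

theorem delLen_of (x : α) : delLen (FreeGroup.of x) ≤ 1 :=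
  delLen_le (π := [(x, true)]) ⟨[], List.nil_sublist _, rfl, by simp⟩

end Pool.Agent.Lib.MP_60edde_al.Neg
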