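import Mathlib
import Pool.Agent.Lib.MP_60edde_al.Neg.Defs
import Pool.Agent.Lib.MP_60edde_al.Neg.UC
import Pool.Agent.Lib.MP_60edde_al.Neg.Quasi
import Pool.Agent.Lib.MP_60edde_al.Neg.FD

/-! Deletions in words of ports. -/

namespace Pool.Agent.Lib.MP_60edde_al.Neg

/-! ### the words of ports -/

theorem enc_nil : enc [] = [] := rfl

theorem enc_cons (x : Bool × Bool) (π : List (Bool × Bool)) : enc (x :: π) = sport x ++ enc π := rfl

theorem enc_append (p q : List (Bool × Bool)) : enc (p ++ q) = enc p ++ enc q := by
  simp [enc, List.flatMap_append]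

theorem sport_true (l : Bool) :
    sport (l, true) = [(l, 0), (l, 1), (l, 2), (l, 3), (l, 4), (l, 5)] := rfl

theorem sport_false (l : Bool) :
    sport (l, false) = [(l, 5), (l, 4), (l, 3), (l, 2), (l, 1), (l, 0)] := rfl

theorem sport_length (x : Bool × Bool) : (sport x).length = 6 := by
  obtain ⟨l, b⟩ := x
  cases b <;> rfl

theorem sport_fst {x : Bool × Bool} {s : P6} (hs : s ∈ sport x) : s.1 = x.1 := by
  obtain ⟨l, b⟩ := x
  cases b
  · rw [sport_false] at hs
    simp only [List.mem_cons, List.not_mem_nil, or_false] at hs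
    rcases hs with rfl | rfl | rfl | rfl | rfl | rfl <;> rfl
  · rw [sport_true] at hs
    simp only [List.mem_cons, List.not_mem_nil, or_false] at hs
    rcases hs with rfl | rfl | rfl | rfl | rfl | rfl <;> rfl

theorem sport_nodup (x : Bool × Bool) : (sport x).Nodup := by
  obtain ⟨l, b⟩ := x
  cases b <;> cases l <;> decide

theorem enc_length (π : List (Bool × Bool)) : (enc π).length = 6 * π.length := by
  induction π with
  | nil => rfl
  | cons x π ih =>
    rw [enc_cons, List.length_append, sport_length, ih, List.length_cons]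
    ring

theorem enc_fst {π : List (Bool × Bool)} {s : P6} (hs : s ∈ enc π) : s.1 ∈ π.map Prod.fst := by
  induction π with
  | nil => simp [enc_nil] at hs
  | cons x π ih =>
    rw [enc_cons, List.mem_append] at hs
    rcases hs with hs | hs
    · rw [sport_fst hs]; simp
    · exact List.mem_cons_of_mem _ (ih hs)

theorem enc_nodup {π : List (Bool × Bool)} (h : (π.map Prod.fst).Nodup) : (enc π).Nodup := by
  induction π with
  | nil => exact List.nodup_nil
  | cons x π ih =>
    rw [List.map_cons, List.nodup_cons] at h
    rw [enc_cons, List.nodup_append]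
    refine ⟨sport_nodup x, ih h.2, ?_⟩
    intro a ha b hb hab
    subst hab
    apply h.1
    rw [← sport_fst ha]
    exact enc_fst hb

/-! ### one sign -/

/-- an injective value of the letters -/
def pval (s : P6) : ℤ := (if s.1 then 6 else 0) + (s.2.val : ℤ)

/-- up or down -/
def kud (s t : P6) : Multiplicative ℤ := Multiplicative.ofAdd (Int.sign (pval t - pval s))

theorem kud_inv (s t : P6) : kud t s = (kud s t)⁻¹ := by
  unfold kud
  rw [← ofAdd_neg, ← Int.sign_neg, neg_sub]

theorem sign_abs (a : ℤ) : (Int.sign a).natAbs ≤ 1 := by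
  rcases lt_trichotomy a 0 with h | h | h
  · rw [Int.sign_eq_neg_one_of_neg h]; decide
  · rw [h]; decide
  · rw [Int.sign_eq_one_of_pos h]; decide

theorem sign_three (a b c : ℤ) (h : a + b + c = 0) :
    (Int.sign a + Int.sign b + Int.sign c).natAbs ≤ 1 := by
  rcases lt_trichotomy a 0 with ha | ha | ha <;> rcases lt_trichotomy b 0 with hb | hb | hb <;>
    rcases lt_trichotomy c 0 with hc | hc | hc <;>
    first
    | (exfalso; omega)
    | (simp only [Int.sign_eq_neg_one_of_neg, Int.sign_eq_one_of_pos, ha, hb, hc, Int.sign_zero]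
       decide)

theorem kud_pos (u : List Bool) (x : Bool) :
    (4 * ((x :: u).length : ℤ) + 1 ≤
      Multiplicative.toAdd (kap kud (enc ((x :: u).map (fun x => (x, true)))))) := by
  induction u generalizing x with
  | nil => cases x <;> decide
  | cons y u ih =>
    have h1 := ih y
    have e1 : enc ((x :: y :: u).map (fun x => (x, true))) =
        (x, 0) :: (x, 1) :: (x, 2) :: (x, 3) :: (x, 4) :: (x, 5) ::
          enc ((y :: u).map (fun x => (x, true))) := rfl
    have e2 : enc ((y :: u).map (fun x => (x, true))) =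
        (y, 0) :: ((y, 1) :: (y, 2) :: (y, 3) :: (y, 4) :: (y, 5) ::
          enc (u.map (fun x => (x, true)))) := rfl
    have e3 : kap kud (enc ((x :: y :: u).map (fun x => (x, true)))) =
        kud (x, 0) (x, 1) * (kud (x, 1) (x, 2) * (kud (x, 2) (x, 3) * (kud (x, 3) (x, 4) *
          (kud (x, 4) (x, 5) * (kud (x, 5) (y, 0) *
            kap kud (enc ((y :: u).map (fun x => (x, true))))))))) := by
      rw [e1, e2]
      rfl
    rw [e3]
    simp only [toAdd_mul]
    have h2 : (4 : ℤ) ≤ Multiplicative.toAdd (kud (x, 0) (x, 1)) +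
        (Multiplicative.toAdd (kud (x, 1) (x, 2)) + (Multiplicative.toAdd (kud (x, 2) (x, 3)) +
        (Multiplicative.toAdd (kud (x, 3) (x, 4)) + (Multiplicative.toAdd (kud (x, 4) (x, 5)) +
        Multiplicative.toAdd (kud (x, 5) (y, 0)))))) := by
      cases x <;> cases y <;> decide
    simp only [List.length_cons] at h1 ⊢
    push_cast at h1 ⊢
    linarith

theorem kud_neg (u : List Bool) (x : Bool) :
    (4 * ((x :: u).length : ℤ) + 1 ≤
      - Multiplicative.toAdd (kap kud (enc ((x :: u).map (fun x => (x, false)))))) := by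
  induction u generalizing x with
  | nil => cases x <;> decide
  | cons y u ih =>
    have h1 := ih y
    have e1 : enc ((x :: y :: u).map (fun x => (x, false))) =
        (x, 5) :: (x, 4) :: (x, 3) :: (x, 2) :: (x, 1) :: (x, 0) ::
          enc ((y :: u).map (fun x => (x, false))) := rfl
    have e2 : enc ((y :: u).map (fun x => (x, false))) =
        (y, 5) :: ((y, 4) :: (y, 3) :: (y, 2) :: (y, 1) :: (y, 0) ::
          enc (u.map (fun x => (x, false)))) := rfl
    have e3 : kap kud (enc ((x :: y :: u).map (fun x => (x, false)))) =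
        kud (x, 5) (x, 4) * (kud (x, 4) (x, 3) * (kud (x, 3) (x, 2) * (kud (x, 2) (x, 1) *
          (kud (x, 1) (x, 0) * (kud (x, 0) (y, 5) *
            kap kud (enc ((y :: u).map (fun x => (x, false))))))))) := by
      rw [e1, e2]
      rfl
    rw [e3]
    simp only [toAdd_mul]
    have h2 : Multiplicative.toAdd (kud (x, 5) (x, 4)) +
        (Multiplicative.toAdd (kud (x, 4) (x, 3)) + (Multiplicative.toAdd (kud (x, 3) (x, 2)) +
        (Multiplicative.toAdd (kud (x, 2) (x, 1)) + (Multiplicative.toAdd (kud (x, 1) (x, 0)) +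
        Multiplicative.toAdd (kud (x, 0) (y, 5)))))) ≤ -(4 : ℤ) := by
      cases x <;> cases y <;> decide
    simp only [List.length_cons] at h1 ⊢
    push_cast at h1 ⊢
    linarith

/-! ### reduced words of ports -/

theorem red_sport_cancel (x : Bool) (b : Bool) (p q : List P6) :
    red (p ++ (sport (x, b) ++ (sport (x, !b) ++ q))) = red (p ++ q) := by
  have key : ∀ (m q : List P6) (p : List P6), red (p ++ (m ++ (m.reverse ++ q))) = red (p ++ q) := by
    intro m
    induction m with
    | nil => intro q p; rfl
    | cons s m ih =>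
      intro q p
      have e1 : p ++ (s :: m ++ ((s :: m).reverse ++ q)) =
          (p ++ [s]) ++ (m ++ (m.reverse ++ (s :: q))) := by simp
      rw [e1, ih]
      have e2 : p ++ [s] ++ (s :: q) = p ++ s :: s :: q := by simp
      rw [e2, red_cancel]
  have e : sport (x, !b) = (sport (x, b)).reverse := by cases b <;> rfl
  rw [e]
  exact key _ _ _

theorem red_enc_step {L₁ L₂ : List (Bool × Bool)} (h : FreeGroup.Red.Step L₁ L₂) :
    red (enc L₁) = red (enc L₂) := by
  cases h with
  | not =>
    rename_i p q x b
    rw [enc_append, enc_cons, enc_cons, red_sport_cancel, enc_append]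

theorem red_enc_red {L₁ L₂ : List (Bool × Bool)} (h : FreeGroup.Red L₁ L₂) :
    red (enc L₁) = red (enc L₂) := by
  induction h with
  | refl => rfl
  | tail _ h ih => exact ih.trans (red_enc_step h)

theorem sport_head (x : Bool × Bool) :
    ∃ m, sport x = (x.1, if x.2 then 0 else 5) :: m := by
  obtain ⟨l, b⟩ := x
  cases b
  · exact ⟨_, rfl⟩
  · exact ⟨_, rfl⟩

theorem enc_chain {π : List (Bool × Bool)}
    (h : π.IsChain (fun a b => a.1 = b.1 → a.2 = b.2)) : (enc π).IsChain (· ≠ ·) := by
  induction π with
  | nil => exact List.IsChain.nil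
  | cons x π ih =>
    have ih' := ih h.tail
    cases π with
    | nil =>
      rw [enc_cons, enc_nil, List.append_nil]
      exact List.Pairwise.isChain (sport_nodup x)
    | cons y π =>
      rw [enc_cons]
      have hxy : x.1 = y.1 → x.2 = y.2 := (List.isChain_cons_cons.1 h).1
      obtain ⟨m, hm⟩ := sport_head y
      rw [enc_cons, hm, List.cons_append] at ih' ⊢
      obtain ⟨l, b⟩ := x
      obtain ⟨l', b'⟩ := y
      simp only at hxy ih' ⊢
      cases b
      · rw [sport_false]
        simp only [List.cons_append, List.nil_append]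
        refine List.IsChain.cons_cons (by simp) (List.IsChain.cons_cons (by simp)
          (List.IsChain.cons_cons (by simp) (List.IsChain.cons_cons (by simp)
          (List.IsChain.cons_cons (by simp) (List.IsChain.cons_cons ?_ ih')))))
        intro he
        rw [Prod.mk.injEq] at he
        have hb := hxy he.1
        have h2 := he.2
        simp [← hb] at h2
      · rw [sport_true]
        simp only [List.cons_append, List.nil_append]
        refine List.IsChain.cons_cons (by simp) (List.IsChain.cons_cons (by simp)
          (List.IsChain.cons_cons (by simp) (List.IsChain.cons_cons (by simp)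
          (List.IsChain.cons_cons (by simp) (List.IsChain.cons_cons ?_ ih')))))
        intro he
        rw [Prod.mk.injEq] at he
        have hb := hxy he.1
        have h2 := he.2
        simp [← hb] at h2

theorem red_enc (π : List (Bool × Bool)) : red (enc π) = enc (FreeGroup.reduce π) := by
  rw [red_enc_red (FreeGroup.reduce.red (L := π))]
  exact red_of_chain (enc_chain (FreeGroup.isReduced_iff_reduce_eq.2 FreeGroup.reduce.idem))

theorem chain_same {u : List Bool} (e : Bool) :
    (u.map (fun x => (x, e))).IsChain (fun a b => a.1 = b.1 → a.2 = b.2) := by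
  induction u with
  | nil => exact List.IsChain.nil
  | cons x u ih =>
    cases u with
    | nil => exact List.IsChain.singleton _
    | cons y u => exact List.IsChain.cons_cons (fun _ => rfl) ih

theorem ports_pos (u : List Bool) (e : Bool) (hu : u ≠ []) (κ : List P6)
    (hs : κ.Sublist (enc (u.map (fun x => (x, e))))) (hr : red κ = []) :
    κ.length + 4 * u.length + 2 ≤ 6 * u.length := by
  obtain ⟨x, u, rfl⟩ := List.exists_cons_of_ne_nil hu
  have hq := quasi kud kud_inv (fun x => (Multiplicative.toAdd x).natAbs) (by simp)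
    (fun x y => by
      simp only [toAdd_mul]
      exact Int.natAbs_add_le _ _)
    (fun x y => by
      simp only [toAdd_mul, toAdd_inv]
      rw [show Multiplicative.toAdd y + Multiplicative.toAdd x + -Multiplicative.toAdd y =
        Multiplicative.toAdd x by ring]) 1
    (fun s t => by
      unfold kud
      simp only [toAdd_ofAdd]
      exact sign_abs _)
    (fun s t w => by
      unfold kud
      simp only [toAdd_mul, toAdd_ofAdd]
      exact sign_three _ _ _ (by ring)) hs hr
  rw [red_of_chain (enc_chain (chain_same e)), enc_length, List.length_map] at hq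
  have h4 : 4 * (x :: u).length + 1 ≤
      (Multiplicative.toAdd (kap kud (enc ((x :: u).map (fun x => (x, e)))))).natAbs := by
    cases e
    · have := kud_neg u x
      omega
    · have := kud_pos u x
      omega
  omega

/-! ### the free group -/

/-- the values in the free group -/
def kfr (s t : P6) : FreeGroup Bool :=
  if s.1 = t.1 ∧ s.2 = 0 ∧ t.2 = 1 then FreeGroup.of s.1
  else if s.1 = t.1 ∧ s.2 = 1 ∧ t.2 = 0 then (FreeGroup.of s.1)⁻¹ else 1

theorem kfr_inv (s t : P6) : kfr t s = (kfr s t)⁻¹ := by
  unfold kfr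
  by_cases h1 : s.1 = t.1 ∧ s.2 = 0 ∧ t.2 = 1
  · rw [if_pos h1, if_neg, if_pos ⟨h1.1.symm, h1.2.2, h1.2.1⟩, h1.1]
    rintro ⟨-, h, -⟩
    rw [h1.2.2] at h
    exact absurd h (by decide)
  · rw [if_neg h1]
    by_cases h2 : s.1 = t.1 ∧ s.2 = 1 ∧ t.2 = 0
    · rw [if_pos h2, if_pos ⟨h2.1.symm, h2.2.2, h2.2.1⟩, h2.1, inv_inv]
    · rw [if_neg h2, if_neg, if_neg, inv_one]
      · rintro ⟨a, b, c⟩
        exact h1 ⟨a.symm, c, b⟩
      · rintro ⟨a, b, c⟩
        exact h2 ⟨a.symm, c, b⟩

theorem delLen_kfr (s t : P6) : delLen (kfr s t) ≤ 1 := by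
  unfold kfr
  split_ifs
  · exact delLen_of _
  · exact (delLen_inv _).trans (delLen_of _)
  · rw [delLen_one]; exact Nat.zero_le _

theorem kfr_sport_nil (x : Bool × Bool) : kap kfr (sport x) = FreeGroup.mk [x] := by
  obtain ⟨l, b⟩ := x
  cases b
  · rw [sport_false]
    simp [kap, kfr]
    rfl
  · rw [sport_true]
    simp [kap, kfr]
    rfl

theorem kap_enc (π : List (Bool × Bool)) : kap kfr (enc π) = FreeGroup.mk π := by
  induction π with
  | nil => rfl
  | cons x π ih =>
    cases π with
    | nil =>
      rw [enc_cons, enc_nil, List.append_nil]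
      exact kfr_sport_nil x
    | cons y π =>
      obtain ⟨m, hm⟩ := sport_head y
      rw [enc_cons, enc_cons, hm, List.cons_append]
      rw [enc_cons, hm, List.cons_append] at ih
      have hx : (FreeGroup.mk (x :: y :: π) : FreeGroup Bool) =
          FreeGroup.mk [x] * FreeGroup.mk (y :: π) := by
        rw [FreeGroup.mul_mk]; rfl
      rw [hx, ← ih, ← kfr_sport_nil x]
      obtain ⟨l, b⟩ := x
      obtain ⟨l', b'⟩ := y
      cases b <;> cases b' <;> simp [kap, kfr, sport_true, sport_false]

theorem ports_del (π : List (Bool × Bool)) (κ : List P6) (hs : κ.Sublist (enc π))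
    (hr : red κ = []) : ∃ π' : List (Bool × Bool), π'.Sublist π ∧ FreeGroup.mk π' = 1 ∧
      π.length ≤ π'.length + 3 * ((enc π).length - κ.length) := by
  obtain ⟨π', h1, h2, h3⟩ := delLen_spec π
  refine ⟨π', h1, h2, h3.trans ?_⟩
  have hq := quasi kfr kfr_inv delLen delLen_one delLen_mul (fun x y => delLen_conj x y) 3
    (fun s t => (delLen_kfr s t).trans (by norm_num))
    (fun s t w => by
      have a1 := delLen_mul (kfr s t * kfr t w) (kfr w s)
      have a2 := delLen_mul (kfr s t) (kfr t w)
      have b1 := delLen_kfr s t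
      have b2 := delLen_kfr t w
      have b3 := delLen_kfr w s
      omega) hs hr
  rw [red_enc, kap_enc] at hq
  have e : (FreeGroup.mk (FreeGroup.reduce π) : FreeGroup Bool) = FreeGroup.mk π :=
    FreeGroup.reduce.self
  rw [e] at hq
  omega

end Pool.Agent.Lib.MP_60edde_al.Neg
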