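import Mathlib
import Pool.Agent.Lib.MP_60edde_al.Neg.Defs
import Pool.Agent.Lib.MP_60edde_al.Neg.Defs2
import Pool.Agent.Lib.MP_60edde_al.Neg.UC
import Pool.Agent.Lib.MP_60edde_al.Neg.Ports
import Pool.Agent.Lib.MP_60edde_al.Neg.DWord

/-!
MP_60edde_al, negative answer, piece P7: the core inequality for the content of one face.
-/

namespace Pool.Agent.Lib.MP_60edde_al.Neg

namespace CoreAux

/-! ### Weights of words in terms of the three projections -/

/-- number of letters of class `c` -/
def cnt (c : Cls) (l : List (Cls × Bool)) : ℕ := l.countP (fun x => x.1 = c)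

theorem cnt_nil (c : Cls) : cnt c [] = 0 := rfl

theorem cnt_append (c : Cls) (l m : List (Cls × Bool)) : cnt c (l ++ m) = cnt c l + cnt c m := by
  unfold cnt; rw [List.countP_append]

theorem cnt_cons (c : Cls) (x : Cls × Bool) (l : List (Cls × Bool)) :
    cnt c (x :: l) = cnt c l + if x.1 = c then 1 else 0 := by
  unfold cnt; rw [List.countP_cons]; by_cases h : x.1 = c <;> simp [h]

theorem cnt_sum (l : List (Cls × Bool)) : cnt .E l + cnt .O l + cnt .L l = l.length := by
  induction l with
  | nil => rfl
  | cons x l ih =>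
    rw [cnt_cons, cnt_cons, cnt_cons, List.length_cons]
    obtain ⟨c, b⟩ := x
    cases c <;> simp <;> omega

theorem cnt_sublist (c : Cls) {l m : List (Cls × Bool)} (h : l.Sublist m) : cnt c l ≤ cnt c m :=
  h.countP_le

theorem prA_append (l m : List GLt) : prA (l ++ m) = prA l ++ prA m := by
  unfold prA; rw [List.filterMap_append]
theorem prB_append (l m : List GLt) : prB (l ++ m) = prB l ++ prB m := by
  unfold prB; rw [List.filterMap_append]
theorem prD_append (l m : List GLt) : prD (l ++ m) = prD l ++ prD m := by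
  unfold prD; rw [List.filterMap_append]

theorem prA_sublist {l m : List GLt} (h : l.Sublist m) : (prA l).Sublist (prA m) := h.filterMap _
theorem prB_sublist {l m : List GLt} (h : l.Sublist m) : (prB l).Sublist (prB m) := h.filterMap _
theorem prD_sublist {l m : List GLt} (h : l.Sublist m) : (prD l).Sublist (prD m) := h.filterMap _

theorem prA_mapA (l : List P6) : prA (l.map GLt.A) = l := by
  unfold prA; rw [List.filterMap_map]; exact List.filterMap_some
theorem prA_mapB (l : List P6) : prA (l.map GLt.B) = [] := by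
  unfold prA; rw [List.filterMap_map]; induction l with
  | nil => rfl
  | cons x l ih => simp
theorem prB_mapB (l : List P6) : prB (l.map GLt.B) = l := by
  unfold prB; rw [List.filterMap_map]; exact List.filterMap_some
theorem prB_mapA (l : List P6) : prB (l.map GLt.A) = [] := by
  unfold prB; rw [List.filterMap_map]; induction l with
  | nil => rfl
  | cons x l ih => simp
theorem prD_mapA (l : List P6) : prD (l.map GLt.A) = [] := by
  unfold prD; rw [List.filterMap_map]; induction l with
  | nil => rfl
  | cons x l ih => simp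
theorem prD_mapB (l : List P6) : prD (l.map GLt.B) = [] := by
  unfold prD; rw [List.filterMap_map]; induction l with
  | nil => rfl
  | cons x l ih => simp

theorem prA_blk (b : Cls × Bool) : prA (blk b) = enc (portA b) := by
  unfold blk
  rw [prA_append, prA_append, prA_mapA, prA_mapB]
  simp [prA]
theorem prB_blk (b : Cls × Bool) : prB (blk b) = enc (portB b) := by
  unfold blk
  rw [prB_append, prB_append, prB_mapA, prB_mapB]
  simp [prB]
theorem prD_blk (b : Cls × Bool) : prD (blk b) = [(b.1, false), (b.1, true)] := by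
  unfold blk
  rw [prD_append, prD_append, prD_mapA, prD_mapB]
  simp [prD]

theorem enc_append (π ρ : List (Bool × Bool)) : enc (π ++ ρ) = enc π ++ enc ρ := by
  unfold enc; rw [List.flatMap_append]

theorem prA_flat (L : List (Cls × Bool)) : prA (L.flatMap blk) = enc (L.flatMap portA) := by
  induction L with
  | nil => rfl
  | cons b L ih => rw [List.flatMap_cons, List.flatMap_cons, prA_append, enc_append, ih, prA_blk]
theorem prB_flat (L : List (Cls × Bool)) : prB (L.flatMap blk) = enc (L.flatMap portB) := by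
  induction L with
  | nil => rfl
  | cons b L ih => rw [List.flatMap_cons, List.flatMap_cons, prB_append, enc_append, ih, prB_blk]
theorem prD_flat (L : List (Cls × Bool)) : prD (L.flatMap blk) = dword (L.map Prod.fst) := by
  induction L with
  | nil => rfl
  | cons b L ih =>
    rw [List.flatMap_cons, prD_append, ih, prD_blk, List.map_cons]
    rfl

theorem wtg_nil (K : ℕ) : wtg K [] = 0 := rfl
theorem wtg_cons (K : ℕ) (s : GLt) (l : List GLt) : wtg K (s :: l) = wt K (.inl s) + wtg K l := by
  unfold wtg wtl; simp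

theorem wtg_eq (K : ℕ) (l : List GLt) : wtg K l = wM K * (prA l).length + wM K * (prB l).length +
    (wD K .E * cnt .E (prD l) + wD K .O * cnt .O (prD l) + wD K .L * cnt .L (prD l)) := by
  induction l with
  | nil => simp [wtg_nil, prA, prB, prD, cnt_nil]
  | cons s l ih =>
    rw [wtg_cons, ih]
    cases s with
    | A x =>
      have h1 : prA (GLt.A x :: l) = x :: prA l := by simp [prA]
      have h2 : prB (GLt.A x :: l) = prB l := by simp [prB]
      have h3 : prD (GLt.A x :: l) = prD l := by simp [prD]
      rw [h1, h2, h3, List.length_cons]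
      simp only [wt]; ring
    | B x =>
      have h1 : prA (GLt.B x :: l) = prA l := by simp [prA]
      have h2 : prB (GLt.B x :: l) = x :: prB l := by simp [prB]
      have h3 : prD (GLt.B x :: l) = prD l := by simp [prD]
      rw [h1, h2, h3, List.length_cons]
      simp only [wt]; ring
    | D x =>
      have h1 : prA (GLt.D x :: l) = prA l := by simp [prA]
      have h2 : prB (GLt.D x :: l) = prB l := by simp [prB]
      have h3 : prD (GLt.D x :: l) = x :: prD l := by simp [prD]
      rw [h1, h2, h3, cnt_cons, cnt_cons, cnt_cons]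
      obtain ⟨c, b⟩ := x
      cases c <;> simp only [wt, reduceCtorEq, if_true, if_false] <;> ring

/-! ### One class -/

/-- sum of the dual weights -/
theorem dw_sum (L : List (Cls × Bool)) : (L.map dw).sum = 2 * dsum (L.map Prod.snd) := by
  unfold dsum
  induction L with
  | nil => simp
  | cons b L ih =>
    rw [List.map_cons, List.sum_cons, ih, List.map_cons, List.map_cons, List.sum_cons]
    unfold dw
    ring

/-- numbers of letters `b`, `a` -/
def nb (u : List Bool) : ℕ := u.countP (fun x => x = true)
/-- numbers of letters `a` -/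
def na (u : List Bool) : ℕ := u.countP (fun x => x = false)

theorem nb_cons (x : Bool) (u : List Bool) : nb (x :: u) = nb u + if x then 1 else 0 := by
  unfold nb; rw [List.countP_cons]; cases x <;> simp
theorem na_cons (x : Bool) (u : List Bool) : na (x :: u) = na u + if x then 0 else 1 := by
  unfold na; rw [List.countP_cons]; cases x <;> simp

theorem na_nb (u : List Bool) : na u + nb u = u.length := by
  induction u with
  | nil => rfl
  | cons x u ih => rw [na_cons, nb_cons, List.length_cons]; cases x <;> simp <;> omega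

theorem dsum_na_nb (u : List Bool) : dsum u = nb u - psi * na u := by
  induction u with
  | nil => simp [dsum, nb, na]
  | cons x u ih =>
    have : dsum (x :: u) = dl x + dsum u := by unfold dsum; simp
    rw [this, ih, na_cons, nb_cons]
    cases x <;> simp [dl] <;> ring

/-- the A-word of a block of class E, as letters -/
def sgA (u : List Bool) : List Bool := u.flatMap (fun x => if x then [false] else [true, false])

theorem sgA_length (u : List Bool) : (sgA u).length = 2 * na u + nb u := by
  induction u with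
  | nil => rfl
  | cons x u ih =>
    have : sgA (x :: u) = (if x then [false] else [true, false]) ++ sgA u := by
      unfold sgA; rw [List.flatMap_cons]
    rw [this, List.length_append, ih, na_cons, nb_cons]
    cases x <;> simp <;> omega

theorem flatA_E (u : List Bool) : (u.map (fun x => (Cls.E, x))).flatMap portA =
    (sgA u).map (fun x => (x, true)) := by
  induction u with
  | nil => rfl
  | cons x u ih =>
    have : sgA (x :: u) = (if x then [false] else [true, false]) ++ sgA u := by
      unfold sgA; rw [List.flatMap_cons]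
    rw [List.map_cons, List.flatMap_cons, ih, this, List.map_append]
    cases x <;> rfl

theorem flatB_E (u : List Bool) : (u.map (fun x => (Cls.E, x))).flatMap portB =
    u.map (fun x => (x, false)) := by
  induction u with
  | nil => rfl
  | cons x u ih => rw [List.map_cons, List.flatMap_cons, ih]; rfl

theorem flatA_O (u : List Bool) : (u.map (fun x => (Cls.O, x))).flatMap portA =
    u.map (fun x => (x, false)) := by
  induction u with
  | nil => rfl
  | cons x u ih => rw [List.map_cons, List.flatMap_cons, ih]; rfl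

theorem flatB_O (u : List Bool) : (u.map (fun x => (Cls.O, x))).flatMap portB =
    u.map (fun x => (x, true)) := by
  induction u with
  | nil => rfl
  | cons x u ih => rw [List.map_cons, List.flatMap_cons, ih]; rfl

theorem flatA_L (u : List Bool) : (u.map (fun x => (Cls.L, x))).flatMap portA =
    u.map (fun x => (x, false)) := by
  induction u with
  | nil => rfl
  | cons x u ih => rw [List.map_cons, List.flatMap_cons, ih]; rfl

theorem flatB_L (u : List Bool) : (u.map (fun x => (Cls.L, x))).flatMap portB = [] := by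
  induction u with
  | nil => rfl
  | cons x u ih => rw [List.map_cons, List.flatMap_cons, ih]; rfl

theorem psi_pos' : 0 < psi := by
  unfold psi
  have : (2 : ℝ) < Real.sqrt 5 := by
    rw [show (2 : ℝ) = Real.sqrt 4 by rw [show (4 : ℝ) = 2 ^ 2 by norm_num]; simp]
    exact Real.sqrt_lt_sqrt (by norm_num) (by norm_num)
  linarith

theorem psi_lt_one' : psi < 1 := by
  unfold psi
  have : Real.sqrt 5 < 3 := by
    rw [show (3 : ℝ) = Real.sqrt 9 by rw [show (9 : ℝ) = 3 ^ 2 by norm_num]; simp]
    exact Real.sqrt_lt_sqrt (by norm_num) (by norm_num)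
  linarith

/-- the comparison of two weights from natural number data -/
theorem wtg_le (K : ℕ) (l κ : List GLt) (a b e o n : ℕ)
    (hA : (prA κ).length + a ≤ (prA l).length) (hB : (prB κ).length + b ≤ (prB l).length)
    (hE : cnt .E (prD κ) + e ≤ cnt .E (prD l)) (hO : cnt .O (prD κ) + o ≤ cnt .O (prD l))
    (hL : cnt .L (prD κ) + n ≤ cnt .L (prD l)) :
    wtg K κ + (wM K * (a + b) + (wD K .E * e + wD K .O * o + wD K .L * n)) ≤ wtg K l := by
  rw [wtg_eq, wtg_eq]
  have h1 := Nat.mul_le_mul_left (wM K) hA
  have h2 := Nat.mul_le_mul_left (wM K) hB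
  have h3 := Nat.mul_le_mul_left (wD K .E) hE
  have h4 := Nat.mul_le_mul_left (wD K .O) hO
  have h5 := Nat.mul_le_mul_left (wD K .L) hL
  rw [Nat.mul_add] at h1 h2 h3 h4 h5
  rw [Nat.mul_add]
  omega

theorem core_class (K : ℕ) (hK : 1 ≤ K) (c : Cls) (u : List Bool) (κ : List GLt)
    (hs : κ.Sublist ((u.map (fun x => (c, x))).flatMap blk)) (ht : TrivG κ)
    (hL : 2 ≤ u.length) :
    (wtg K κ : ℝ) + wQ K + 2 * psi + ((u.map (fun x => (c, x))).map dw).sum ≤
      wtg K ((u.map (fun x => (c, x))).flatMap blk) := by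
  obtain ⟨hA, hB, hD⟩ := ht
  have sA := prA_sublist hs
  have sB := prB_sublist hs
  have sD := prD_sublist hs
  rw [prA_flat] at sA
  rw [prB_flat] at sB
  rw [prD_flat] at sD
  have hune : u ≠ [] := by rintro rfl; simp at hL
  have hlen := na_nb u
  have hp := psi_pos'
  have hp1 := psi_lt_one'
  have hsum : ((u.map (fun x => (c, x))).map dw).sum = 2 * (nb u - psi * na u) := by
    rw [dw_sum, ← dsum_na_nb, List.map_map]
    congr 2
    exact List.map_id u
  have hna : (0 : ℝ) ≤ psi * na u := mul_nonneg hp.le (Nat.cast_nonneg _)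
  have hcl := dword_class ((u.map (fun x => (c, x))).map Prod.fst) c (by
    cases u with
    | nil => exact absurd rfl hune
    | cons x u => simp) (prD κ) sD hD
  rw [← prD_flat] at hcl
  have hgen : ∀ c', cnt c' (prD κ) + (if c' = c then 2 else 0) ≤
      cnt c' (prD ((u.map (fun x => (c, x))).flatMap blk)) := by
    intro c'
    by_cases h : c' = c
    · subst h; rw [if_pos rfl]; exact hcl
    · rw [if_neg h]; exact cnt_sublist c' (prD_sublist hs)
  have hMK : wM K = 12 * K := rfl
  cases c with
  | E =>
    have h1 : (prA κ).length + (4 * (sgA u).length + 2) ≤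
        (prA ((u.map (fun x => (Cls.E, x))).flatMap blk)).length := by
      rw [prA_flat, enc_length, flatA_E, List.length_map]
      rw [flatA_E] at sA
      have := ports_pos (sgA u) true (by
        intro h
        have := sgA_length u
        rw [h] at this
        simp at this
        omega) (prA κ) sA hA
      omega
    have h2 : (prB κ).length + (4 * u.length + 2) ≤
        (prB ((u.map (fun x => (Cls.E, x))).flatMap blk)).length := by
      rw [prB_flat, enc_length, flatB_E, List.length_map]
      rw [flatB_E] at sB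
      have := ports_pos u false hune (prB κ) sB hB
      omega
    have h3 := wtg_le K _ κ _ _ 2 0 0 h1 h2 (hgen .E) (hgen .O) (hgen .L)
    rw [sgA_length] at h3
    have h4 : (wtg K κ : ℝ) + (wM K * ((4 * (2 * na u + nb u) + 2) + (4 * u.length + 2)) +
      (wD K .E * 2 + wD K .O * 0 + wD K .L * 0)) ≤
      wtg K ((u.map (fun x => (Cls.E, x))).flatMap blk) := by exact_mod_cast h3
    refine le_trans ?_ h4
    rw [hsum]
    have e1 : (u.length : ℝ) = na u + nb u := by exact_mod_cast hlen.symm
    have e2 : (wM K : ℝ) = 12 * K := by exact_mod_cast hMK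
    have e3 : (wD K .E : ℝ) = 18 * (12 * K) + 10 * K + 2 := by
      have : wD K .E = 18 * (12 * K) + 10 * K + 2 := rfl
      exact_mod_cast this
    have e4 : (wQ K : ℝ) = 54 * (12 * K) + 20 * K + 4 := by
      have : wQ K = 54 * (12 * K) + 20 * K + 4 := rfl
      exact_mod_cast this
    rw [e1, e2, e3, e4]
    have k1 : (1 : ℝ) ≤ K := by exact_mod_cast hK
    have l2 : (2 : ℝ) ≤ na u + nb u := by rw [← e1]; exact_mod_cast hL
    have n0 : (0 : ℝ) ≤ na u := Nat.cast_nonneg _
    have n1 : (0 : ℝ) ≤ nb u := Nat.cast_nonneg _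
    have m1 : (0 : ℝ) ≤ (K - 1) * ((na u : ℝ) + nb u - 2) :=
      mul_nonneg (by linarith) (by linarith)
    have m2 : (0 : ℝ) ≤ (K - 1) * (na u : ℝ) := mul_nonneg (by linarith) n0
    have m3 : (0 : ℝ) ≤ (K - 1) * (nb u : ℝ) := mul_nonneg (by linarith) n1
    nlinarith
  | O =>
    have h1 : (prA κ).length + (4 * u.length + 2) ≤
        (prA ((u.map (fun x => (Cls.O, x))).flatMap blk)).length := by
      rw [prA_flat, enc_length, flatA_O, List.length_map]
      rw [flatA_O] at sA
      have := ports_pos u false hune (prA κ) sA hA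
      omega
    have h2 : (prB κ).length + (4 * u.length + 2) ≤
        (prB ((u.map (fun x => (Cls.O, x))).flatMap blk)).length := by
      rw [prB_flat, enc_length, flatB_O, List.length_map]
      rw [flatB_O] at sB
      have := ports_pos u true hune (prB κ) sB hB
      omega
    have h3 := wtg_le K _ κ _ _ 0 2 0 h1 h2 (hgen .E) (hgen .O) (hgen .L)
    have h4 : (wtg K κ : ℝ) + (wM K * ((4 * u.length + 2) + (4 * u.length + 2)) +
      (wD K .E * 0 + wD K .O * 2 + wD K .L * 0)) ≤
      wtg K ((u.map (fun x => (Cls.O, x))).flatMap blk) := by exact_mod_cast h3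
    refine le_trans ?_ h4
    rw [hsum]
    have e1 : (u.length : ℝ) = na u + nb u := by exact_mod_cast hlen.symm
    have e2 : (wM K : ℝ) = 12 * K := by exact_mod_cast hMK
    have e3 : (wD K .O : ℝ) = 21 * (12 * K) + 10 * K + 2 := by
      have : wD K .O = 21 * (12 * K) + 10 * K + 2 := rfl
      exact_mod_cast this
    have e4 : (wQ K : ℝ) = 54 * (12 * K) + 20 * K + 4 := by
      have : wQ K = 54 * (12 * K) + 20 * K + 4 := rfl
      exact_mod_cast this
    rw [e1, e2, e3, e4]
    have k1 : (1 : ℝ) ≤ K := by exact_mod_cast hK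
    have l2 : (2 : ℝ) ≤ na u + nb u := by rw [← e1]; exact_mod_cast hL
    have n0 : (0 : ℝ) ≤ na u := Nat.cast_nonneg _
    have n1 : (0 : ℝ) ≤ nb u := Nat.cast_nonneg _
    have m1 : (0 : ℝ) ≤ (K - 1) * ((na u : ℝ) + nb u - 2) :=
      mul_nonneg (by linarith) (by linarith)
    have m2 : (0 : ℝ) ≤ (K - 1) * (na u : ℝ) := mul_nonneg (by linarith) n0
    have m3 : (0 : ℝ) ≤ (K - 1) * (nb u : ℝ) := mul_nonneg (by linarith) n1
    nlinarith
  | L =>
    have h1 : (prA κ).length + (4 * u.length + 2) ≤
        (prA ((u.map (fun x => (Cls.L, x))).flatMap blk)).length := by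
      rw [prA_flat, enc_length, flatA_L, List.length_map]
      rw [flatA_L] at sA
      have := ports_pos u false hune (prA κ) sA hA
      omega
    have h2 : (prB κ).length + 0 ≤
        (prB ((u.map (fun x => (Cls.L, x))).flatMap blk)).length := by
      rw [Nat.add_zero]
      exact (prB_sublist hs).length_le
    have h3 := wtg_le K _ κ _ _ 0 0 2 h1 h2 (hgen .E) (hgen .O) (hgen .L)
    have h4 : (wtg K κ : ℝ) + (wM K * ((4 * u.length + 2) + 0) +
      (wD K .E * 0 + wD K .O * 0 + wD K .L * 2)) ≤
      wtg K ((u.map (fun x => (Cls.L, x))).flatMap blk) := by exact_mod_cast h3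
    refine le_trans ?_ h4
    rw [hsum]
    have e1 : (u.length : ℝ) = na u + nb u := by exact_mod_cast hlen.symm
    have e2 : (wM K : ℝ) = 12 * K := by exact_mod_cast hMK
    have e3 : (wD K .L : ℝ) = 24 * (12 * K) + 10 * K + 2 := by
      have : wD K .L = 24 * (12 * K) + 10 * K + 2 := rfl
      exact_mod_cast this
    have e4 : (wQ K : ℝ) = 54 * (12 * K) + 20 * K + 4 := by
      have : wQ K = 54 * (12 * K) + 20 * K + 4 := rfl
      exact_mod_cast this
    rw [e1, e2, e3, e4]
    have k1 : (1 : ℝ) ≤ K := by exact_mod_cast hK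
    have l2 : (2 : ℝ) ≤ na u + nb u := by rw [← e1]; exact_mod_cast hL
    have n0 : (0 : ℝ) ≤ na u := Nat.cast_nonneg _
    have n1 : (0 : ℝ) ≤ nb u := Nat.cast_nonneg _
    have m1 : (0 : ℝ) ≤ (K - 1) * ((na u : ℝ) + nb u - 2) :=
      mul_nonneg (by linarith) (by linarith)
    have m2 : (0 : ℝ) ≤ (K - 1) * (na u : ℝ) := mul_nonneg (by linarith) n0
    have m3 : (0 : ℝ) ≤ (K - 1) * (nb u : ℝ) := mul_nonneg (by linarith) n1
    nlinarith

/-! ### At least two classes -/

theorem runs_pos_of_ne {L : List Cls} (h : L ≠ []) : 1 ≤ runs L := by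
  induction L with
  | nil => exact absurd rfl h
  | cons a l ih =>
    cases l with
    | nil => exact le_refl _
    | cons b l =>
      have := ih (by simp)
      unfold runs
      split_ifs <;> omega

theorem core_many (K : ℕ) (hK : DLK K) (L : List (Cls × Bool)) (κ : List GLt)
    (hs : κ.Sublist (L.flatMap blk)) (ht : TrivG κ) (c d : Cls) (hcd : c ≠ d)
    (hc : c ∈ L.map Prod.fst) (hd : d ∈ L.map Prod.fst) :
    (wtg K κ : ℝ) + wQ K + 2 * psi + (L.map dw).sum ≤ wtg K (L.flatMap blk) := by
  obtain ⟨hA, hB, hD⟩ := ht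
  obtain ⟨hK1, hDL⟩ := hK
  have sA := prA_sublist hs
  have sB := prB_sublist hs
  have sD := prD_sublist hs
  rw [prA_flat] at sA
  rw [prB_flat] at sB
  rw [prD_flat] at sD
  obtain ⟨κA, sκA, tκA, lκA⟩ := ports_del _ _ sA hA
  obtain ⟨κB, sκB, tκB, lκB⟩ := ports_del _ _ sB hB
  have hdl := hDL L κA κB sκA sκB tκA tκB
  have hc2 := dword_class _ c hc _ sD hD
  have hd2 := dword_class _ d hd _ sD hD
  have hr := dword_runs _ _ sD hD
  have hp1 := psi_lt_one'
  -- natural number bookkeeping
  obtain ⟨nA, hnA⟩ : ∃ n, n = (enc (L.flatMap portA)).length - (prA κ).length := ⟨_, rfl⟩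
  obtain ⟨nB, hnB⟩ : ∃ n, n = (enc (L.flatMap portB)).length - (prB κ).length := ⟨_, rfl⟩
  obtain ⟨nE, hnE⟩ : ∃ n, n = cnt .E (prD (L.flatMap blk)) - cnt .E (prD κ) := ⟨_, rfl⟩
  obtain ⟨nO, hnO⟩ : ∃ n, n = cnt .O (prD (L.flatMap blk)) - cnt .O (prD κ) := ⟨_, rfl⟩
  obtain ⟨nL, hnL⟩ : ∃ n, n = cnt .L (prD (L.flatMap blk)) - cnt .L (prD κ) := ⟨_, rfl⟩
  have bE := cnt_sublist .E (prD_sublist hs)
  have bO := cnt_sublist .O (prD_sublist hs)
  have bL := cnt_sublist .L (prD_sublist hs)
  have bA := sA.length_le
  have bB := sB.length_le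
  have s1 := cnt_sum (prD κ)
  have s2 := cnt_sum (prD (L.flatMap blk))
  obtain ⟨R, hR⟩ : ∃ n, n = runs (L.map Prod.fst) := ⟨_, rfl⟩
  rw [← hR] at hr hdl
  rw [← hnA] at lκA
  rw [← hnB] at lκB
  have hsumn : R ≤ nE + nO + nL := by
    rw [← prD_flat] at hr
    omega
  have hfour : 4 ≤ nE + nO + nL := by
    rw [← prD_flat] at hc2 hd2
    change cnt c _ + 2 ≤ cnt c _ at hc2
    change cnt d _ + 2 ≤ cnt d _ at hd2
    cases c <;> cases d <;> first | exact absurd rfl hcd | omega
  have h3 := wtg_le K (L.flatMap blk) κ nA nB nE nO nL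
    (by rw [prA_flat]; omega) (by rw [prB_flat]; omega) (by omega) (by omega) (by omega)
  have h5 : wtg K κ + (wM K * (nA + nB) + wD K .E * (nE + nO + nL)) ≤ wtg K (L.flatMap blk) := by
    refine le_trans ?_ h3
    have o1 : wD K .E ≤ wD K .O := by
      change 18 * wM K + 10 * K + 2 ≤ 21 * wM K + 10 * K + 2; omega
    have o2 : wD K .E ≤ wD K .L := by
      change 18 * wM K + 10 * K + 2 ≤ 24 * wM K + 10 * K + 2; omega
    have o3 := Nat.mul_le_mul_right nO o1
    have o4 := Nat.mul_le_mul_right nL o2
    rw [Nat.mul_add (wD K .E), Nat.mul_add (wD K .E)]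
    omega
  have h6 : (wtg K κ : ℝ) + (wM K * (nA + nB) + wD K .E * (nE + nO + nL)) ≤
      wtg K (L.flatMap blk) := by exact_mod_cast h5
  refine le_trans ?_ h6
  rw [dw_sum]
  have hdl2 : dsum (L.map Prod.snd) ≤ (K : ℝ) * (R + 3 * (nA + nB)) := by
    refine le_trans hdl ?_
    refine mul_le_mul_of_nonneg_left ?_ (Nat.cast_nonneg _)
    have : R + (((L.flatMap portA).length - κA.length) +
        ((L.flatMap portB).length - κB.length)) ≤ R + 3 * (nA + nB) := by omega
    exact_mod_cast this
  have k1 : (1 : ℝ) ≤ K := by exact_mod_cast hK1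
  have e2 : (wM K : ℝ) = 12 * K := by
    have : wM K = 12 * K := rfl
    exact_mod_cast this
  have e3 : (wD K .E : ℝ) = 18 * (12 * K) + 10 * K + 2 := by
    have : wD K .E = 18 * (12 * K) + 10 * K + 2 := rfl
    exact_mod_cast this
  have e4 : (wQ K : ℝ) = 54 * (12 * K) + 20 * K + 4 := by
    have : wQ K = 54 * (12 * K) + 20 * K + 4 := rfl
    exact_mod_cast this
  rw [e2, e3, e4]
  have f1 : (R : ℝ) ≤ nE + nO + nL := by exact_mod_cast hsumn
  have f2 : (4 : ℝ) ≤ nE + nO + nL := by exact_mod_cast hfour
  have f3 : (0 : ℝ) ≤ nA + nB := by positivity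
  obtain ⟨S, hS⟩ : ∃ S : ℝ, S = nE + nO + nL := ⟨_, rfl⟩
  obtain ⟨V, hV⟩ : ∃ V : ℝ, V = nA + nB := ⟨_, rfl⟩
  rw [← hS] at f1 f2 ⊢
  rw [← hV] at f3 hdl2 ⊢
  have g1 : (0 : ℝ) ≤ (K : ℝ) * V := mul_nonneg (by linarith) f3
  have g2 : (0 : ℝ) ≤ (K : ℝ) * (S - R) := mul_nonneg (by linarith) (by linarith)
  have g3 : (0 : ℝ) ≤ (K : ℝ) * (S - 4) := mul_nonneg (by linarith) (by linarith)
  nlinarith

end CoreAux

open CoreAux

theorem wtg_blk (K : ℕ) (c : Cls) (x : Bool) :
    wtg K (blk (c, x)) = if x then wP K c else wQ K := by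
  rw [wtg_eq, prA_blk, prB_blk, prD_blk, enc_length, enc_length, cnt_cons, cnt_cons, cnt_cons,
    cnt_cons, cnt_cons, cnt_cons, cnt_nil, cnt_nil, cnt_nil]
  cases c <;> cases x <;> simp [portA, portB, wP, wQ, wD] <;> ring

theorem core_one (b : Cls × Bool) (κ : List GLt) (hs : κ.Sublist (blk b)) (ht : TrivG κ) :
    κ = [] := by
  obtain ⟨hA, hB, hD⟩ := ht
  have h1 : prA κ = [] := by
    refine nodup_triv (ω := enc (portA b)) ?_ ?_ hA
    · apply enc_nodup
      obtain ⟨c, x⟩ := b
      cases c <;> cases x <;> simp [portA]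
    · rw [← prA_blk]; exact prA_sublist hs
  have h2 : prB κ = [] := by
    refine nodup_triv (ω := enc (portB b)) ?_ ?_ hB
    · apply enc_nodup
      obtain ⟨c, x⟩ := b
      cases c <;> cases x <;> simp [portB]
    · rw [← prB_blk]; exact prB_sublist hs
  have h3 : prD κ = [] := by
    refine nodup_triv (ω := [(b.1, false), (b.1, true)]) ?_ ?_ hD
    · simp
    · rw [← prD_blk]; exact prD_sublist hs
  cases κ with
  | nil => rfl
  | cons s l =>
    cases s with
    | A x => simp [prA] at h1
    | B x => simp [prB] at h2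
    | D x => simp [prD] at h3

theorem core (K : ℕ) (hK : DLK K) (L : List (Cls × Bool)) (κ : List GLt)
    (hs : κ.Sublist (L.flatMap blk)) (ht : TrivG κ) (hL : 2 ≤ L.length) :
    (wtg K κ : ℝ) + wQ K + 2 * psi + (L.map dw).sum ≤ wtg K (L.flatMap blk) := by
  cases L with
  | nil => simp at hL
  | cons b L =>
    by_cases h : ∀ x ∈ b :: L, x.1 = b.1
    · have hm : b :: L = ((b :: L).map Prod.snd).map (fun x => (b.1, x)) := by
        rw [List.map_map]
        conv_lhs => rw [← List.map_id (b :: L)]
        apply List.map_congr_left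
        intro x hx
        have := h x hx
        obtain ⟨x1, x2⟩ := x
        simp only at this
        simp [this]
      rw [hm] at hs ⊢
      exact core_class K hK.1 b.1 _ κ hs ht (by rw [List.length_map]; exact hL)
    · push Not at h
      obtain ⟨x, hx, hne⟩ := h
      exact core_many K hK (b :: L) κ hs ht x.1 b.1 hne (List.mem_map_of_mem hx)
        (List.mem_map_of_mem (by simp))

end Pool.Agent.Lib.MP_60edde_al.Neg
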