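import Mathlib
import Pool.Agent.Lib.MP_60edde_al.Neg.Defs
import Pool.Agent.Lib.MP_60edde_al.Dyer

/-!
MP_60edde_al, negative answer, piece P9: the right-angled Coxeter group with commuting copies of
the letters, and the averaging argument.
-/

namespace Pool.Agent.Lib.MP_60edde_al.Neg

/-- index set of the generators: `wt K s` commuting copies of every letter `s` -/
abbrev Idx (K : ℕ) : Type := Σ s : Lt, Fin (wt K s)

theorem comm_symm (s t : Lt) : comm s t = comm t s := by
  rcases s with s | s <;> rcases t with t | t <;> simp [comm, eq_comm]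

/-- the right-angled Coxeter matrix -/
def cmat (K : ℕ) : CoxeterMatrix (Idx K) where
  M := Matrix.of fun x y => if x = y then 1 else if x.1 = y.1 ∨ comm x.1 y.1 = true then 2 else 0
  isSymm := by
    ext x y
    simp only [Matrix.transpose_apply, Matrix.of_apply]
    rw [comm_symm y.1 x.1]
    simp only [eq_comm]
  diagonal := by
    intro x
    simp
  off_diagonal := by
    intro x y h
    simp only [Matrix.of_apply, if_neg h]
    split_ifs <;> decide

/-- the word of all copies of the letters of a word -/
def big (K : ℕ) (l : List Lt) : List (Idx K) :=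
  l.flatMap (fun s => (List.finRange (wt K s)).map (fun i => (⟨s, i⟩ : Idx K)))

theorem big_nil (K : ℕ) : big K [] = [] := rfl

theorem big_cons (K : ℕ) (s : Lt) (l : List Lt) :
    big K (s :: l) = (List.finRange (wt K s)).map (fun i => (⟨s, i⟩ : Idx K)) ++ big K l := rfl

theorem big_append (K : ℕ) (l l' : List Lt) : big K (l ++ l') = big K l ++ big K l' := by
  unfold big
  exact List.flatMap_append

theorem length_big (K : ℕ) (l : List Lt) : (big K l).length = wtl K l := by
  induction l with
  | nil => rfl
  | cons s l ih =>
    rw [big_cons, List.length_append, ih]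
    simp [wtl]

theorem perN_succ (n : ℕ) : perN (n + 1) = per ++ perN n := by
  unfold perN
  rw [List.replicate_succ, List.flatten_cons]

theorem wordProd_big_pow (K n : ℕ) :
    (cmat K).toCoxeterSystem.wordProd (big K per) ^ n =
      (cmat K).toCoxeterSystem.wordProd (big K (perN n)) := by
  induction n with
  | zero => simp [perN, big]
  | succ n ih =>
    rw [pow_succ', ih, perN_succ, big_append, CoxeterSystem.wordProd_append]

theorem wt_pos {K : ℕ} (hK : 1 ≤ K) (s : Lt) : 0 < wt K s := by
  rcases s with (x | x | x) | x
  · simp only [wt, wM]; omega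
  · simp only [wt, wM]; omega
  · rcases x with ⟨c, e⟩
    cases c <;> simp only [wt, wD, wM] <;> omega
  · cases x with
    | tE => simp only [wt, wQ, wM]; omega
    | tO => simp only [wt, wQ, wM]; omega
    | bt c => cases c <;> simp only [wt, wP, wQ, wM] <;> omega

/-- the letters with copy index `t` modulo the weight -/
def sel (K t : ℕ) (x : Idx K) : Bool := decide (x.2.val = t % wt K x.1)

/-- the word selected by `t` -/
def slice (K t : ℕ) (l : List (Idx K)) : List Lt := (l.filter (sel K t)).map Sigma.fst

theorem slice_append (K t : ℕ) (l l' : List (Idx K)) :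
    slice K t (l ++ l') = slice K t l ++ slice K t l' := by
  simp [slice]

theorem slice_sublist {K t : ℕ} {l l' : List (Idx K)} (h : l.Sublist l') :
    (slice K t l).Sublist (slice K t l') := (h.filter _).map _

theorem slice_copies {K : ℕ} (hK : 1 ≤ K) (t : ℕ) (s : Lt) :
    slice K t ((List.finRange (wt K s)).map (fun i => (⟨s, i⟩ : Idx K))) = [s] := by
  have hw := wt_pos hK s
  have hr : t % wt K s < wt K s := Nat.mod_lt _ hw
  unfold slice
  rw [List.filter_map, List.map_map]
  have h1 : (List.finRange (wt K s)).filter (sel K t ∘ fun i => (⟨s, i⟩ : Idx K)) =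
      [⟨t % wt K s, hr⟩] := by
    have h2 : (List.finRange (wt K s)).filter (sel K t ∘ fun i => (⟨s, i⟩ : Idx K)) =
        (List.finRange (wt K s)).filter (fun i => i == (⟨t % wt K s, hr⟩ : Fin (wt K s))) := by
      apply List.filter_congr
      intro i _
      simp only [Function.comp, sel]
      rw [Bool.eq_iff_iff]
      simp [Fin.ext_iff]
    rw [h2, List.filter_beq, List.count_eq_one_of_mem (List.nodup_finRange _) (List.mem_finRange _)]
    rfl
  rw [h1]
  rfl

theorem slice_big {K : ℕ} (hK : 1 ≤ K) (t : ℕ) (l : List Lt) : slice K t (big K l) = l := by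
  induction l with
  | nil => rfl
  | cons s l ih => rw [big_cons, slice_append, ih, slice_copies hK]; rfl

/-- assignment of the generators defined by `t` -/
def asg {G : Type} [Group G] (K t : ℕ) (f : Lt → G) (x : Idx K) : G :=
  if sel K t x then f x.1 else 1

theorem asg_liftable {G : Type} [Group G] (K t : ℕ) (f : Lt → G) (hf : ∀ s, f s * f s = 1)
    (hc : ∀ s u, comm s u = true → f s * f u = f u * f s) :
    (cmat K).IsLiftable (asg K t f) := by
  intro x y
  have hM : (cmat K) x y =
    if x = y then 1 else if x.1 = y.1 ∨ comm x.1 y.1 = true then 2 else 0 := rfl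
  rw [hM]
  by_cases hxy : x = y
  · subst hxy
    rw [if_pos rfl, pow_one]
    unfold asg
    split_ifs
    · exact hf _
    · exact mul_one 1
  · rw [if_neg hxy]
    split_ifs with h
    · rw [pow_two]
      unfold asg
      by_cases hx : sel K t x = true
      · by_cases hy : sel K t y = true
        · rw [if_pos hx, if_pos hy]
          rcases h with h | h
          · exfalso
            apply hxy
            obtain ⟨s, i⟩ := x
            obtain ⟨u, j⟩ := y
            simp only at h
            subst h
            simp only [sel, decide_eq_true_eq] at hx hy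
            congr 1
            exact Fin.ext (hx.trans hy.symm)
          · have e := hc _ _ h
            calc f x.1 * f y.1 * (f x.1 * f y.1) = f x.1 * f y.1 * (f y.1 * f x.1) := by rw [e]
              _ = f x.1 * (f y.1 * f y.1) * f x.1 := by simp only [mul_assoc]
              _ = 1 := by rw [hf, mul_one, hf]
        · rw [if_pos hx, if_neg hy, mul_one, hf]
      · by_cases hy : sel K t y = true
        · rw [if_neg hx, if_pos hy, one_mul, hf]
        · rw [if_neg hx, if_neg hy]; simp
    · exact pow_zero _

theorem prod_slice {G : Type} [Group G] (K t : ℕ) (f : Lt → G) (l : List (Idx K)) :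
    ((slice K t l).map f).prod = (l.map (asg K t f)).prod := by
  induction l with
  | nil => rfl
  | cons x l ih =>
    have e : x :: l = [x] ++ l := rfl
    rw [e, slice_append, List.map_append, List.prod_append, ih, List.map_append, List.prod_append]
    congr 1
    unfold slice asg
    by_cases hx : sel K t x = true
    · simp [hx]
    · simp [hx]

/-- the conclusion is `TrivW (slice K t κ)` (`TrivW` is defined in `Machine.lean`) -/
theorem trivW_slice (K t : ℕ) (κ : List (Idx K))
    (h : (cmat K).toCoxeterSystem.wordProd κ = 1) : ∀ (G : Type) [Group G] (f : Lt → G),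
      (∀ s, f s * f s = 1) → (∀ s t, comm s t = true → f s * f t = f t * f s) →
      ((slice K t κ).map f).prod = 1 := by
  intro G _ f hf hc
  rw [prod_slice]
  have h1 := congrArg ((cmat K).toCoxeterSystem.lift ⟨asg K t f, asg_liftable K t f hf hc⟩) h
  rw [map_one] at h1
  rw [CoxeterSystem.wordProd, map_list_prod, List.map_map] at h1
  rw [← h1]
  congr 1
  apply List.map_congr_left
  intro x _
  simp only [Function.comp]
  exact ((cmat K).toCoxeterSystem.lift_apply_simple (asg_liftable K t f hf hc) x).symm

noncomputable instance instFintypeLt : Fintype Lt := Fintype.ofFinite Lt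

/-- a common multiple of the weights -/
noncomputable def N0 (K : ℕ) : ℕ := ∏ s : Lt, wt K s

theorem N0_pos {K : ℕ} (hK : 1 ≤ K) : 0 < N0 K := by
  unfold N0
  exact Finset.prod_pos fun s _ => wt_pos hK s

theorem dvd_N0 (K : ℕ) (s : Lt) : wt K s ∣ N0 K := by
  unfold N0
  exact Finset.dvd_prod_of_mem _ (Finset.mem_univ s)

theorem count_sel {K : ℕ} (hK : 1 ≤ K) (x : Idx K) :
    ∑ t ∈ Finset.range (N0 K), (if sel K t x = true then wt K x.1 else 0) = N0 K := by
  have hw := wt_pos hK x.1
  rw [← Finset.sum_filter, Finset.sum_const, smul_eq_mul]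
  have h1 : (Finset.range (N0 K)).filter (fun t => sel K t x = true) =
      (Finset.range (N0 K)).filter (fun t => t ≡ x.2.val [MOD wt K x.1]) := by
    apply Finset.filter_congr
    intro t _
    simp only [sel, decide_eq_true_eq, Nat.ModEq]
    rw [Nat.mod_eq_of_lt x.2.isLt, eq_comm]
  rw [h1, ← Nat.count_eq_card_filter_range, Nat.count_modEq_card _ hw,
    Nat.mod_eq_zero_of_dvd (dvd_N0 K x.1), if_neg (Nat.not_lt_zero _), add_zero]
  exact Nat.div_mul_cancel (dvd_N0 K x.1)

theorem sum_slice {K : ℕ} (hK : 1 ≤ K) (l : List (Idx K)) :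
    ∑ t ∈ Finset.range (N0 K), wtl K (slice K t l) = N0 K * l.length := by
  induction l with
  | nil => simp [slice, wtl]
  | cons x l ih =>
    have e : ∀ t, wtl K (slice K t (x :: l)) =
        (if sel K t x = true then wt K x.1 else 0) + wtl K (slice K t l) := by
      intro t
      unfold slice wtl
      by_cases hx : sel K t x = true
      · simp [hx]
      · simp [hx]
    simp_rw [e]
    rw [Finset.sum_add_distrib, ih, count_sel hK, List.length_cons]
    ring

/-- The averaging argument, with the bound for the base group as a hypothesis. -/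
theorem cox_lower_of (K : ℕ) (hK1 : 1 ≤ K) (sl : ℝ) (n k : ℕ)
    (base : ∀ κ : List Lt, κ.Sublist (perN n) →
      (∀ (G : Type) [Group G] (f : Lt → G), (∀ s, f s * f s = 1) →
        (∀ s t, comm s t = true → f s * f t = f t * f s) → (κ.map f).prod = 1) →
      (wtl K κ : ℝ) + n * sl ≤ wtl K (perN n))
    (h : IsRefProd (cmat K).toCoxeterSystem k
      ((cmat K).toCoxeterSystem.wordProd (big K per) ^ n)) : n * sl ≤ (k : ℝ) := by
  rw [wordProd_big_pow] at h
  obtain ⟨κ, hs, hκ, hlen⟩ := dyer _ k _ h
  have h1 : ∀ t ∈ Finset.range (N0 K), (wtl K (slice K t κ) : ℝ) + n * sl ≤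
      wtl K (perN n) := by
    intro t _
    refine base _ ?_ (trivW_slice K t κ hκ)
    have := slice_sublist (t := t) hs
    rwa [slice_big hK1] at this
  have h2 := Finset.sum_le_sum h1
  rw [Finset.sum_add_distrib, Finset.sum_const, Finset.sum_const, Finset.card_range, nsmul_eq_mul,
    nsmul_eq_mul, ← Nat.cast_sum, sum_slice hK1] at h2
  rw [length_big] at hlen
  have h3 : (wtl K (perN n) : ℝ) ≤ κ.length + k := by exact_mod_cast hlen
  have hN : (0 : ℝ) < N0 K := by exact_mod_cast N0_pos hK1
  push_cast at h2
  have h4 : (N0 K : ℝ) * (n * sl) ≤ N0 K * k := by nlinarith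
  exact le_of_mul_le_mul_left h4 hN

end Pool.Agent.Lib.MP_60edde_al.Neg
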