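import Pool.Agent.Lib.MP_60edde_al.Neg.Defs

/-!
MP_60edde_al, negative answer, piece P6a: the functions `P = PN 1` and `N = PN (-1)`.
-/

namespace Pool.Agent.Lib.MP_60edde_al.Neg

/-- `Fam e s v`: `v` is the value of a family of disjoint contiguous subwords of `s` -/
inductive Fam (e : ℝ) : List Bool → ℝ → Prop
  | nil : Fam e [] 0
  | skip (x : Bool) {s : List Bool} {v : ℝ} : Fam e s v → Fam e (x :: s) v
  | take (t : List Bool) {s : List Bool} {v : ℝ} : Fam e s v →
      Fam e (t ++ s) (v + (e * dsum t - 3))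
/-- `PN 1 = P`, `PN (-1) = N` -/
noncomputable def PN (e : ℝ) (s : List Bool) : ℝ := sSup {v | Fam e s v}
/-- the substitution a -> ba, b -> a -/
def sig (s : List Bool) : List Bool := s.flatMap (fun x => if x then [false] else [true, false])

theorem dsum_append (s t : List Bool) : dsum (s ++ t) = dsum s + dsum t := by
  unfold dsum
  rw [List.map_append, List.sum_append]

theorem dsum_nil : dsum [] = 0 := by simp [dsum]

theorem dsum_cons (x : Bool) (s : List Bool) : dsum (x :: s) = dl x + dsum s := by
  simp [dsum]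

theorem psi_sq : psi ^ 2 = 1 - psi := by
  unfold psi
  have h : Real.sqrt 5 ^ 2 = 5 := Real.sq_sqrt (by norm_num)
  nlinarith

theorem psi_pos : 0 < psi := by
  unfold psi
  have h : (1 : ℝ) < Real.sqrt 5 := by
    rw [Real.lt_sqrt (by norm_num)]
    norm_num
  linarith

theorem psi_lt_one : psi < 1 := by
  have h1 := psi_sq
  have h2 := psi_pos
  nlinarith

theorem psi_le : psi ≤ 2 / 3 := by
  have h1 := psi_sq
  have h2 := psi_pos
  by_contra h3
  push Not at h3
  nlinarith

theorem sig_nil : sig [] = [] := rfl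

theorem sig_cons_true (s : List Bool) : sig (true :: s) = false :: sig s := by
  simp [sig]

theorem sig_cons_false (s : List Bool) : sig (false :: s) = true :: false :: sig s := by
  simp [sig]

theorem sig_append (s t : List Bool) : sig (s ++ t) = sig s ++ sig t := by
  simp [sig]

theorem dsum_sig (s : List Bool) : dsum (sig s) = -psi * dsum s := by
  induction s with
  | nil => simp [sig_nil, dsum_nil]
  | cons x s ih =>
    cases x
    · rw [sig_cons_false, dsum_cons, dsum_cons, dsum_cons, ih]
      have h := psi_sq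
      simp only [dl, if_true, Bool.false_eq_true, if_false]
      nlinarith
    · rw [sig_cons_true, dsum_cons, dsum_cons, ih]
      simp only [dl, if_true, Bool.false_eq_true, if_false]
      ring

theorem abs_dsum (s : List Bool) : |dsum s| ≤ s.length := by
  induction s with
  | nil => simp [dsum_nil]
  | cons x s ih =>
    rw [dsum_cons, List.length_cons]
    have h : |dl x| ≤ 1 := by
      have h1 := psi_pos
      have h2 := psi_lt_one
      cases x
      · simp only [dl, Bool.false_eq_true, if_false, abs_neg]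
        rw [abs_of_pos h1]; exact h2.le
      · simp [dl]
    have h2 := abs_add_le (dl x) (dsum s)
    push_cast
    linarith

theorem fam_zero (e : ℝ) (s : List Bool) : Fam e s 0 := by
  induction s with
  | nil => exact Fam.nil
  | cons x s ih => exact Fam.skip x ih

theorem fam_bound {e : ℝ} (he : |e| ≤ 1) {s : List Bool} {v : ℝ} (h : Fam e s v) :
    v ≤ s.length := by
  induction h with
  | nil => simp
  | skip x _ ih => rw [List.length_cons]; push_cast; linarith
  | take t _ ih =>
    rw [List.length_append]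
    have h1 := abs_dsum t
    have h2 : e * dsum t ≤ |e| * |dsum t| := by rw [← abs_mul]; exact le_abs_self _
    have h3 : |e| * |dsum t| ≤ 1 * t.length :=
      mul_le_mul he h1 (abs_nonneg _) (by norm_num)
    push_cast
    linarith

theorem fam_bdd {e : ℝ} (he : |e| ≤ 1) (s : List Bool) : BddAbove {v | Fam e s v} :=
  ⟨s.length, fun _ hv => fam_bound he hv⟩

theorem fam_nonempty (e : ℝ) (s : List Bool) : {v | Fam e s v}.Nonempty := ⟨0, fam_zero e s⟩

theorem le_PN {e : ℝ} (he : |e| ≤ 1) {s : List Bool} {v : ℝ} (h : Fam e s v) : v ≤ PN e s :=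
  le_csSup (fam_bdd he s) h

theorem PN_le {e : ℝ} {s : List Bool} {b : ℝ} (h : ∀ v, Fam e s v → v ≤ b) : PN e s ≤ b :=
  csSup_le (fam_nonempty e s) h

theorem fam_nil {e : ℝ} {s : List Bool} {v : ℝ} (h : Fam e s v) : s = [] → v ≤ 0 := by
  induction h with
  | nil => intro _; exact le_rfl
  | skip x _ _ => intro h; exact absurd h (by simp)
  | take t _ ih =>
    intro h
    rw [List.append_eq_nil_iff] at h
    rw [h.1, dsum_nil]
    have := ih h.2
    linarith

theorem PN_nil (e : ℝ) : PN e [] = 0 := by
  apply le_antisymm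
  · exact PN_le fun v hv => fam_nil hv rfl
  · exact le_csSup ⟨0, fun _ hv => fam_nil hv rfl⟩ (fam_zero e [])

theorem PN_nonneg {e : ℝ} (he : |e| ≤ 1) (s : List Bool) : 0 ≤ PN e s :=
  le_PN he (fam_zero e s)

theorem fam_append {e : ℝ} {s : List Bool} {v : ℝ} (h : Fam e s v) {t : List Bool} {v' : ℝ}
    (h' : Fam e t v') : Fam e (s ++ t) (v + v') := by
  induction h with
  | nil => rw [zero_add]; exact h'
  | skip x _ ih => exact Fam.skip x ih
  | @take t₀ s₀ v₀ _ ih =>
    rw [List.append_assoc, show v₀ + (e * dsum t₀ - 3) + v' = (v₀ + v') + (e * dsum t₀ - 3) by ring]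
    exact Fam.take t₀ ih

theorem fam_single (e : ℝ) (s : List Bool) : Fam e s (e * dsum s - 3) := by
  have h := Fam.take s (Fam.nil (e := e))
  rwa [List.append_nil, zero_add] at h

theorem PN_super {e : ℝ} (he : |e| ≤ 1) (s t : List Bool) :
    PN e s + PN e t ≤ PN e (s ++ t) := by
  have h1 : PN e s ≤ PN e (s ++ t) - PN e t := by
    apply PN_le
    intro v hv
    have h2 : PN e t ≤ PN e (s ++ t) - v := by
      apply PN_le
      intro v' hv'
      have h3 := le_PN he (fam_append hv hv')
      linarith
    linarith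
  linarith

theorem fam_split {e : ℝ} {w : List Bool} {v : ℝ} (h : Fam e w v) : ∀ s t, w = s ++ t →
    ∃ v₁ v₂, Fam e s v₁ ∧ Fam e t v₂ ∧ v ≤ v₁ + v₂ + 3 := by
  induction h with
  | nil =>
    intro s t h
    have h' := h.symm
    rw [List.append_eq_nil_iff] at h'
    rw [h'.1, h'.2]
    exact ⟨0, 0, Fam.nil, Fam.nil, by norm_num⟩
  | @skip x w v hw ih =>
    intro s t h
    cases s with
    | nil =>
      rw [List.nil_append] at h
      subst h
      exact ⟨0, v, Fam.nil, Fam.skip x hw, by linarith⟩
    | cons y s =>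
      rw [List.cons_append, List.cons.injEq] at h
      obtain ⟨v₁, v₂, h1, h2, h3⟩ := ih s t h.2
      exact ⟨v₁, v₂, Fam.skip y h1, h2, h3⟩
  | @take t₀ w v hw ih =>
    intro s t h
    rcases List.append_eq_append_iff.mp h with ⟨a, h1, h2⟩ | ⟨a, h1, h2⟩
    · obtain ⟨v₁, v₂, g1, g2, g3⟩ := ih a t h2
      refine ⟨v₁ + (e * dsum t₀ - 3), v₂, ?_, g2, by linarith⟩
      rw [h1]
      exact Fam.take t₀ g1
    · refine ⟨e * dsum s - 3, v + (e * dsum a - 3), fam_single e s, ?_, ?_⟩
      · rw [h2]
        exact Fam.take a hw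
      · rw [h1, dsum_append]
        apply le_of_eq
        ring

theorem PN_sub {e : ℝ} (he : |e| ≤ 1) (s t : List Bool) :
    PN e (s ++ t) ≤ PN e s + PN e t + 3 := by
  apply PN_le
  intro v hv
  obtain ⟨v₁, v₂, h1, h2, h3⟩ := fam_split hv s t rfl
  have h4 := le_PN he h1
  have h5 := le_PN he h2
  linarith

theorem PN_ge {e : ℝ} (he : |e| ≤ 1) (s : List Bool) : e * dsum s ≤ PN e s + 3 := by
  have h := le_PN he (fam_single e s)
  linarith

theorem dsum_reverse (s : List Bool) : dsum s.reverse = dsum s := by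
  unfold dsum
  rw [List.map_reverse, List.sum_reverse]

theorem fam_reverse {e : ℝ} {s : List Bool} {v : ℝ} (h : Fam e s v) : Fam e s.reverse v := by
  induction h with
  | nil => exact Fam.nil
  | @skip x s v _ ih =>
    rw [List.reverse_cons]
    have h1 := fam_append ih (Fam.skip x Fam.nil)
    rwa [add_zero] at h1
  | @take t s v _ ih =>
    rw [List.reverse_append]
    have h1 := fam_append ih (fam_single e t.reverse)
    rwa [dsum_reverse] at h1

theorem PN_rev {e : ℝ} (he : |e| ≤ 1) (s : List Bool) : PN e s.reverse = PN e s := by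
  apply le_antisymm
  · apply PN_le
    intro v hv
    have h := fam_reverse hv
    rw [List.reverse_reverse] at h
    exact le_PN he h
  · apply PN_le
    intro v hv
    exact le_PN he (fam_reverse hv)

theorem sig_split (s : List Bool) : ∀ t w : List Bool, sig s = t ++ w →
    (∃ s₁ s₂, s = s₁ ++ s₂ ∧ t = sig s₁ ∧ w = sig s₂) ∨
      (∃ s₁ s₂, s = s₁ ++ false :: s₂ ∧ t = sig s₁ ++ [true] ∧ w = false :: sig s₂) := by
  induction s with
  | nil =>
    intro t w h
    rw [sig_nil] at h
    have h' := h.symm
    rw [List.append_eq_nil_iff] at h'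
    exact Or.inl ⟨[], [], rfl, by rw [h'.1]; rfl, by rw [h'.2]; rfl⟩
  | cons x s ih =>
    intro t w h
    cases x
    · rw [sig_cons_false] at h
      match t with
      | [] =>
        rw [List.nil_append] at h
        exact Or.inl ⟨[], false :: s, rfl, rfl, by rw [sig_cons_false, h]⟩
      | [y] =>
        rw [List.cons_append, List.nil_append, List.cons.injEq] at h
        exact Or.inr ⟨[], s, rfl, by rw [← h.1]; rfl, h.2.symm⟩
      | y :: z :: t =>
        rw [List.cons_append, List.cons_append, List.cons.injEq, List.cons.injEq] at h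
        obtain ⟨h1, h2, h3⟩ := h
        rcases ih t w h3 with ⟨s₁, s₂, g1, g2, g3⟩ | ⟨s₁, s₂, g1, g2, g3⟩
        · refine Or.inl ⟨false :: s₁, s₂, by rw [g1]; rfl, ?_, g3⟩
          rw [sig_cons_false, ← g2, ← h1, ← h2]
        · refine Or.inr ⟨false :: s₁, s₂, by rw [g1]; rfl, ?_, g3⟩
          rw [sig_cons_false, ← h1, ← h2, g2]
          rfl
    · rw [sig_cons_true] at h
      match t with
      | [] =>
        rw [List.nil_append] at h
        exact Or.inl ⟨[], true :: s, rfl, rfl, by rw [sig_cons_true, h]⟩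
      | y :: t =>
        rw [List.cons_append, List.cons.injEq] at h
        obtain ⟨h1, h3⟩ := h
        rcases ih t w h3 with ⟨s₁, s₂, g1, g2, g3⟩ | ⟨s₁, s₂, g1, g2, g3⟩
        · refine Or.inl ⟨true :: s₁, s₂, by rw [g1]; rfl, ?_, g3⟩
          rw [sig_cons_true, ← g2, ← h1]
        · refine Or.inr ⟨true :: s₁, s₂, by rw [g1]; rfl, ?_, g3⟩
          rw [sig_cons_true, ← h1, g2]
          rfl

theorem fam_sig {e : ℝ} (he : |e| ≤ 1) {w : List Bool} {v : ℝ} (h : Fam e w v) :
    (∀ s, w = sig s → ∃ v', Fam (-e) s v' ∧ v ≤ psi * v') ∧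
      (∀ s, w = false :: sig s → ∃ v', Fam (-e) s v' ∧ v ≤ psi * v') := by
  have hp0 := psi_pos
  have hp1 := psi_le
  obtain ⟨he1, he2⟩ := abs_le.mp he
  induction h with
  | nil =>
    constructor
    · intro s _
      exact ⟨0, fam_zero _ s, by simp⟩
    · intro s h
      exact absurd h (by simp)
  | @skip x w v _ ih =>
    constructor
    · intro s h
      cases s with
      | nil => rw [sig_nil] at h; exact absurd h (by simp)
      | cons y s =>
        cases y
        · rw [sig_cons_false, List.cons.injEq] at h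
          obtain ⟨v', h1, h2⟩ := ih.2 s h.2
          exact ⟨v', Fam.skip _ h1, h2⟩
        · rw [sig_cons_true, List.cons.injEq] at h
          obtain ⟨v', h1, h2⟩ := ih.1 s h.2
          exact ⟨v', Fam.skip _ h1, h2⟩
    · intro s h
      rw [List.cons.injEq] at h
      exact ih.1 s h.2
  | @take t w v _ ih =>
    constructor
    · intro s h
      rcases sig_split s t w h.symm with ⟨s₁, s₂, g1, g2, g3⟩ | ⟨s₁, s₂, g1, g2, g3⟩
      · obtain ⟨v', h1, h2⟩ := ih.1 s₂ g3
        refine ⟨v' + (-e * dsum s₁ - 3), by rw [g1]; exact Fam.take s₁ h1, ?_⟩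
        rw [g2, dsum_sig]
        nlinarith
      · obtain ⟨v', h1, h2⟩ := ih.2 s₂ g3
        refine ⟨v' + (-e * dsum s₁ - 3), by rw [g1]; exact Fam.take s₁ (Fam.skip _ h1), ?_⟩
        rw [g2, dsum_append, dsum_sig, dsum_cons, dsum_nil]
        simp only [dl, if_true]
        nlinarith
    · intro s h
      match t with
      | [] =>
        rw [List.nil_append] at h
        obtain ⟨v', h1, h2⟩ := ih.2 s h
        refine ⟨v', h1, ?_⟩
        rw [dsum_nil]
        linarith
      | y :: t =>
        rw [List.cons_append, List.cons.injEq] at h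
        obtain ⟨hy, h⟩ := h
        subst hy
        rcases sig_split s t w h.symm with ⟨s₁, s₂, g1, g2, g3⟩ | ⟨s₁, s₂, g1, g2, g3⟩
        · obtain ⟨v', h1, h2⟩ := ih.1 s₂ g3
          refine ⟨v' + (-e * dsum s₁ - 3), by rw [g1]; exact Fam.take s₁ h1, ?_⟩
          rw [g2, dsum_cons, dsum_sig]
          simp only [dl, Bool.false_eq_true, if_false]
          nlinarith
        · obtain ⟨v', h1, h2⟩ := ih.2 s₂ g3
          refine ⟨v' + (-e * dsum s₁ - 3), by rw [g1]; exact Fam.take s₁ (Fam.skip _ h1), ?_⟩
          rw [g2, dsum_cons, dsum_append, dsum_sig, dsum_cons, dsum_nil]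
          simp only [dl, if_true, Bool.false_eq_true, if_false]
          nlinarith

theorem PN_sig_pos (s : List Bool) : PN 1 (sig s) ≤ psi * PN (-1) s := by
  apply PN_le
  intro v hv
  obtain ⟨v', h1, h2⟩ := (fam_sig (by norm_num) hv).1 s rfl
  refine le_trans h2 (mul_le_mul_of_nonneg_left (le_PN (by norm_num) h1) psi_pos.le)

theorem PN_sig_neg (s : List Bool) : PN (-1) (sig s) ≤ psi * PN 1 s := by
  apply PN_le
  intro v hv
  obtain ⟨v', h1, h2⟩ := (fam_sig (by norm_num) hv).1 s rfl
  rw [neg_neg] at h1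
  refine le_trans h2 (mul_le_mul_of_nonneg_left (le_PN (by norm_num) h1) psi_pos.le)

end Pool.Agent.Lib.MP_60edde_al.Neg
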