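import Mathlib
import Pool.Agent.Lib.MP_60edde_al.Neg.PN

/-!
MP_60edde_al, negative answer, piece P6b: existence of the potential on `F₂ × F₂`.
-/

namespace Pool.Agent.Lib.MP_60edde_al.Neg

/-- positive word as a group element -/
def pos (u : List Bool) : FreeGroup Bool := FreeGroup.mk (u.map (fun x => (x, true)))
/-- letterwise inverted word as a group element -/
def neg (u : List Bool) : FreeGroup Bool := FreeGroup.mk (u.map (fun x => (x, false)))

namespace Pot

/-- word of constant sign -/
def cw (e : Bool) (s : List Bool) : List (Bool × Bool) := s.map (fun x => (x, e))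

theorem cw_append (e : Bool) (s t : List Bool) : cw e (s ++ t) = cw e s ++ cw e t := by
  simp [cw]

theorem cw_nil (e : Bool) : cw e [] = [] := rfl

theorem cw_cons (e x : Bool) (s : List Bool) : cw e (x :: s) = (x, e) :: cw e s := rfl

section Acc

variable (val : Bool → List Bool → ℝ)

/-- value of the word `cw e s ++ w`, where the sum is over maximal blocks of constant sign -/
noncomputable def acc : Bool → List Bool → List (Bool × Bool) → ℝ
  | e, s, [] => val e s
  | e, s, (x, e') :: w => if e' = e then acc e (s ++ [x]) w else val e s + acc e' [x] w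

theorem acc_cw (e : Bool) (w : List (Bool × Bool)) :
    ∀ (s r : List Bool), acc val e r (cw e s ++ w) = acc val e (r ++ s) w := by
  intro s
  induction s with
  | nil => intro r; simp [cw]
  | cons x s ih =>
    intro r
    rw [cw_cons, List.cons_append, acc, if_pos rfl, ih]
    simp

theorem acc_le (e : Bool) (s : List Bool) (c : ℝ)
    (h : ∀ t, val e (s ++ t) ≤ val e t + c) :
    ∀ (w : List (Bool × Bool)) (t : List Bool), acc val e (s ++ t) w ≤ acc val e t w + c := by
  intro w
  induction w with
  | nil => intro t; exact h t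
  | cons a w ih =>
    obtain ⟨x, e'⟩ := a
    intro t
    by_cases he : e' = e
    · simp only [acc, if_pos he, List.append_assoc]
      exact ih (t ++ [x])
    · simp only [acc, if_neg he]
      linarith [h t]

theorem le_acc (e : Bool) (s : List Bool) (c : ℝ)
    (h : ∀ t, val e t + c ≤ val e (s ++ t)) :
    ∀ (w : List (Bool × Bool)) (t : List Bool), acc val e t w + c ≤ acc val e (s ++ t) w := by
  intro w
  induction w with
  | nil => intro t; exact h t
  | cons a w ih =>
    obtain ⟨x, e'⟩ := a
    intro t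
    by_cases he : e' = e
    · simp only [acc, if_pos he, List.append_assoc]
      exact ih (t ++ [x])
    · simp only [acc, if_neg he]
      linarith [h t]

/-- the value of a word -/
noncomputable def V (w : List (Bool × Bool)) : ℝ := acc val true [] w

theorem acc_nil (h0 : ∀ e, val e [] = 0) (e : Bool) (w : List (Bool × Bool)) :
    acc val e [] w = V val w := by
  unfold V
  cases w with
  | nil => simp [acc, h0]
  | cons a w =>
    obtain ⟨x, e'⟩ := a
    have key : ∀ e₀ : Bool, acc val e₀ [] ((x, e') :: w) = acc val e' [x] w := by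
      intro e₀
      by_cases he : e' = e₀
      · subst he; simp [acc]
      · simp [acc, if_neg he, h0]
    rw [key, key]

theorem V_nil (h0 : ∀ e, val e [] = 0) : V val [] = 0 := by simp [V, acc, h0]

theorem V_cw (h0 : ∀ e, val e [] = 0) (e : Bool) (s : List Bool) (w : List (Bool × Bool)) :
    V val (cw e s ++ w) = acc val e s w := by
  rw [← acc_nil val h0 e, acc_cw]
  simp

theorem V_cw_le (h0 : ∀ e, val e [] = 0) (e : Bool) (s : List Bool) (c : ℝ)
    (h : ∀ t, val e (s ++ t) ≤ val e t + c) (w : List (Bool × Bool)) :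
    V val (cw e s ++ w) ≤ V val w + c := by
  rw [V_cw val h0, ← acc_nil val h0 e w]
  have := acc_le val e s c h w []
  simpa using this

theorem le_V_cw (h0 : ∀ e, val e [] = 0) (e : Bool) (s : List Bool) (c : ℝ)
    (h : ∀ t, val e t + c ≤ val e (s ++ t)) (w : List (Bool × Bool)) :
    V val w + c ≤ V val (cw e s ++ w) := by
  rw [V_cw val h0, ← acc_nil val h0 e w]
  have := le_acc val e s c h w []
  simpa using this

end Acc

/-- cancellation of a constant sign word with a reduced word -/
theorem cancel (e : Bool) (W : List (Bool × Bool)) (hW : FreeGroup.reduce W = W) :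
    ∀ p : List Bool, ∃ (p' c : List Bool) (w' : List (Bool × Bool)), p = p' ++ c ∧
      W = cw (!e) c.reverse ++ w' ∧ FreeGroup.reduce (cw e p ++ W) = cw e p' ++ w' := by
  intro p
  induction p with
  | nil => exact ⟨[], [], W, rfl, by simp [cw], by simp [cw, hW]⟩
  | cons x p ih =>
    obtain ⟨p', c, w', h1, h2, h3⟩ := ih
    have hr := FreeGroup.reduce.cons (L := cw e p ++ W) (x, e)
    rw [h3] at hr
    rw [cw_cons, List.cons_append]
    cases p' with
    | cons y p'' =>
      refine ⟨x :: y :: p'', c, w', by simp [h1], h2, ?_⟩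
      rw [hr]
      simp [cw]
    | nil =>
      cases w' with
      | nil =>
        refine ⟨[x], c, [], by simp [h1], h2, ?_⟩
        rw [hr]
        simp [cw]
      | cons z w'' =>
        obtain ⟨y, e'⟩ := z
        by_cases hc : x = y ∧ e = !e'
        · obtain ⟨hc1, hc2⟩ := hc
          subst hc1
          have he' : e' = !e := by simp [hc2]
          refine ⟨[], x :: c, w'', by simp [h1], ?_, ?_⟩
          · rw [h2, he']
            simp [cw]
          · rw [hr]
            simp [cw, hc2]
        · refine ⟨[x], c, (y, e') :: w'', by simp [h1], h2, ?_⟩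
          rw [hr]
          simp [cw, hc]

section Gen

variable (F G : List Bool → ℝ)

/-- values of the blocks of the inverse word -/
def valFG (e : Bool) (s : List Bool) : ℝ := if e then -G s else F s

/-- the potential of one coordinate -/
noncomputable def Phi (g : FreeGroup Bool) : ℝ := V (valFG F G) (g⁻¹).toWord

/-- the properties of the pair of functions -/
structure Good : Prop where
  F0 : F [] = 0
  G0 : G [] = 0
  Fsup : ∀ s t, F s + F t ≤ F (s ++ t)
  Fsub : ∀ s t, F (s ++ t) ≤ F s + F t + 3
  Gsup : ∀ s t, G s + G t ≤ G (s ++ t)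
  Gsub : ∀ s t, G (s ++ t) ≤ G s + G t + 3
  Frev : ∀ s, F s.reverse = F s
  Grev : ∀ s, G s.reverse = G s
  GF : ∀ s, G s ≤ F s + 3

variable {F G}

theorem Good.val0 (h : Good F G) (e : Bool) : valFG F G e [] = 0 := by
  cases e <;> simp [valFG, h.F0, h.G0]

theorem Good.one (h : Good F G) : Phi F G 1 = 0 := by
  unfold Phi
  simp [V_nil _ h.val0]

theorem Good.V_neg (h : Good F G) (W : List (Bool × Bool)) (hW : FreeGroup.reduce W = W)
    (p : List Bool) :
    V (valFG F G) (FreeGroup.reduce (cw false p ++ W)) ≤ V (valFG F G) W + F p + 9 := by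
  obtain ⟨p', c, w', h1, h2, h3⟩ := cancel false W hW p
  rw [h3]
  have e1 := V_cw_le (valFG F G) h.val0 false p' (F p' + 3)
    (fun t => by simp only [valFG]; simp; linarith [h.Fsub p' t]) w'
  have e2 := le_V_cw (valFG F G) h.val0 true c.reverse (-(G c + 3))
    (fun t => by
      simp only [valFG]; simp
      have := h.Gsub c.reverse t
      rw [h.Grev] at this
      linarith) w'
  have e3 : cw (!false) c.reverse ++ w' = W := h2.symm
  simp only [Bool.not_false] at e3
  rw [e3] at e2
  have e4 := h.GF c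
  have e5 := h.Fsup p' c
  rw [← h1] at e5
  linarith

theorem Good.V_pos (h : Good F G) (W : List (Bool × Bool)) (hW : FreeGroup.reduce W = W)
    (u : List Bool) :
    V (valFG F G) (FreeGroup.reduce (cw true u ++ W)) ≤ V (valFG F G) W - G u + 9 := by
  obtain ⟨p', c, w', h1, h2, h3⟩ := cancel true W hW u
  rw [h3]
  have e1 := V_cw_le (valFG F G) h.val0 true p' (-G p')
    (fun t => by simp only [valFG]; simp; linarith [h.Gsup p' t]) w'
  have e2 := le_V_cw (valFG F G) h.val0 false c.reverse (F c)
    (fun t => by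
      simp only [valFG]; simp
      have := h.Fsup c.reverse t
      rw [h.Frev] at this
      linarith) w'
  have e3 : cw (!true) c.reverse ++ w' = W := h2.symm
  simp only [Bool.not_true] at e3
  rw [e3] at e2
  have e4 := h.GF c
  have e5 := h.Gsub p' c
  rw [← h1] at e5
  linarith

theorem invRev_cw (e : Bool) (p : List Bool) :
    FreeGroup.invRev (cw e p) = cw (!e) p.reverse := by
  simp [FreeGroup.invRev, cw, List.map_reverse, List.map_map, Function.comp_def]

theorem toWord_inv_mul (g : FreeGroup Bool) (e : Bool) (p : List Bool) :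
    ((g * FreeGroup.mk (cw e p))⁻¹).toWord =
      FreeGroup.reduce (cw (!e) p.reverse ++ (g⁻¹).toWord) := by
  rw [mul_inv_rev, FreeGroup.inv_mk, invRev_cw]
  conv_lhs => rw [← FreeGroup.mk_toWord (x := g⁻¹)]
  rw [FreeGroup.mul_mk, FreeGroup.toWord_mk]

theorem Good.mul_pos (h : Good F G) (g : FreeGroup Bool) (p : List Bool) :
    Phi F G (g * pos p) ≤ Phi F G g + F p + 9 := by
  unfold Phi
  have e1 : pos p = FreeGroup.mk (cw true p) := rfl
  rw [e1, toWord_inv_mul]
  have := h.V_neg (g⁻¹).toWord (FreeGroup.reduce_toWord _) p.reverse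
  rw [h.Frev] at this
  exact this

theorem Good.mul_neg (h : Good F G) (g : FreeGroup Bool) (u : List Bool) :
    Phi F G (g * neg u) ≤ Phi F G g - G u + 9 := by
  unfold Phi
  have e1 : neg u = FreeGroup.mk (cw false u) := rfl
  rw [e1, toWord_inv_mul]
  have := h.V_pos (g⁻¹).toWord (FreeGroup.reduce_toWord _) u.reverse
  rw [h.Grev] at this
  exact this

end Gen

/-! ### The two functions -/

/-- value of a positive A-block -/
noncomputable def Ua (s : List Bool) : ℝ := dsum s + psi * PN 1 s + psi ^ 2 * PN (-1) s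

/-- value of a positive B-block -/
noncomputable def Ub (s : List Bool) : ℝ := psi ^ 2 * dsum s + psi ^ 3 * PN 1 s + psi ^ 2 * PN (-1) s

/-- minus the value of a negative A-block -/
noncomputable def Ga (s : List Bool) : ℝ := dsum s + Ub s

theorem habs1 : |(1 : ℝ)| ≤ 1 := by simp

theorem habsm : |(-1 : ℝ)| ≤ 1 := by simp

theorem Ua_nil : Ua [] = 0 := by simp [Ua, dsum_nil, PN_nil]

theorem Ub_nil : Ub [] = 0 := by simp [Ub, dsum_nil, PN_nil]

theorem Ua_rev (s : List Bool) : Ua s.reverse = Ua s := by
  simp [Ua, dsum_reverse, PN_rev habs1, PN_rev habsm]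

theorem Ub_rev (s : List Bool) : Ub s.reverse = Ub s := by
  simp [Ub, dsum_reverse, PN_rev habs1, PN_rev habsm]

theorem psi_cube : psi ^ 3 = 2 * psi - 1 := by
  have : psi ^ 3 = psi * psi ^ 2 := by ring
  rw [this, psi_sq]
  have h2 := psi_sq
  nlinarith [h2]

theorem Ua_sup (s t : List Bool) : Ua s + Ua t ≤ Ua (s ++ t) := by
  unfold Ua
  rw [dsum_append]
  have h1 := mul_le_mul_of_nonneg_left (PN_super habs1 s t) psi_pos.le
  have h2 := mul_le_mul_of_nonneg_left (PN_super habsm s t) (pow_nonneg psi_pos.le 2)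
  linarith

theorem Ub_sup (s t : List Bool) : Ub s + Ub t ≤ Ub (s ++ t) := by
  unfold Ub
  rw [dsum_append]
  have h1 := mul_le_mul_of_nonneg_left (PN_super habs1 s t) (pow_nonneg psi_pos.le 3)
  have h2 := mul_le_mul_of_nonneg_left (PN_super habsm s t) (pow_nonneg psi_pos.le 2)
  linarith

theorem Ua_sub (s t : List Bool) : Ua (s ++ t) ≤ Ua s + Ua t + 3 := by
  unfold Ua
  rw [dsum_append]
  have h1 := mul_le_mul_of_nonneg_left (PN_sub habs1 s t) psi_pos.le
  have h2 := mul_le_mul_of_nonneg_left (PN_sub habsm s t) (pow_nonneg psi_pos.le 2)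
  have h3 : psi * 3 + psi ^ 2 * 3 = 3 := by rw [psi_sq]; ring
  linarith

theorem Ub_sub (s t : List Bool) : Ub (s ++ t) ≤ Ub s + Ub t + 3 := by
  unfold Ub
  rw [dsum_append]
  have h1 := mul_le_mul_of_nonneg_left (PN_sub habs1 s t) (pow_nonneg psi_pos.le 3)
  have h2 := mul_le_mul_of_nonneg_left (PN_sub habsm s t) (pow_nonneg psi_pos.le 2)
  have h3 : psi ^ 3 * 3 + psi ^ 2 * 3 = 3 * psi := by rw [psi_cube, psi_sq]; ring
  linarith [psi_lt_one]

theorem Ga_le (s : List Bool) : Ga s ≤ Ua s + 3 := by
  unfold Ga Ua Ub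
  have h1 := mul_le_mul_of_nonneg_left (PN_ge habs1 s) (pow_nonneg psi_pos.le 2)
  have h2 : psi ^ 2 ≤ 1 := by rw [psi_sq]; linarith [psi_pos]
  have h3 : psi ^ 3 * PN 1 s = psi * PN 1 s - psi ^ 2 * PN 1 s := by
    rw [psi_cube, psi_sq]; ring
  rw [h3]
  linarith

theorem Ub_ge (s : List Bool) : -3 ≤ Ub s := by
  unfold Ub
  have h1 := mul_le_mul_of_nonneg_left (PN_ge habsm s) (pow_nonneg psi_pos.le 2)
  have h2 : psi ^ 2 ≤ 1 := by rw [psi_sq]; linarith [psi_pos]
  have h3 := mul_nonneg (pow_nonneg psi_pos.le 3) (PN_nonneg habs1 s)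
  linarith

theorem Ua_sig (u : List Bool) : Ua (sig u) - Ub u ≤ -dsum u := by
  unfold Ua Ub
  rw [dsum_sig]
  have h1 := mul_le_mul_of_nonneg_left (PN_sig_pos u) psi_pos.le
  have h2 := mul_le_mul_of_nonneg_left (PN_sig_neg u) (pow_nonneg psi_pos.le 2)
  have h3 : psi * (psi * PN (-1) u) = psi ^ 2 * PN (-1) u := by ring
  have h4 : psi ^ 2 * (psi * PN 1 u) = psi ^ 3 * PN 1 u := by ring
  have h5 : psi * dsum u + psi ^ 2 * dsum u = dsum u := by rw [psi_sq]; ring
  rw [h3] at h1
  rw [h4] at h2
  linarith

theorem goodA : Good Ua Ga where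
  F0 := Ua_nil
  G0 := by simp [Ga, Ub_nil, dsum_nil]
  Fsup := Ua_sup
  Fsub := Ua_sub
  Gsup := fun s t => by
    have := Ub_sup s t
    have h := dsum_append s t
    unfold Ga
    linarith
  Gsub := fun s t => by
    have := Ub_sub s t
    have h := dsum_append s t
    unfold Ga
    linarith
  Frev := Ua_rev
  Grev := fun s => by simp [Ga, Ub_rev, dsum_reverse]
  GF := Ga_le

theorem goodB : Good Ub Ub where
  F0 := Ub_nil
  G0 := Ub_nil
  Fsup := Ub_sup
  Fsub := Ub_sub
  Gsup := Ub_sup
  Gsub := Ub_sub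
  Frev := Ub_rev
  Grev := Ub_rev
  GF := fun s => by linarith

end Pot

open Pot in
theorem potential : ∃ (K : ℝ) (U : FreeGroup Bool → FreeGroup Bool → ℝ), U 1 1 = 0 ∧
    (∀ g h u, U (g * pos (sig u)) (h * neg u) ≤ U g h - dsum u + K) ∧
    (∀ g h u, U (g * neg u) (h * pos u) ≤ U g h - dsum u + K) ∧
    (∀ g h u, U (g * neg u) h ≤ U g h - dsum u + K) ∧
    (∀ g h (x : Bool × Bool), U (g * FreeGroup.mk [x]) h ≤ U g h + K) ∧
    (∀ g h (x : Bool × Bool), U g (h * FreeGroup.mk [x]) ≤ U g h + K) := by
  have bd : ∀ H : List Bool → ℝ, ∀ l : Bool, |H [l]| ≤ |H [true]| + |H [false]| := by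
    intro H l
    cases l
    · linarith [abs_nonneg (H [true])]
    · linarith [abs_nonneg (H [false])]
  refine ⟨18 + (|Ua [true]| + |Ua [false]|) + (|Ub [true]| + |Ub [false]|) +
    (|Ga [true]| + |Ga [false]|), fun g h => Phi Ua Ga g + Phi Ub Ub h, ?_, ?_, ?_, ?_, ?_, ?_⟩
  · simp [goodA.one, goodB.one]
  · intro g h u
    have h1 := goodA.mul_pos g (sig u)
    have h2 := goodB.mul_neg h u
    have h3 := Ua_sig u
    simp only
    linarith [abs_nonneg (Ua [true]), abs_nonneg (Ua [false]), abs_nonneg (Ub [true]),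
      abs_nonneg (Ub [false]), abs_nonneg (Ga [true]), abs_nonneg (Ga [false])]
  · intro g h u
    have h1 := goodA.mul_neg g u
    have h2 := goodB.mul_pos h u
    have h3 : Ga u = dsum u + Ub u := rfl
    simp only
    linarith [abs_nonneg (Ua [true]), abs_nonneg (Ua [false]), abs_nonneg (Ub [true]),
      abs_nonneg (Ub [false]), abs_nonneg (Ga [true]), abs_nonneg (Ga [false])]
  · intro g h u
    have h1 := goodA.mul_neg g u
    have h2 := Ub_ge u
    have h3 : Ga u = dsum u + Ub u := rfl
    simp only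
    linarith [abs_nonneg (Ua [true]), abs_nonneg (Ua [false]), abs_nonneg (Ub [true]),
      abs_nonneg (Ub [false]), abs_nonneg (Ga [true]), abs_nonneg (Ga [false])]
  · intro g h x
    obtain ⟨l, e⟩ := x
    have b1 := bd Ua l
    have b2 := bd Ga l
    have c1 := le_abs_self (Ua [l])
    have c2 := neg_abs_le (Ga [l])
    simp only
    cases e
    · have h1 := goodA.mul_neg g [l]
      have e1 : neg [l] = FreeGroup.mk [(l, false)] := rfl
      rw [e1] at h1
      linarith [abs_nonneg (Ua [true]), abs_nonneg (Ua [false]), abs_nonneg (Ub [true]),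
        abs_nonneg (Ub [false]), abs_nonneg (Ga [true]), abs_nonneg (Ga [false])]
    · have h1 := goodA.mul_pos g [l]
      have e1 : pos [l] = FreeGroup.mk [(l, true)] := rfl
      rw [e1] at h1
      linarith [abs_nonneg (Ua [true]), abs_nonneg (Ua [false]), abs_nonneg (Ub [true]),
        abs_nonneg (Ub [false]), abs_nonneg (Ga [true]), abs_nonneg (Ga [false])]
  · intro g h x
    obtain ⟨l, e⟩ := x
    have b1 := bd Ub l
    have c1 := le_abs_self (Ub [l])
    have c2 := neg_abs_le (Ub [l])
    simp only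
    cases e
    · have h1 := goodB.mul_neg h [l]
      have e1 : neg [l] = FreeGroup.mk [(l, false)] := rfl
      rw [e1] at h1
      linarith [abs_nonneg (Ua [true]), abs_nonneg (Ua [false]), abs_nonneg (Ub [true]),
        abs_nonneg (Ub [false]), abs_nonneg (Ga [true]), abs_nonneg (Ga [false])]
    · have h1 := goodB.mul_pos h [l]
      have e1 : pos [l] = FreeGroup.mk [(l, true)] := rfl
      rw [e1] at h1
      linarith [abs_nonneg (Ua [true]), abs_nonneg (Ua [false]), abs_nonneg (Ub [true]),
        abs_nonneg (Ub [false]), abs_nonneg (Ga [true]), abs_nonneg (Ga [false])]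

end Pool.Agent.Lib.MP_60edde_al.Neg
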