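import Mathlib
import Pool.Agent.Lib.MP_60edde_al.Neg.Defs
import Pool.Agent.Lib.MP_60edde_al.Neg.Defs2
import Pool.Agent.Lib.MP_60edde_al.Neg.PN
import Pool.Agent.Lib.MP_60edde_al.Neg.Pot

/-!
MP_60edde_al, negative answer: the discrepancy lemma, from the potential of `Neg/Pot.lean`.
The word of blocks is read from left to right; a maximal clean segment of one class costs `K`,
a block with a deletion costs at most `4 K + 1`.
-/

namespace Pool.Agent.Lib.MP_60edde_al.Neg

/-- the A-part of a clean segment -/
def dl_segA : Cls → List Bool → FreeGroup Bool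
  | .E, u => pos (sig u)
  | .O, u => neg u
  | .L, u => neg u

/-- the B-part of a clean segment -/
def dl_segB : Cls → List Bool → FreeGroup Bool
  | .E, u => neg u
  | .O, u => pos u
  | .L, _ => 1

theorem dl_mk_append (p q : List (Bool × Bool)) :
    FreeGroup.mk (p ++ q) = FreeGroup.mk p * FreeGroup.mk q := by
  rw [FreeGroup.mul_mk]

theorem dl_segA_nil (c : Cls) : dl_segA c [] = 1 := by
  cases c <;> rfl

theorem dl_segB_nil (c : Cls) : dl_segB c [] = 1 := by
  cases c <;> rfl

theorem dl_segA_snoc (c : Cls) (u : List Bool) (x : Bool) :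
    dl_segA c (u ++ [x]) = dl_segA c u * FreeGroup.mk (portA (c, x)) := by
  cases c
  · simp only [dl_segA, pos, sig, List.flatMap_append, List.map_append, dl_mk_append]
    cases x <;> rfl
  · simp only [dl_segA, neg, List.map_append, dl_mk_append]
    cases x <;> rfl
  · simp only [dl_segA, neg, List.map_append, dl_mk_append]
    cases x <;> rfl

theorem dl_segB_snoc (c : Cls) (u : List Bool) (x : Bool) :
    dl_segB c (u ++ [x]) = dl_segB c u * FreeGroup.mk (portB (c, x)) := by
  cases c
  · simp only [dl_segB, neg, List.map_append, dl_mk_append]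
    cases x <;> rfl
  · simp only [dl_segB, pos, List.map_append, dl_mk_append]
    cases x <;> rfl
  · simp only [dl_segB, portB, ← FreeGroup.one_eq_mk, mul_one]

theorem dl_le_one_aux (x : Bool) : dl x ≤ 1 := by
  unfold dl psi
  cases x
  · have : 0 ≤ Real.sqrt 5 := Real.sqrt_nonneg 5
    simp
    linarith
  · simp

theorem dl_portA_length (b : Cls × Bool) : (portA b).length ≤ 2 := by
  rcases b with ⟨c, x⟩
  cases c <;> cases x <;> simp [portA]

theorem dl_portB_length (b : Cls × Bool) : (portB b).length ≤ 1 := by
  rcases b with ⟨c, x⟩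
  cases c <;> cases x <;> simp [portB]

theorem dl_dsum_cons (x : Bool) (u : List Bool) : dsum (x :: u) = dl x + dsum u := by
  simp [dsum]

theorem dl_dsum_nil : dsum [] = 0 := by simp [dsum]

section

variable {K : ℝ} (hK : 0 ≤ K) {U : FreeGroup Bool → FreeGroup Bool → ℝ}
  (hE : ∀ g h u, U (g * pos (sig u)) (h * neg u) ≤ U g h - dsum u + K)
  (hO : ∀ g h u, U (g * neg u) (h * pos u) ≤ U g h - dsum u + K)
  (hL : ∀ g h u, U (g * neg u) h ≤ U g h - dsum u + K)
  (hA : ∀ g h (x : Bool × Bool), U (g * FreeGroup.mk [x]) h ≤ U g h + K)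
  (hB : ∀ g h (x : Bool × Bool), U g (h * FreeGroup.mk [x]) ≤ U g h + K)

include hE hO hL in
theorem dl_seg_le (g h : FreeGroup Bool) (c : Cls) (u : List Bool) :
    U (g * dl_segA c u) (h * dl_segB c u) ≤ U g h - dsum u + K := by
  cases c
  · exact hE g h u
  · exact hO g h u
  · simpa [dl_segA, dl_segB] using hL g h u

include hA in
theorem dl_letters_A (π : List (Bool × Bool)) (g h : FreeGroup Bool) :
    U (g * FreeGroup.mk π) h ≤ U g h + K * π.length := by
  induction π generalizing g with
  | nil => simp [← FreeGroup.one_eq_mk]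
  | cons x π ih =>
    have e : FreeGroup.mk (x :: π) = FreeGroup.mk [x] * FreeGroup.mk π := by
      rw [← dl_mk_append]; rfl
    rw [e, ← mul_assoc]
    have h1 := ih (g * FreeGroup.mk [x])
    have h2 := hA g h x
    push_cast [List.length_cons]
    linarith

include hB in
theorem dl_letters_B (π : List (Bool × Bool)) (g h : FreeGroup Bool) :
    U g (h * FreeGroup.mk π) ≤ U g h + K * π.length := by
  induction π generalizing h with
  | nil => simp [← FreeGroup.one_eq_mk]
  | cons x π ih =>
    have e : FreeGroup.mk (x :: π) = FreeGroup.mk [x] * FreeGroup.mk π := by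
      rw [← dl_mk_append]; rfl
    rw [e, ← mul_assoc]
    have h1 := ih (h * FreeGroup.mk [x])
    have h2 := hB g h x
    push_cast [List.length_cons]
    linarith

theorem dl_runs_cons_same (c : Cls) (l : List Cls) : runs (c :: c :: l) = runs (c :: l) := by
  simp [runs]

theorem dl_runs_cons_ne {c d : Cls} (h : c ≠ d) (l : List Cls) :
    runs (c :: d :: l) = runs (d :: l) + 1 := by
  simp [runs, h]

theorem dl_runs_cons_ge (c d : Cls) (l : List Cls) : runs (d :: l) ≤ runs (c :: d :: l) := by
  by_cases h : c = d
  · subst h; rw [dl_runs_cons_same]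
  · rw [dl_runs_cons_ne h]; omega

include hK hE hO hL hA hB in
theorem dl_walk (L : List (Cls × Bool)) : ∀ (g h : FreeGroup Bool) (c : Cls) (u : List Bool)
    (κA κB : List (Bool × Bool)), κA.Sublist (L.flatMap portA) → κB.Sublist (L.flatMap portB) →
    U (g * dl_segA c u * FreeGroup.mk κA) (h * dl_segB c u * FreeGroup.mk κB) ≤
      U g h - dsum u - dsum (L.map Prod.snd) + K * (runs (c :: L.map Prod.fst) : ℝ) +
      (4 * K + 1) * ((((L.flatMap portA).length : ℝ) - κA.length) +
        (((L.flatMap portB).length : ℝ) - κB.length)) := by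
  induction L with
  | nil =>
    intro g h c u κA κB h1 h2
    have e1 : κA = [] := by simpa using h1
    have e2 : κB = [] := by simpa using h2
    subst e1 e2
    have := dl_seg_le hE hO hL g h c u
    simp only [← FreeGroup.one_eq_mk, mul_one, List.map_nil, runs, List.flatMap_nil,
      List.length_nil, dl_dsum_nil]
    push_cast
    linarith
  | cons b L ih =>
    intro g h c u κA κB h1 h2
    rcases b with ⟨d, x⟩
    rw [List.flatMap_cons] at h1 h2
    obtain ⟨A1, A2, rfl, hA1, hA2⟩ := List.sublist_append_iff.1 h1
    obtain ⟨B1, B2, rfl, hB1, hB2⟩ := List.sublist_append_iff.1 h2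
    have lA2 := hA2.length_le
    have lB2 := hB2.length_le
    have lA1 := hA1.length_le
    have lB1 := hB1.length_le
    have pA := dl_portA_length (d, x)
    have pB := dl_portB_length (d, x)
    have seg := dl_seg_le hE hO hL g h c u
    simp only [dl_mk_append, List.map_cons, List.flatMap_cons, List.length_append, dl_dsum_cons]
    push_cast
    by_cases hclean : A1 = portA (d, x) ∧ B1 = portB (d, x)
    · obtain ⟨rfl, rfl⟩ := hclean
      by_cases hcd : c = d
      · subst hcd
        have key := ih g h c (u ++ [x]) A2 B2 hA2 hB2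
        rw [dl_segA_snoc, dl_segB_snoc, dsum_append, dl_dsum_cons, dl_dsum_nil] at key
        rw [dl_runs_cons_same]
        simp only [← mul_assoc] at key ⊢
        linarith
      · have key := ih (g * dl_segA c u) (h * dl_segB c u) d ([] ++ [x]) A2 B2 hA2 hB2
        rw [dl_segA_snoc, dl_segB_snoc, dl_segA_nil, dl_segB_nil, List.nil_append, dl_dsum_cons, dl_dsum_nil,
          one_mul, one_mul] at key
        rw [dl_runs_cons_ne hcd]
        simp only [← mul_assoc] at key ⊢
        push_cast
        linarith
    · have hdirty : A1.length + B1.length + 1 ≤ (portA (d, x)).length + (portB (d, x)).length := by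
        by_contra hcon
        apply hclean
        exact ⟨hA1.eq_of_length (by omega), hB1.eq_of_length (by omega)⟩
      have key := ih (g * dl_segA c u * FreeGroup.mk A1) (h * dl_segB c u * FreeGroup.mk B1) d []
        A2 B2 hA2 hB2
      rw [dl_segA_nil, dl_segB_nil, mul_one, mul_one, dl_dsum_nil] at key
      have s1 := dl_letters_A hA A1 (g * dl_segA c u) (h * dl_segB c u * FreeGroup.mk B1)
      have s2 := dl_letters_B hB B1 (g * dl_segA c u) (h * dl_segB c u)
      have hr := dl_runs_cons_ge c d (L.map Prod.fst)
      have hr' : (runs (d :: L.map Prod.fst) : ℝ) ≤ (runs (c :: d :: L.map Prod.fst) : ℝ) := by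
        exact_mod_cast hr
      have hr'' := mul_le_mul_of_nonneg_left hr' hK
      have d1 : (A1.length : ℝ) + B1.length + 1 ≤
          (portA (d, x)).length + (portB (d, x)).length := by exact_mod_cast hdirty
      have d2 : (A1.length : ℝ) + B1.length ≤ 3 := by
        have : A1.length + B1.length ≤ 3 := by omega
        exact_mod_cast this
      have d3 := mul_le_mul_of_nonneg_left d2 hK
      have d4 : (4 * K + 1) * 1 ≤ (4 * K + 1) * ((((portA (d, x)).length : ℝ) - A1.length) +
          (((portB (d, x)).length : ℝ) - B1.length)) :=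
        mul_le_mul_of_nonneg_left (by linarith) (by linarith)
      have d5 := dl_le_one_aux x
      simp only [← mul_assoc] at key ⊢
      nlinarith [key, s1, s2, hr'', d3, d4, d5, seg]

end

theorem discrepancy : ∃ K : ℕ, DLK K := by
  obtain ⟨K0, U, U0, hE, hO, hL, hA, hB⟩ := potential
  obtain ⟨K, hK0, hK⟩ : ∃ K : ℝ, K0 ≤ K ∧ 0 ≤ K := ⟨max K0 0, le_max_left _ _, le_max_right _ _⟩
  have hE' : ∀ g h u, U (g * pos (sig u)) (h * neg u) ≤ U g h - dsum u + K :=
    fun g h u => (hE g h u).trans (by linarith)
  have hO' : ∀ g h u, U (g * neg u) (h * pos u) ≤ U g h - dsum u + K :=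
    fun g h u => (hO g h u).trans (by linarith)
  have hL' : ∀ g h u, U (g * neg u) h ≤ U g h - dsum u + K :=
    fun g h u => (hL g h u).trans (by linarith)
  have hA' : ∀ g h (x : Bool × Bool), U (g * FreeGroup.mk [x]) h ≤ U g h + K :=
    fun g h u => (hA g h u).trans (by linarith)
  have hB' : ∀ g h (x : Bool × Bool), U g (h * FreeGroup.mk [x]) ≤ U g h + K :=
    fun g h u => (hB g h u).trans (by linarith)
  obtain ⟨N, hN⟩ := exists_nat_ge (4 * K + 1)
  refine ⟨N, ?_, ?_⟩
  · have : (1 : ℝ) ≤ N := by linarith
    exact_mod_cast this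
  · intro L κA κB h1 h2 e1 e2
    have lA := h1.length_le
    have lB := h2.length_le
    have hN0 : (0 : ℝ) ≤ N := Nat.cast_nonneg N
    cases L with
    | nil =>
      simp only [List.map_nil, dl_dsum_nil]
      positivity
    | cons b L =>
      have key := dl_walk hK hE' hO' hL' hA' hB' (b :: L) 1 1 b.1 [] κA κB h1 h2
      rw [e1, e2, dl_segA_nil, dl_segB_nil, mul_one, mul_one, U0, dl_dsum_nil] at key
      have er : runs (b.1 :: List.map Prod.fst (b :: L)) =
          runs (List.map Prod.fst (b :: L)) := by
        rw [List.map_cons, dl_runs_cons_same]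
      rw [er] at key
      have hV : ((((b :: L).flatMap portA).length - κA.length : ℕ) : ℝ) =
          (((b :: L).flatMap portA).length : ℝ) - κA.length := by
        rw [Nat.cast_sub lA]
      have hW : ((((b :: L).flatMap portB).length - κB.length : ℕ) : ℝ) =
          (((b :: L).flatMap portB).length : ℝ) - κB.length := by
        rw [Nat.cast_sub lB]
      push_cast [hV, hW]
      have r0 : (0 : ℝ) ≤ runs (List.map Prod.fst (b :: L)) := Nat.cast_nonneg _
      have v0 : (0 : ℝ) ≤ ((((b :: L).flatMap portA).length : ℝ) - κA.length) +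
          ((((b :: L).flatMap portB).length : ℝ) - κB.length) := by
        have := Nat.cast_le (α := ℝ).2 lA
        have := Nat.cast_le (α := ℝ).2 lB
        linarith
      have m1 : K * (runs (List.map Prod.fst (b :: L)) : ℝ) ≤ N * runs (List.map Prod.fst (b :: L)) :=
        mul_le_mul_of_nonneg_right (by linarith) r0
      have m2 := mul_le_mul_of_nonneg_right hN v0
      linarith

end Pool.Agent.Lib.MP_60edde_al.Neg
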