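import Mathlib
import Pool.Agent.Lib.MP_60edde_al.Neg.Defs
import Pool.Agent.Lib.MP_60edde_al.Neg.Defs2
import Pool.Agent.Lib.MP_60edde_al.Neg.UC

/-!
MP_60edde_al, negative answer: normal forms in the free product of a group `G` with copies of
`ℤ/2`, realised by a stack machine.
-/

namespace Pool.Agent.Lib.MP_60edde_al.Neg

section NF

open Classical in
/-- reading a letter of the free factor -/
noncomputable def rdZ {G Z : Type} [Group G] (z : Z) (s : G × List (Z × G)) : G × List (Z × G) :=
  match s.2 with
  | [] => (1, [(z, s.1)])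
  | e :: rest => if e.1 = z ∧ s.1 = 1 then (e.2, rest) else (1, (z, s.1) :: e :: rest)

/-- reduced stacks -/
def Valid {G Z : Type} [Group G] (s : G × List (Z × G)) : Prop :=
  s.2.IsChain (fun e e' => e.1 = e'.1 → e.2 ≠ 1)

variable {G Z : Type} [Group G]

theorem rdZ_push (z : Z) (g : G) (e : Z × G) (rest : List (Z × G))
    (h : ¬ (e.1 = z ∧ g = 1)) : rdZ z (g, e :: rest) = (1, (z, g) :: e :: rest) := by
  simp [rdZ, h]

theorem rdZ_valid (z : Z) (s : G × List (Z × G)) (h : Valid s) : Valid (rdZ z s) := by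
  obtain ⟨g, st⟩ := s
  cases st with
  | nil => simp [rdZ, Valid]
  | cons e rest =>
    unfold rdZ Valid at *
    simp only at *
    split_ifs with h1
    · exact (List.isChain_cons.1 h).2
    · simp only
      rw [List.isChain_cons_cons]
      refine ⟨?_, h⟩
      intro h2 h3
      exact h1 ⟨h2.symm, h3⟩

theorem rdZ_rdZ (z : Z) (s : G × List (Z × G)) (h : Valid s) : rdZ z (rdZ z s) = s := by
  obtain ⟨g, st⟩ := s
  cases st with
  | nil => simp [rdZ]
  | cons e rest =>
    unfold Valid at h
    simp only at h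
    by_cases h1 : e.1 = z ∧ g = 1
    · have e1 : rdZ z (g, e :: rest) = (e.2, rest) := by simp [rdZ, h1]
      rw [e1]
      obtain ⟨h2, h3⟩ := h1
      cases rest with
      | nil =>
        simp only [rdZ, h3]
        rw [← h2]
      | cons e' rest' =>
        have h4 := (List.isChain_cons_cons.1 h).1
        have h5 : ¬ (e'.1 = z ∧ e.2 = 1) := by
          rintro ⟨h6, h7⟩
          exact h4 (h2.trans h6.symm) h7
        simp only [rdZ, h5, if_false, h3]
        rw [← h2]
    · have e1 : rdZ z (g, e :: rest) = (1, (z, g) :: e :: rest) := by simp [rdZ, h1]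
      rw [e1]
      simp [rdZ]

/-- the set of valid states -/
def NFS (G Z : Type) [Group G] : Type := {s : G × List (Z × G) // Valid s}

/-- the permutation of a letter of the free factor -/
noncomputable def zP (z : Z) : Equiv.Perm (NFS G Z) where
  toFun s := ⟨rdZ z s.1, rdZ_valid z s.1 s.2⟩
  invFun s := ⟨rdZ z s.1, rdZ_valid z s.1 s.2⟩
  left_inv s := Subtype.ext (rdZ_rdZ z s.1 s.2)
  right_inv s := Subtype.ext (rdZ_rdZ z s.1 s.2)

/-- the permutation of a group element -/
def gP (g : G) : Equiv.Perm (NFS G Z) where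
  toFun s := ⟨(s.1.1 * g, s.1.2), s.2⟩
  invFun s := ⟨(s.1.1 * g⁻¹, s.1.2), s.2⟩
  left_inv s := by
    refine Subtype.ext ?_
    simp
  right_inv s := by
    refine Subtype.ext ?_
    simp

/-- one step of the machine -/
noncomputable def stp {A : Type} (v : A → G) (s : G × List (Z × G)) : A ⊕ Z → G × List (Z × G)
  | .inl a => (s.1 * v a, s.2)
  | .inr z => rdZ z s

/-- the group elements of the machine -/
noncomputable def mach {A : Type} (v : A → G) : A ⊕ Z → (Equiv.Perm (NFS G Z))ᵐᵒᵖ
  | .inl a => MulOpposite.op (gP (v a))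
  | .inr z => MulOpposite.op (zP z)

theorem mach_prod {A : Type} (v : A → G) (κ : List (A ⊕ Z)) (s : NFS G Z) :
    ((MulOpposite.unop (κ.map (mach v)).prod) s).1 = κ.foldl (stp v) s.1 := by
  induction κ generalizing s with
  | nil => simp
  | cons a κ ih =>
    rw [List.map_cons, List.prod_cons, MulOpposite.unop_mul, Equiv.Perm.mul_apply, ih,
      List.foldl_cons]
    cases a with
    | inl a => rfl
    | inr z => rfl

theorem gP_mul (g h : G) : (gP h : Equiv.Perm (NFS G Z)) * gP g = gP (g * h) := by
  refine Equiv.ext fun s => Subtype.ext ?_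
  change ((s.1.1 * g) * h, s.1.2) = (s.1.1 * (g * h), s.1.2)
  rw [mul_assoc]

theorem gP_one : (gP 1 : Equiv.Perm (NFS G Z)) = 1 := by
  refine Equiv.ext fun s => Subtype.ext ?_
  change (s.1.1 * 1, s.1.2) = s.1
  rw [mul_one]

theorem mach_sq {A : Type} (v : A → G) (hv : ∀ a, v a * v a = 1) (x : A ⊕ Z) :
    mach v x * mach v x = 1 := by
  cases x with
  | inl a =>
    rw [mach, ← MulOpposite.op_mul, gP_mul, hv, gP_one, MulOpposite.op_one]
  | inr z =>
    rw [mach, ← MulOpposite.op_mul]
    have : (zP z : Equiv.Perm (NFS G Z)) * zP z = 1 := by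
      exact Equiv.ext fun s => Subtype.ext (rdZ_rdZ z s.1 s.2)
    rw [this, MulOpposite.op_one]

theorem mach_comm {A : Type} (v : A → G) {a b : A} (h : v a * v b = v b * v a) :
    (mach v (.inl a) : (Equiv.Perm (NFS G Z))ᵐᵒᵖ) * mach v (.inl b) =
      mach v (.inl b) * mach v (.inl a) := by
  rw [mach, mach, ← MulOpposite.op_mul, ← MulOpposite.op_mul, gP_mul, gP_mul, h]

end NF

/-- the group `A × B × D` -/
abbrev G1 : Type := Equiv.Perm (RL P6) × Equiv.Perm (RL P6) × Equiv.Perm (RL (Cls × Bool))

/-- the value of a letter -/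
noncomputable def gval : GLt → G1
  | .A x => (pushP x, 1, 1)
  | .B x => (1, pushP x, 1)
  | .D x => (1, 1, pushP x)

theorem gval_sq (a : GLt) : gval a * gval a = 1 := by
  cases a <;> simp [gval, pushP_mul_self]

theorem gval_comm (a b : GLt) (h : a.sort ≠ b.sort) : gval a * gval b = gval b * gval a := by
  cases a <;> cases b <;> simp [gval, GLt.sort] at h ⊢

/-- value of a word -/
noncomputable def gv (l : List GLt) : G1 := (l.map gval).prod

theorem gv_append (l l' : List GLt) : gv (l ++ l') = gv l * gv l' := by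
  simp [gv]

theorem gv_eq (l : List GLt) :
    gv l = (((prA l).map pushP).prod, ((prB l).map pushP).prod, ((prD l).map pushP).prod) := by
  induction l with
  | nil => rfl
  | cons a l ih =>
    have : gv (a :: l) = gval a * gv l := by simp [gv]
    rw [this, ih]
    cases a with
    | A x => simp [gval, prA, prB, prD]
    | B x => simp [gval, prA, prB, prD]
    | D x => simp [gval, prA, prB, prD]

theorem trivG_of_gv {l : List GLt} (h : gv l = 1) : TrivG l := by
  rw [gv_eq] at h
  have h1 := congrArg Prod.fst h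
  have h2 := congrArg (fun x => x.2.1) h
  have h3 := congrArg (fun x => x.2.2) h
  exact ⟨red_eq_nil_of_prod h1, red_eq_nil_of_prod h2, red_eq_nil_of_prod h3⟩

theorem run_of_trivW {κ : List Lt} (h : TrivW κ) :
    κ.foldl (stp gval) ((1, []) : G1 × List (CLt × G1)) = (1, []) := by
  have h1 := h (Equiv.Perm (NFS G1 CLt))ᵐᵒᵖ (mach gval) (mach_sq gval gval_sq) (by
    intro s t hst
    cases s with
    | inl a =>
      cases t with
      | inl b => exact mach_comm gval (gval_comm a b (by simpa [comm] using hst))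
      | inr z => simp [comm] at hst
    | inr z => simp [comm] at hst)
  have h2 := mach_prod gval κ (⟨((1, []) : G1 × List (CLt × G1)), by simp [Valid]⟩ : NFS G1 CLt)
  rw [h1] at h2
  exact h2.symm

end Pool.Agent.Lib.MP_60edde_al.Neg
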