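import Mathlib
import Pool.Agent.Lib.MP_60edde_al.Neg.NF
import Pool.Agent.Lib.MP_60edde_al.Neg.PN
import Pool.Agent.Lib.MP_60edde_al.Neg.Core

/-!
MP_60edde_al, negative answer: the lower bound for deletions in `n` periods.
-/

namespace Pool.Agent.Lib.MP_60edde_al.Neg

/-- dual weights of the letters of the free factor -/
noncomputable def th (K : ℕ) : CLt → ℝ
  | .tE => wQ K / 2 + psi
  | .tO => wQ K / 2 + psi
  | .bt c => wP K c / 2 - 1

/-- the word of one unit -/
def unit (i : Fin 10) : List Lt := (arcW i).map Sum.inl ++ [Sum.inr (zl i)]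

/-- `m` units starting with unit `i` -/
def rem (i : Fin 10) : ℕ → List Lt
  | 0 => []
  | m + 1 => unit i ++ rem (i + 1) m

/-- dual weight of a unit -/
noncomputable def lam (K : ℕ) (i : Fin 10) : ℝ := th K (zl i) + (arc i).elim 0 dw

/-- dual weight of `m` units starting with unit `i` -/
noncomputable def lamN (K : ℕ) (i : Fin 10) : ℕ → ℝ
  | 0 => 0
  | m + 1 => lam K i + lamN K (i + 1) m

theorem rem_ten (b : ℕ) : rem 0 (b + 10) = per ++ rem 0 b := by
  have h : per = rem 0 10 := rfl
  rw [h]
  simp only [rem, List.append_assoc, List.nil_append]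
  rfl

theorem rem_perN (n : ℕ) : rem 0 (10 * n) = perN n := by
  induction n with
  | zero => rfl
  | succ n ih =>
    rw [Nat.mul_succ, rem_ten, ih]
    simp [perN, List.replicate_succ]

theorem wP_even (K : ℕ) (c : Cls) : 2 * (((wP K c / 2 - 1 : ℕ) : ℝ)) = wP K c - 2 := by
  have : wP K c = 2 * (wP K c / 2 - 1) + 2 := by
    cases c <;> simp only [wP, wQ, wM] <;> omega
  have h2 : ((wP K c : ℕ) : ℝ) = ((2 * (wP K c / 2 - 1) + 2 : ℕ) : ℝ) := by rw [← this]
  rw [h2]
  push_cast
  ring

theorem lamN_ten (K b : ℕ) : lamN K 0 (b + 10) = slope K + lamN K 0 b := by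
  have h : lamN K 0 (b + 10) = lam K 0 + (lam K 1 + (lam K 2 + (lam K 3 + (lam K 4 + (lam K 5 +
    (lam K 6 + (lam K 7 + (lam K 8 + (lam K 9 + lamN K 0 b))))))))) := rfl
  rw [h]
  have e0 : lam K 0 = (wP K .L / 2 - 1) + 2 * -psi := by simp [lam, zl, arc, th, dw, dl]
  have e1 : lam K 1 = (wP K .L / 2 - 1) + 2 * 1 := by simp [lam, zl, arc, th, dw, dl]
  have e2 : lam K 2 = wQ K / 2 + psi := by simp [lam, zl, arc, th]
  have e3 : lam K 3 = (wP K .E / 2 - 1) := by simp [lam, zl, arc, th]
  have e4 : lam K 4 = (wP K .E / 2 - 1) + 2 * 1 := by simp [lam, zl, arc, th, dw, dl]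
  have e5 : lam K 5 = (wQ K / 2 + psi) + 2 * -psi := by simp [lam, zl, arc, th, dw, dl]
  have e6 : lam K 6 = wQ K / 2 + psi := by simp [lam, zl, arc, th]
  have e7 : lam K 7 = (wP K .O / 2 - 1) + 2 * -psi := by simp [lam, zl, arc, th, dw, dl]
  have e8 : lam K 8 = (wP K .O / 2 - 1) + 2 * 1 := by simp [lam, zl, arc, th, dw, dl]
  have e9 : lam K 9 = wQ K / 2 + psi := by simp [lam, zl, arc, th]
  rw [e0, e1, e2, e3, e4, e5, e6, e7, e8, e9, slope]
  ring

theorem lamN_per (K n : ℕ) : lamN K 0 (10 * n) = n * slope K := by
  induction n with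
  | zero => simp [lamN]
  | succ n ih =>
    rw [Nat.mul_succ, lamN_ten, ih]
    push_cast
    ring

/-- a frame: the blocks read and the letters kept -/
abbrev Frame := List (Cls × Bool) × List GLt

/-- what is known about a frame with opening letter `own` which is about to read unit `i` -/
def InvF (own : Option CLt) (L : List (Cls × Bool)) (i : Fin 10) : Prop :=
  match own with
  | none => True
  | some .tO => (∃ b ∈ L, b.2 = false) ∨ i = 0 ∨ i = 7
  | some .tE => (∃ b ∈ L, b.2 = false) ∨ (i ≠ 1 ∧ i ≠ 2 ∧ i ≠ 8 ∧ i ≠ 9)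
  | some (.bt .E) => (∃ b ∈ L, b.1 = .E) ∨ i = 4 ∨ i = 5
  | some (.bt _) => True

/-- what is known about a frame when it is closed -/
def Good (z : CLt) (L : List (Cls × Bool)) : Prop :=
  match z with
  | .tO => ∃ b ∈ L, b.2 = false
  | .tE => ∃ b ∈ L, b.2 = false
  | .bt c => ∃ b ∈ L, b.1 = c

theorem good_of_inv (z : CLt) (L : List (Cls × Bool)) (i : Fin 10) (hz : zl i = z)
    (h : InvF (some z) L i) : Good z (L ++ (arc i).toList) := by
  subst hz
  fin_cases i
  all_goals simp [zl, InvF, Good, arc] at h ⊢
  all_goals tauto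

theorem inv_step (own : Option CLt) (L : List (Cls × Bool)) (i : Fin 10) (h : InvF own L i) :
    ∀ j, zl j = zl i → InvF own (L ++ (arc i).toList) (j + 1) := by
  intro j hj
  cases own with
  | none => trivial
  | some z =>
    cases z with
    | tO =>
      rcases h with ⟨b, hb, h⟩ | h | h
      · exact Or.inl ⟨b, List.mem_append_left _ hb, h⟩
      · subst h
        exact Or.inl ⟨(.L, false), by simp [arc], rfl⟩
      · subst h
        exact Or.inl ⟨(.O, false), by simp [arc], rfl⟩
    | tE =>
      rcases h with ⟨b, hb, h⟩ | h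
      · exact Or.inl ⟨b, List.mem_append_left _ hb, h⟩
      · by_cases hi : i = 0 ∨ i = 5 ∨ i = 7
        · rcases hi with hi | hi | hi
          · subst hi
            exact Or.inl ⟨(.L, false), by simp [arc], rfl⟩
          · subst hi
            exact Or.inl ⟨(.E, false), by simp [arc], rfl⟩
          · subst hi
            exact Or.inl ⟨(.O, false), by simp [arc], rfl⟩
        · right
          revert hj h hi
          revert i j
          decide
    | bt c =>
      cases c with
      | E =>
        rcases h with ⟨b, hb, h⟩ | h | h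
        · exact Or.inl ⟨b, List.mem_append_left _ hb, h⟩
        · subst h
          exact Or.inl ⟨(.E, true), by simp [arc], rfl⟩
        · subst h
          exact Or.inl ⟨(.E, false), by simp [arc], rfl⟩
      | O => trivial
      | L => trivial

theorem inv_new (i : Fin 10) : InvF (some (zl i)) [] (i + 1) := by
  fin_cases i
  all_goals simp [zl, InvF]

theorem wtl_append (K : ℕ) (l l' : List Lt) : wtl K (l ++ l') = wtl K l + wtl K l' := by
  simp [wtl]

theorem wtg_append (K : ℕ) (l l' : List GLt) : wtg K (l ++ l') = wtg K l + wtg K l' := by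
  simp [wtg, wtl]

theorem th_le (K : ℕ) (z : CLt) : th K z ≤ wt K (.inr z) := by
  have hQ : (4 : ℝ) ≤ wQ K := by
    have : 4 ≤ wQ K := by simp only [wQ]; omega
    exact_mod_cast this
  have hp := psi_lt_one
  cases z with
  | tE =>
    simp only [th, wt]
    linarith
  | tO =>
    simp only [th, wt]
    linarith
  | bt c =>
    simp only [th, wt]
    have := wP_even K c
    linarith

/-- the surplus of a frame -/
noncomputable def ph (K : ℕ) (fr : Frame) : ℝ :=
  (fr.1.map dw).sum - (wtg K (fr.1.flatMap blk) - wtg K fr.2)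

theorem wP_le_wQ (K : ℕ) (c : Cls) : wP K c ≤ wQ K := by
  cases c <;> simp only [wP, wQ] <;> omega

theorem four_le_wP (K : ℕ) (c : Cls) : 4 ≤ wP K c := by
  cases c <;> simp only [wP, wQ] <;> omega

theorem frame_cases (K : ℕ) (hK : DLK K) (fr : Frame) (hs : fr.2.Sublist (fr.1.flatMap blk))
    (ht : TrivG fr.2) : (fr.1 = [] ∧ ph K fr = 0) ∨
      (∃ c, fr.1 = [(c, false)] ∧ ph K fr = -2 * psi - wQ K) ∨
      (∃ c, fr.1 = [(c, true)] ∧ ph K fr = 2 - wP K c) ∨ ph K fr ≤ -(wQ K + 2 * psi) := by
  obtain ⟨L, κ⟩ := fr
  simp only at hs ht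
  match L, hs with
  | [], hs =>
    left
    have : κ = [] := by simpa using hs
    subst this
    simp [ph, wtg, wtl]
  | [(c, x)], hs =>
    right
    have h1 : κ.Sublist (blk (c, x)) := by simpa using hs
    have h2 := core_one _ _ h1 ht
    subst h2
    have h3 : wtg K ([(c, x)].flatMap blk) = if x then wP K c else wQ K := by
      rw [← wtg_blk]
      simp
    cases x with
    | false =>
      left
      refine ⟨c, rfl, ?_⟩
      simp only [ph, h3]
      simp [dw, dl, wtg, wtl]
    | true =>
      right
      left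
      refine ⟨c, rfl, ?_⟩
      simp only [ph, h3]
      simp [dw, dl, wtg, wtl]
  | b :: b' :: L, hs =>
    right
    right
    right
    have := core K hK _ κ hs ht (by simp)
    simp only [ph]
    linarith

theorem frame_root (K : ℕ) (hK : DLK K) (fr : Frame) (hs : fr.2.Sublist (fr.1.flatMap blk))
    (ht : TrivG fr.2) : ph K fr ≤ 0 := by
  have hp := psi_pos
  rcases frame_cases K hK fr hs ht with ⟨-, h⟩ | ⟨c, -, h⟩ | ⟨c, -, h⟩ | h
  · exact h.le
  · rw [h]
    have : (0 : ℝ) ≤ wQ K := Nat.cast_nonneg _
    linarith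
  · rw [h]
    have : (4 : ℝ) ≤ wP K c := by exact_mod_cast four_le_wP K c
    linarith
  · have : (0 : ℝ) ≤ wQ K := Nat.cast_nonneg _
    linarith

theorem frame_closed (K : ℕ) (hK : DLK K) (fr : Frame) (hs : fr.2.Sublist (fr.1.flatMap blk))
    (ht : TrivG fr.2) (z : CLt) (hg : Good z fr.1) : ph K fr + 2 * th K z ≤ 0 := by
  have hp := psi_pos
  have hQ : ∀ c, (wP K c : ℝ) ≤ wQ K := fun c => by exact_mod_cast wP_le_wQ K c
  rcases frame_cases K hK fr hs ht with ⟨h0, h⟩ | ⟨c, h0, h⟩ | ⟨c, h0, h⟩ | h
  · exfalso
    rw [h0] at hg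
    cases z <;> simp [Good] at hg
  · rw [h]
    cases z with
    | tE => simp only [th]; linarith
    | tO => simp only [th]; linarith
    | bt c' =>
      simp only [th]
      have := hQ c'
      linarith
  · rw [h]
    rw [h0] at hg
    cases z with
    | tE => simp [Good] at hg
    | tO => simp [Good] at hg
    | bt c' =>
      have hc : c = c' := by simpa [Good] using hg
      subst hc
      simp only [th]
      linarith
  · cases z with
    | tE => simp only [th]; linarith
    | tO => simp only [th]; linarith
    | bt c' =>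
      simp only [th]
      have := hQ c'
      linarith

/-- the invariant of the suspended frames -/
def StackInv : List (CLt × Frame) → Prop
  | [] => True
  | e :: rest => (∀ j, zl j = e.1 → InvF (rest.head?.map Prod.fst) e.2.1 (j + 1)) ∧
      e.2.2.Sublist (e.2.1.flatMap blk) ∧ StackInv rest

/-- the surplus of the suspended frames -/
noncomputable def phS (K : ℕ) (st : List (CLt × Frame)) : ℝ :=
  (st.map (fun e => ph K e.2 + th K e.1)).sum

theorem arcW_eq (i : Fin 10) : arcW i = (arc i).toList.flatMap blk := by
  unfold arcW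
  cases arc i <;> simp

theorem elim_dw (i : Fin 10) : (arc i).elim 0 dw = ((arc i).toList.map dw).sum := by
  cases arc i <;> simp

theorem fold_inl (κ : List GLt) (s : G1 × List (CLt × G1)) :
    (κ.map Sum.inl).foldl (stp gval) s = (s.1 * gv κ, s.2) := by
  induction κ generalizing s with
  | nil => simp [gv]
  | cons a κ ih =>
    rw [List.map_cons, List.foldl_cons, ih]
    simp [stp, gv, mul_assoc]

/-- the machine state of a stack of frames -/
noncomputable def nfOf (top : Frame) (st : List (CLt × Frame)) : G1 × List (CLt × G1) :=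
  (gv top.2, st.map (fun e => (e.1, gv e.2.2)))

theorem machine (K : ℕ) (hK : DLK K) (m : ℕ) : ∀ (i : Fin 10) (top : Frame)
    (st : List (CLt × Frame)) (κ : List Lt), κ.Sublist (rem i m) →
    κ.foldl (stp gval) (nfOf top st) = (1, []) →
    InvF (st.head?.map Prod.fst) top.1 i → top.2.Sublist (top.1.flatMap blk) → StackInv st →
    (wtl K κ : ℝ) + lamN K i m + (ph K top + phS K st) ≤ wtl K (rem i m) := by
  induction m with
  | zero =>
    intro i top st κ hκ hrun hinv htop hst
    have hκ0 : κ = [] := by simpa [rem] using hκ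
    subst hκ0
    simp only [List.foldl_nil, nfOf, Prod.mk.injEq, List.map_eq_nil_iff] at hrun
    obtain ⟨h1, h2⟩ := hrun
    subst h2
    have := frame_root K hK top htop (trivG_of_gv h1)
    simp [wtl, lamN, phS, rem]
    linarith
  | succ m ih =>
    intro i top st κ hκ hrun hinv htop hst
    rw [rem, unit, List.append_assoc] at hκ
    obtain ⟨κ1, κ2, hκe, hκ1, hκ2⟩ := List.sublist_append_iff.1 hκ
    obtain ⟨κa, hκa, hκa2⟩ := List.sublist_map_iff.1 hκ1
    subst hκe
    subst hκa2
    -- after reading the arc
    set top' : Frame := (top.1 ++ (arc i).toList, top.2 ++ κa) with htop'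
    have hrun1 : κ2.foldl (stp gval) (nfOf top' st) = (1, []) := by
      rw [List.foldl_append, fold_inl] at hrun
      have : nfOf top' st = ((nfOf top st).1 * gv κa, (nfOf top st).2) := by
        simp [nfOf, htop', gv_append]
      rw [this]
      exact hrun
    have hsub' : top'.2.Sublist (top'.1.flatMap blk) := by
      simp only [htop', List.flatMap_append]
      refine htop.append ?_
      rw [← arcW_eq]
      exact hκa
    have hph : ph K top' = ph K top + (arc i).elim 0 dw - (wtg K (arcW i) - wtg K κa) := by
      simp only [ph, htop', List.map_append, List.sum_append, List.flatMap_append, wtg_append,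
        elim_dw, arcW_eq]
      push_cast
      ring
    have hw1 : wtl K (κa.map Sum.inl ++ κ2) = wtg K κa + wtl K κ2 := by
      rw [wtl_append]; rfl
    have hw2 : wtl K (rem i (m + 1)) = wtg K (arcW i) + (wt K (.inr (zl i)) +
        wtl K (rem (i + 1) m)) := by
      rw [rem, unit, wtl_append, wtl_append]
      simp [wtg, wtl]
      ring
    have hinv' := inv_step _ _ _ hinv
    have hth := th_le K (zl i)
    rw [hw1, hw2, lamN, lam]
    push_cast
    rcases hκ2 with _ | ⟨_, hκ2⟩ | ⟨_, hκ2⟩
    · -- the letter is deleted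
      have := ih (i + 1) top' st κ2 (by simpa using hκ2) hrun1 (hinv' i rfl) hsub' hst
      linarith
    · -- the letter is kept
      rename_i κ3
      rw [List.foldl_cons] at hrun1
      have hpush : rdZ (zl i) (nfOf top' st) = nfOf ([], []) ((zl i, top') :: st) →
          (wtg K κa : ℝ) + wtl K (Sum.inr (zl i) :: κ3) + (th K (zl i) + (arc i).elim 0 dw +
            lamN K (i + 1) m) + (ph K top + phS K st) ≤
          wtg K (arcW i) + (wt K (.inr (zl i)) + wtl K (rem (i + 1) m)) := by
        intro h
        have h1 := ih (i + 1) ([], []) ((zl i, top') :: st) κ3 (by simpa using hκ2)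
          (by rw [← h]; exact hrun1) (inv_new i) (List.Sublist.refl _) ⟨hinv', hsub', hst⟩
        have h2 : ph K (([], []) : Frame) = 0 := by simp [ph, wtg, wtl]
        have h3 : phS K ((zl i, top') :: st) = ph K top' + th K (zl i) + phS K st := by
          simp [phS]
        have h4 : wtl K (Sum.inr (zl i) :: κ3) = wt K (.inr (zl i)) + wtl K κ3 := by
          simp [wtl]
        rw [h2, h3] at h1
        rw [h4]
        push_cast
        linarith
      cases st with
      | nil => exact hpush (by simp [rdZ, nfOf, gv])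
      | cons e rest =>
        by_cases hpop : e.1 = zl i ∧ gv top'.2 = 1
        · obtain ⟨he, hg⟩ := hpop
          have h0 : rdZ (zl i) (nfOf top' (e :: rest)) = nfOf e.2 rest := by
            simp [rdZ, nfOf, he, hg]
          obtain ⟨hst1, hst2, hst3⟩ := hst
          have h1 := ih (i + 1) e.2 rest κ3 (by simpa using hκ2)
            (by rw [← h0]; exact hrun1) (hst1 i he.symm) hst2 hst3
          have h2 : Good (zl i) top'.1 := by
            refine good_of_inv (zl i) top.1 i rfl ?_
            have : (List.head? (e :: rest)).map Prod.fst = some (zl i) := by simp [he]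
            rw [this] at hinv
            exact hinv
          have h3 := frame_closed K hK top' hsub' (trivG_of_gv hg) (zl i) h2
          have h4 : wtl K (Sum.inr (zl i) :: κ3) = wt K (.inr (zl i)) + wtl K κ3 := by
            simp [wtl]
          have h5 : phS K (e :: rest) = ph K e.2 + th K (zl i) + phS K rest := by
            simp [phS, he]
          rw [h4, h5]
          push_cast
          linarith
        · refine hpush ?_
          have h0 := rdZ_push (zl i) (gv top'.2) (e.1, gv e.2.2)
            (rest.map (fun e => (e.1, gv e.2.2))) hpop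
          simpa [nfOf, gv] using h0

theorem base_lower (K : ℕ) (hK : DLK K) (n : ℕ) (κ : List Lt) (hs : κ.Sublist (perN n))
    (ht : TrivW κ) : (wtl K κ : ℝ) + n * slope K ≤ wtl K (perN n) := by
  have h := machine K hK (10 * n) 0 ([], []) [] κ (by rw [rem_perN]; exact hs)
    (by
      have := run_of_trivW ht
      simpa [nfOf, gv] using this) trivial (List.Sublist.refl _) trivial
  rw [lamN_per, rem_perN] at h
  have h2 : ph K (([], []) : Frame) = 0 := by simp [ph, wtg, wtl]
  have h3 : phS K [] = 0 := by simp [phS]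
  rw [h2, h3] at h
  linarith

end Pool.Agent.Lib.MP_60edde_al.Neg
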