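import Mathlib
import Pool.Agent.Lib.MP_60edde_al.Neg.Defs

/-!
MP_60edde_al, negative answer, piece P10: the explicit upper bound for the powers of the period,
in an abstract group with a conjugation invariant length (Fibonacci words).
-/

namespace Pool.Agent.Lib.MP_60edde_al.Neg

namespace UpperAux

/-! ### Fibonacci words -/

/-- the Fibonacci words -/
def ff : ℕ → List Bool
  | 0 => [true]
  | 1 => [false]
  | (n + 2) => ff (n + 1) ++ ff n

/-- the substitution a -> ab, b -> a -/
def sg (s : List Bool) : List Bool := s.flatMap (fun x => if x then [false] else [false, true])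

/-- the substitution a -> ba, b -> a -/
def sr (s : List Bool) : List Bool := s.flatMap (fun x => if x then [false] else [true, false])

/-- number of letters a -/
def nA (u : List Bool) : ℕ := u.countP (fun x => x = false)

theorem nA_cons (x : Bool) (u : List Bool) : nA (x :: u) = nA u + if x then 0 else 1 := by
  unfold nA; rw [List.countP_cons]; cases x <;> simp
theorem nA_append (u v : List Bool) : nA (u ++ v) = nA u + nA v := by
  unfold nA; rw [List.countP_append]
theorem nA_reverse (u : List Bool) : nA u.reverse = nA u := by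
  unfold nA; rw [List.countP_reverse]

theorem ff_length (n : ℕ) : (ff n).length = Nat.fib (n + 1) := by
  induction n using Nat.twoStepInduction with
  | zero => rfl
  | one => rfl
  | more n h1 h2 =>
    rw [ff, List.length_append, h1, h2, Nat.fib_add_two (n := n + 1), add_comm]

theorem ff_nA (n : ℕ) : nA (ff n) = Nat.fib n := by
  induction n using Nat.twoStepInduction with
  | zero => rfl
  | one => rfl
  | more n h1 h2 => rw [ff, nA_append, h1, h2, Nat.fib_add_two, add_comm]

theorem sg_append (u v : List Bool) : sg (u ++ v) = sg u ++ sg v := by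
  unfold sg; rw [List.flatMap_append]
theorem sr_append (u v : List Bool) : sr (u ++ v) = sr u ++ sr v := by
  unfold sr; rw [List.flatMap_append]

theorem sg_ff (n : ℕ) : sg (ff n) = ff (n + 1) := by
  induction n using Nat.twoStepInduction with
  | zero => rfl
  | one => rfl
  | more n h1 h2 => rw [ff, sg_append, h1, h2, ← ff]

theorem sr_reverse (u : List Bool) : sr u.reverse = (sg u).reverse := by
  induction u with
  | nil => rfl
  | cons x u ih =>
    rw [List.reverse_cons, sr_append, ih]
    have : sg (x :: u) = (if x then [false] else [false, true]) ++ sg u := by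
      unfold sg; rw [List.flatMap_cons]
    rw [this, List.reverse_append]
    cases x <;> rfl

section
variable {G : Type*} [Group G]

/-! ### General facts on words of involutions -/

theorem prod_reverse_inv (l : List G) (h : ∀ x ∈ l, x * x = 1) : l.reverse.prod = l.prod⁻¹ := by
  rw [List.prod_inv_reverse]
  congr 1
  rw [← List.map_reverse]
  conv_lhs => rw [← List.map_id l.reverse]
  apply List.map_congr_left
  intro x hx
  have := h x (List.mem_reverse.1 hx)
  exact (eq_inv_of_mul_eq_one_left this)

variable (f : Lt → G)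

/-- the value of a port in the factor A -/
def XA (x : Bool) : G := ((List.finRange 6).map (fun i => f (.inl (.A (x, i))))).prod
/-- the value of a port in the factor B -/
def XB (x : Bool) : G := ((List.finRange 6).map (fun i => f (.inl (.B (x, i))))).prod
/-- the value of a word in A -/
def HA (l : List P6) : G := (l.map (fun x => f (.inl (.A x)))).prod
/-- the value of a word in B -/
def HB (l : List P6) : G := (l.map (fun x => f (.inl (.B x)))).prod
/-- the value of `δδ'` -/
def dd (c : Cls) : G := f (.inl (.D (c, false))) * f (.inl (.D (c, true)))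
/-- the value of a block -/
def bk (b : Cls × Bool) : G := ((blk b).map (fun s => f (.inl s))).prod

theorem HA_append (l m : List P6) : HA f (l ++ m) = HA f l * HA f m := by
  unfold HA; rw [List.map_append, List.prod_append]
theorem HB_append (l m : List P6) : HB f (l ++ m) = HB f l * HB f m := by
  unfold HB; rw [List.map_append, List.prod_append]

theorem HA_sport_true (x : Bool) : HA f (sport (x, true)) = XA f x := by
  unfold HA XA sport; rw [if_pos rfl, List.map_map]; rfl
theorem HB_sport_true (x : Bool) : HB f (sport (x, true)) = XB f x := by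
  unfold HB XB sport; rw [if_pos rfl, List.map_map]; rfl

variable (hf : ∀ s, f s * f s = 1)
include hf

theorem HA_sport_false (x : Bool) : HA f (sport (x, false)) = (XA f x)⁻¹ := by
  unfold HA XA sport
  rw [if_neg (by simp), List.map_reverse, List.map_map, prod_reverse_inv]
  · rfl
  · intro y hy
    obtain ⟨i, -, rfl⟩ := List.mem_map.1 hy
    exact hf _
theorem HB_sport_false (x : Bool) : HB f (sport (x, false)) = (XB f x)⁻¹ := by
  unfold HB XB sport
  rw [if_neg (by simp), List.map_reverse, List.map_map, prod_reverse_inv]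
  · rfl
  · intro y hy
    obtain ⟨i, -, rfl⟩ := List.mem_map.1 hy
    exact hf _

omit hf in
theorem HA_enc_true (u : List Bool) : HA f (enc (u.map (fun x => (x, true)))) =
    (u.map (XA f)).prod := by
  induction u with
  | nil => rfl
  | cons x u ih =>
    have : enc ((x :: u).map (fun x => (x, true))) = sport (x, true) ++
      enc (u.map (fun x => (x, true))) := by unfold enc; rw [List.map_cons, List.flatMap_cons]
    rw [this, HA_append, ih, HA_sport_true, List.map_cons, List.prod_cons]

omit hf in
theorem HB_enc_true (u : List Bool) : HB f (enc (u.map (fun x => (x, true)))) =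
    (u.map (XB f)).prod := by
  induction u with
  | nil => rfl
  | cons x u ih =>
    have : enc ((x :: u).map (fun x => (x, true))) = sport (x, true) ++
      enc (u.map (fun x => (x, true))) := by unfold enc; rw [List.map_cons, List.flatMap_cons]
    rw [this, HB_append, ih, HB_sport_true, List.map_cons, List.prod_cons]

theorem HA_enc_false (u : List Bool) : HA f (enc (u.map (fun x => (x, false)))) =
    ((u.reverse.map (XA f)).prod)⁻¹ := by
  induction u with
  | nil => simp [HA, enc]
  | cons x u ih =>
    have : enc ((x :: u).map (fun x => (x, false))) = sport (x, false) ++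
      enc (u.map (fun x => (x, false))) := by unfold enc; rw [List.map_cons, List.flatMap_cons]
    rw [this, HA_append, ih, HA_sport_false f hf, List.reverse_cons, List.map_append,
      List.prod_append, mul_inv_rev]
    simp

theorem HB_enc_false (u : List Bool) : HB f (enc (u.map (fun x => (x, false)))) =
    ((u.reverse.map (XB f)).prod)⁻¹ := by
  induction u with
  | nil => simp [HB, enc]
  | cons x u ih =>
    have : enc ((x :: u).map (fun x => (x, false))) = sport (x, false) ++
      enc (u.map (fun x => (x, false))) := by unfold enc; rw [List.map_cons, List.flatMap_cons]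
    rw [this, HB_append, ih, HB_sport_false f hf, List.reverse_cons, List.map_append,
      List.prod_append, mul_inv_rev]
    simp

omit hf
variable (hc : ∀ s t, comm s t = true → f s * f t = f t * f s)
include hc

theorem comm_AB (l m : List P6) : Commute (HA f l) (HB f m) := by
  unfold HA HB
  apply Commute.list_prod_left
  intro x hx
  apply Commute.list_prod_right
  intro y hy
  obtain ⟨a, -, rfl⟩ := List.mem_map.1 hx
  obtain ⟨b, -, rfl⟩ := List.mem_map.1 hy
  exact hc _ _ rfl

theorem comm_AD (l : List P6) (c : Cls) : Commute (HA f l) (dd f c) := by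
  unfold HA dd
  apply Commute.list_prod_left
  intro x hx
  obtain ⟨a, -, rfl⟩ := List.mem_map.1 hx
  exact Commute.mul_right (hc _ _ rfl) (hc _ _ rfl)

theorem comm_BD (l : List P6) (c : Cls) : Commute (HB f l) (dd f c) := by
  unfold HB dd
  apply Commute.list_prod_left
  intro x hx
  obtain ⟨a, -, rfl⟩ := List.mem_map.1 hx
  exact Commute.mul_right (hc _ _ rfl) (hc _ _ rfl)

omit hc in
theorem bk_eq (b : Cls × Bool) : bk f b = HA f (enc (portA b)) * HB f (enc (portB b)) * dd f b.1 := by
  unfold bk blk HA HB dd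
  rw [List.map_append, List.map_append, List.prod_append, List.prod_append, List.map_map,
    List.map_map]
  simp only [List.map_cons, List.map_nil, List.prod_cons, List.prod_nil, mul_one]
  rw [← mul_assoc]
  rfl

/-- product of the blocks of one class -/
theorem bk_prod (c : Cls) (u : List Bool) :
    (u.map (fun x => bk f (c, x))).prod =
      HA f (enc (u.flatMap (fun x => portA (c, x)))) *
        HB f (enc (u.flatMap (fun x => portB (c, x)))) * dd f c ^ u.length := by
  induction u with
  | nil => simp [HA, HB, enc]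
  | cons x u ih =>
    rw [List.map_cons, List.prod_cons, ih, bk_eq, List.flatMap_cons, List.flatMap_cons]
    have e1 : ∀ π ρ : List (Bool × Bool), enc (π ++ ρ) = enc π ++ enc ρ := by
      intro π ρ; unfold enc; rw [List.flatMap_append]
    rw [e1, e1, HA_append, HB_append, List.length_cons, pow_succ']
    have c1 := comm_AB f hc (enc (u.flatMap (fun x => portA (c, x)))) (enc (portB (c, x)))
    have c2 := comm_AD f hc (enc (u.flatMap (fun x => portA (c, x)))) c
    have c3 := comm_BD f hc (enc (u.flatMap (fun x => portB (c, x)))) c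
    generalize HA f (enc (portA (c, x))) = a1 at *
    generalize HB f (enc (portB (c, x))) = b1 at *
    generalize HA f (enc (u.flatMap (fun x => portA (c, x)))) = a2 at *
    generalize HB f (enc (u.flatMap (fun x => portB (c, x)))) = b2 at *
    change a1 * b1 * dd f c * (a2 * b2 * dd f c ^ u.length) =
      a1 * a2 * (b1 * b2) * (dd f c * dd f c ^ u.length)
    calc a1 * b1 * dd f c * (a2 * b2 * dd f c ^ u.length)
        = a1 * b1 * (dd f c * a2) * b2 * dd f c ^ u.length := by simp only [mul_assoc]
      _ = a1 * b1 * (a2 * dd f c) * b2 * dd f c ^ u.length := by rw [c2.eq]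
      _ = a1 * (b1 * a2) * (dd f c * b2) * dd f c ^ u.length := by simp only [mul_assoc]
      _ = a1 * (a2 * b1) * (b2 * dd f c) * dd f c ^ u.length := by rw [c1.eq, c3.eq]
      _ = _ := by simp only [mul_assoc]

omit hc in
theorem leo {a1 b1 d1 a2 b2 d2 a3 b3 d3 : G} (h1 : Commute d1 a2) (h2 : Commute d1 a3)
    (h3 : Commute d2 a3) (h4 : Commute b1 a2) (h5 : Commute b1 a3) (h6 : Commute b2 a3)
    (h7 : Commute d1 b2) (h8 : Commute d1 b3) (h9 : Commute d2 b3) :
    (a1 * b1 * d1) * (a2 * b2 * d2) * (a3 * b3 * d3) =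
      (a1 * a2 * a3) * (b1 * b2 * b3) * (d1 * d2 * d3) := by
  simp only [mul_assoc]
  rw [h1.left_comm, h4.left_comm, h3.left_comm, h6.left_comm, h2.left_comm, h5.left_comm,
    h7.left_comm, h9.left_comm, h8.left_comm]

end

/-! ### Costs -/

section
variable {G : Type*} [Group G] (c : G → ℕ) (c1 : c 1 = 0)
    (cm : ∀ x y, c (x * y) ≤ c x + c y) (cc : ∀ x y, c (y * x * y⁻¹) ≤ c x)

include cc in
theorem cinv (x y : G) : c (y⁻¹ * x * y) ≤ c x := by
  have := cc x y⁻¹
  rwa [inv_inv] at this

include cm cc in
/-- replacing a factor -/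
theorem repl (u x y v : G) : c (u * x * v) ≤ c (u * y * v) + c (y⁻¹ * x) := by
  have h : u * x * v = (u * y * v) * (v⁻¹ * (y⁻¹ * x) * v) := by group
  rw [h]
  exact (cm _ _).trans (Nat.add_le_add_left (cinv c cc _ _) _)

include cm cc in
/-- deleting a factor -/
theorem delf (u x v : G) : c (u * x * v) ≤ c (u * v) + c x := by
  have := repl c cm cc u x 1 v
  simpa using this

include cm cc in
theorem rep (P : G) (D : ℕ) (y : Bool → G)
    (hy : ∀ x, c ((y x)⁻¹ * P) + (if x then 0 else 2) ≤ D) (l : List Bool) (u v : G) :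
    c (u * P ^ l.length * v) + 2 * nA l ≤ l.length * D + c (u * (l.map y).prod * v) := by
  induction l generalizing u with
  | nil => simp [nA]
  | cons x l ih =>
    have h1 := ih (u * y x)
    have h2 := repl c cm cc u P (y x) (P ^ l.length * v)
    have h3 := hy x
    rw [List.length_cons, pow_succ', List.map_cons, List.prod_cons, nA_cons]
    rw [show u * (P * P ^ l.length) * v = u * P * (P ^ l.length * v) by simp only [mul_assoc],
      show u * (y x * (l.map y).prod) * v = u * y x * (l.map y).prod * v by simp only [mul_assoc],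
      Nat.add_mul, Nat.one_mul]
    rw [show u * y x * P ^ l.length * v = u * y x * (P ^ l.length * v) by
      simp only [mul_assoc]] at h1
    cases x
    · simp only [Bool.false_eq_true, if_false] at h3 ⊢
      omega
    · simp only [if_true] at h3 ⊢
      omega

include cc in
theorem pow_aux (s t : G) (hs : s * s = 1) (ht : t * t = 1) (w : ℕ) (ws : c s ≤ w) (wt' : c t ≤ w)
    (j : ℕ) : c (t * (s * t) ^ j) ≤ w := by
  have is : s⁻¹ = s := inv_eq_of_mul_eq_one_left hs
  have it : t⁻¹ = t := inv_eq_of_mul_eq_one_left ht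
  induction j using Nat.twoStepInduction with
  | zero => simpa using wt'
  | one =>
    have : t * (s * t) ^ 1 = t * s * t⁻¹ := by rw [it, pow_one, mul_assoc]
    rw [this]
    exact (cc _ _).trans ws
  | more j h1 _ =>
    have : t * (s * t) ^ (j + 2) = (t * s) * (t * (s * t) ^ j) * (t * s)⁻¹ := by
      rw [mul_inv_rev, is, it, show j + 2 = 1 + j + 1 by omega, pow_succ, pow_add, pow_one]
      simp only [mul_assoc]
    rw [this]
    exact (cc _ _).trans h1

include c1 cm cc in
theorem pow_le (s t : G) (hs : s * s = 1) (ht : t * t = 1) (w : ℕ) (ws : c s ≤ w) (wt' : c t ≤ w)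
    (k : ℕ) : c ((s * t) ^ k) ≤ 2 * w := by
  cases k with
  | zero => simp [c1]
  | succ k =>
    rw [pow_succ', mul_assoc]
    have h1 := cm s (t * (s * t) ^ k)
    have h2 := pow_aux c cc s t hs ht w ws wt' k
    omega

variable (f : Lt → G) (K : ℕ) (cf : ∀ s, c (f s) ≤ wt K s)

include c1 cm cf in
theorem c_list (l : List Lt) : c ((l.map f).prod) ≤ wtl K l := by
  induction l with
  | nil => simp [c1, wtl]
  | cons s l ih =>
    rw [List.map_cons, List.prod_cons]
    have h1 := cm (f s) (l.map f).prod
    have h2 := cf s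
    have h3 : wtl K (s :: l) = wt K s + wtl K l := by unfold wtl; rw [List.map_cons, List.sum_cons]
    omega

theorem wtl_app (l m : List Lt) : wtl K (l ++ m) = wtl K l + wtl K m := by
  unfold wtl; rw [List.map_append, List.sum_append]

theorem enc_len (π : List (Bool × Bool)) : (enc π).length = 6 * π.length := by
  induction π with
  | nil => rfl
  | cons x π ih =>
    have : enc (x :: π) = sport x ++ enc π := by unfold enc; rw [List.flatMap_cons]
    rw [this, List.length_append, ih, List.length_cons]
    have : (sport x).length = 6 := by unfold sport; split_ifs <;> simp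
    omega

theorem wtl_A (l : List P6) : wtl K ((l.map GLt.A).map Sum.inl) = wM K * l.length := by
  induction l with
  | nil => rfl
  | cons x l ih =>
    have : wtl K (((x :: l).map GLt.A).map Sum.inl) =
      wM K + wtl K ((l.map GLt.A).map Sum.inl) := by
      unfold wtl; simp only [List.map_cons, List.sum_cons]; rfl
    rw [this, ih, List.length_cons]; ring

theorem wtl_B (l : List P6) : wtl K ((l.map GLt.B).map Sum.inl) = wM K * l.length := by
  induction l with
  | nil => rfl
  | cons x l ih =>
    have : wtl K (((x :: l).map GLt.B).map Sum.inl) =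
      wM K + wtl K ((l.map GLt.B).map Sum.inl) := by
      unfold wtl; simp only [List.map_cons, List.sum_cons]; rfl
    rw [this, ih, List.length_cons]; ring

theorem wtg_blk (k : Cls) (x : Bool) : wtg K (blk (k, x)) = if x then wP K k else wQ K := by
  unfold wtg blk
  rw [List.map_append, List.map_append, wtl_app, wtl_app, wtl_A, wtl_B, enc_len, enc_len]
  have : wtl K (([GLt.D (k, false), GLt.D (k, true)] : List GLt).map Sum.inl) =
      wD K k + wD K k := by simp [wtl, wt]
  rw [this]
  cases k <;> cases x <;> simp [portA, portB, wP, wQ, wD] <;> ring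

include c1 cm cf in
theorem c_bk (k : Cls) (x : Bool) : c (bk f (k, x)) ≤ if x then wP K k else wQ K := by
  rw [← wtg_blk]
  have := c_list c c1 cm f K cf ((blk (k, x)).map Sum.inl)
  rw [List.map_map] at this
  exact this

omit [Group G] in
include cf in
theorem c_bt (k : Cls) : 2 * c (f (.inr (.bt k))) + 2 ≤ wP K k := by
  have h := cf (.inr (.bt k))
  change c _ ≤ wP K k / 2 - 1 at h
  have h2 : 4 ≤ wP K k ∧ wP K k % 2 = 0 := by
    cases k <;> simp only [wP, wQ] <;> omega
  omega

include c1 cm cc cf in
theorem c_dd (hf : ∀ s, f s * f s = 1) (k : Cls) (n : ℕ) : c (dd f k ^ n) ≤ 2 * wD K k := by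
  unfold dd
  exact pow_le c c1 cm cc _ _ (hf _) (hf _) (wD K k) (cf (.inl (.D (k, false))))
    (cf (.inl (.D (k, true)))) n

end

/-- one period, explicitly -/
theorem per_prod {G : Type*} [Group G] (f : Lt → G) : (per.map f).prod =
    (bk f (.L, false) * f (.inr (.bt .L)) * bk f (.L, true) * f (.inr (.bt .L))) *
    (f (.inr .tE) * (f (.inr (.bt .E)) * bk f (.E, true) * f (.inr (.bt .E)) * bk f (.E, false)) *
      f (.inr .tE)) *
    (f (.inr .tO) * (bk f (.O, false) * f (.inr (.bt .O)) * bk f (.O, true) * f (.inr (.bt .O))) *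
      f (.inr .tO)) := by
  have h : ∀ b, ((blk b).map (f ∘ Sum.inl)).prod = bk f b := fun b => rfl
  simp only [per, List.finRange_succ, List.finRange_zero, List.map_nil, List.map_cons,
    List.flatMap_cons, List.flatMap_nil, List.map_append, List.prod_append, List.prod_cons,
    List.prod_nil, arcW, arc, zl]
  simp [h, mul_assoc]

/-! ### The three products -/

section
variable {G : Type*} [Group G] (f : Lt → G)

/-- L-periods -/
def yL (x : Bool) : G := if x then bk f (.L, false) else bk f (.L, false) * bk f (.L, true)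
/-- E-periods -/
def yE (x : Bool) : G := f (.inr .tE) *
  (if x then bk f (.E, false) else bk f (.E, true) * bk f (.E, false)) * f (.inr .tE)
/-- O-periods -/
def yO (x : Bool) : G := f (.inr .tO) *
  (if x then bk f (.O, false) else bk f (.O, false) * bk f (.O, true)) * f (.inr .tO)

theorem yL_prod (l : List Bool) :
    (l.map (yL f)).prod = ((sg l).map (fun z => bk f (.L, z))).prod := by
  induction l with
  | nil => rfl
  | cons x l ih =>
    have : sg (x :: l) = (if x then [false] else [false, true]) ++ sg l := by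
      unfold sg; rw [List.flatMap_cons]
    rw [List.map_cons, List.prod_cons, ih, this, List.map_append, List.prod_append]
    cases x <;> simp [yL]

variable (hf : ∀ s, f s * f s = 1)
include hf

theorem yE_prod (l : List Bool) : (l.map (yE f)).prod =
    f (.inr .tE) * ((sr l).map (fun z => bk f (.E, z))).prod * f (.inr .tE) := by
  induction l with
  | nil => simp [sr, hf]
  | cons x l ih =>
    have : sr (x :: l) = (if x then [false] else [true, false]) ++ sr l := by
      unfold sr; rw [List.flatMap_cons]
    rw [List.map_cons, List.prod_cons, ih, this, List.map_append, List.prod_append]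
    have h : ∀ a b : G, f (.inr .tE) * a * f (.inr .tE) * (f (.inr .tE) * b * f (.inr .tE)) =
        f (.inr .tE) * (a * b) * f (.inr .tE) := by
      intro a b
      calc f (.inr .tE) * a * f (.inr .tE) * (f (.inr .tE) * b * f (.inr .tE))
          = f (.inr .tE) * a * (f (.inr .tE) * f (.inr .tE)) * b * f (.inr .tE) := by
            simp only [mul_assoc]
        _ = _ := by rw [hf]; simp only [mul_assoc, mul_one]
    cases x <;> simp only [yE, Bool.false_eq_true, if_false, if_true, List.map_cons, List.map_nil,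
      List.prod_cons, List.prod_nil, mul_one] <;> rw [h]

theorem yO_prod (l : List Bool) : (l.map (yO f)).prod =
    f (.inr .tO) * ((sg l).map (fun z => bk f (.O, z))).prod * f (.inr .tO) := by
  induction l with
  | nil => simp [sg, hf]
  | cons x l ih =>
    have : sg (x :: l) = (if x then [false] else [false, true]) ++ sg l := by
      unfold sg; rw [List.flatMap_cons]
    rw [List.map_cons, List.prod_cons, ih, this, List.map_append, List.prod_append]
    have h : ∀ a b : G, f (.inr .tO) * a * f (.inr .tO) * (f (.inr .tO) * b * f (.inr .tO)) =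
        f (.inr .tO) * (a * b) * f (.inr .tO) := by
      intro a b
      calc f (.inr .tO) * a * f (.inr .tO) * (f (.inr .tO) * b * f (.inr .tO))
          = f (.inr .tO) * a * (f (.inr .tO) * f (.inr .tO)) * b * f (.inr .tO) := by
            simp only [mul_assoc]
        _ = _ := by rw [hf]; simp only [mul_assoc, mul_one]
    cases x <;> simp only [yO, Bool.false_eq_true, if_false, if_true, List.map_cons, List.map_nil,
      List.prod_cons, List.prod_nil, mul_one] <;> rw [h]

end

/-! ### Costs of replacing a period -/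

section
variable {G : Type*} [Group G] (f : Lt → G) (hf : ∀ s, f s * f s = 1) (K : ℕ) (c : G → ℕ)
    (c1 : c 1 = 0) (cm : ∀ x y, c (x * y) ≤ c x + c y) (cc : ∀ x y, c (y * x * y⁻¹) ≤ c x)
    (cf : ∀ s, c (f s) ≤ wt K s)

include hf in
theorem finv (s : Lt) : (f s)⁻¹ = f s := inv_eq_of_mul_eq_one_left (hf s)

include hf cc in
theorem cconj (s : Lt) (x : G) : c (f s * x * f s) ≤ c x := by
  have := cc x (f s)
  rwa [finv f hf] at this

include cm in
theorem c3 (x y z : G) : c (x * y * z) ≤ c x + c y + c z :=
  (cm _ _).trans (Nat.add_le_add_right (cm _ _) _)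

/-- the bound for one period -/
def DD (K : ℕ) : ℕ := 2 * wQ K + (wP K .E + wP K .O + wP K .L)

include hf c1 cm cc cf

theorem cost_a1 : c (bk f (.L, false) * f (.inr (.bt .L)) * bk f (.L, true) * f (.inr (.bt .L))) ≤
    wQ K + wP K .L := by
  have h1 := c_bk c c1 cm f K cf .L false
  have h2 := c_bk c c1 cm f K cf .L true
  have h3 := cconj f hf c cc (.inr (.bt .L)) (bk f (.L, true))
  have h4 := cm (bk f (.L, false)) (f (.inr (.bt .L)) * bk f (.L, true) * f (.inr (.bt .L)))
  simp only [Bool.false_eq_true, if_false, if_true] at h1 h2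
  simp only [mul_assoc] at h3 h4 ⊢
  omega

theorem cost_a2 : c (f (.inr .tE) * (f (.inr (.bt .E)) * bk f (.E, true) * f (.inr (.bt .E)) *
    bk f (.E, false)) * f (.inr .tE)) ≤ wP K .E + wQ K := by
  have h1 := c_bk c c1 cm f K cf .E false
  have h2 := c_bk c c1 cm f K cf .E true
  have h3 := cconj f hf c cc (.inr (.bt .E)) (bk f (.E, true))
  have h4 := cm (f (.inr (.bt .E)) * bk f (.E, true) * f (.inr (.bt .E))) (bk f (.E, false))
  have h5 := cconj f hf c cc (.inr .tE) (f (.inr (.bt .E)) * bk f (.E, true) * f (.inr (.bt .E)) *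
    bk f (.E, false))
  simp only [Bool.false_eq_true, if_false, if_true] at h1 h2
  omega

theorem cost_a3 : c (f (.inr .tO) * (bk f (.O, false) * f (.inr (.bt .O)) * bk f (.O, true) *
    f (.inr (.bt .O))) * f (.inr .tO)) ≤ wQ K + wP K .O := by
  have h1 := c_bk c c1 cm f K cf .O false
  have h2 := c_bk c c1 cm f K cf .O true
  have h3 := cconj f hf c cc (.inr (.bt .O)) (bk f (.O, true))
  have h4 := cm (bk f (.O, false)) (f (.inr (.bt .O)) * bk f (.O, true) * f (.inr (.bt .O)))
  have h5 := cconj f hf c cc (.inr .tO) (bk f (.O, false) * f (.inr (.bt .O)) * bk f (.O, true) *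
    f (.inr (.bt .O)))
  simp only [Bool.false_eq_true, if_false, if_true] at h1 h2
  rw [show bk f (.O, false) * f (.inr (.bt .O)) * bk f (.O, true) * f (.inr (.bt .O)) =
    bk f (.O, false) * (f (.inr (.bt .O)) * bk f (.O, true) * f (.inr (.bt .O))) by
      simp only [mul_assoc]] at h5 ⊢
  omega

theorem cost_L (x : Bool) : c ((yL f x)⁻¹ * (per.map f).prod) + (if x then 0 else 2) ≤ DD K := by
  rw [per_prod]
  have g2 := cost_a2 f hf K c c1 cm cc cf
  have g3 := cost_a3 f hf K c c1 cm cc cf
  obtain ⟨a2, ha2⟩ : ∃ a, a = f (.inr .tE) * (f (.inr (.bt .E)) * bk f (.E, true) *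
    f (.inr (.bt .E)) * bk f (.E, false)) * f (.inr .tE) := ⟨_, rfl⟩
  obtain ⟨a3, ha3⟩ : ∃ a, a = f (.inr .tO) * (bk f (.O, false) * f (.inr (.bt .O)) *
    bk f (.O, true) * f (.inr (.bt .O))) * f (.inr .tO) := ⟨_, rfl⟩
  rw [← ha2] at g2 ⊢
  rw [← ha3] at g3 ⊢
  have h2 := c_bk c c1 cm f K cf .L true
  have h3 := cconj f hf c cc (.inr (.bt .L)) (bk f (.L, true))
  have hb := c_bt c f K cf .L
  simp only [if_true] at h2
  unfold DD
  cases x
  · simp only [yL, Bool.false_eq_true, if_false]
    have e : (bk f (.L, false) * bk f (.L, true))⁻¹ *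
        (bk f (.L, false) * f (.inr (.bt .L)) * bk f (.L, true) * f (.inr (.bt .L)) * a2 * a3) =
        ((bk f (.L, true))⁻¹ * f (.inr (.bt .L)) * bk f (.L, true)) * f (.inr (.bt .L)) *
          (a2 * a3) := by group
    rw [e]
    have k1 := c3 c cm ((bk f (.L, true))⁻¹ * f (.inr (.bt .L)) * bk f (.L, true))
      (f (.inr (.bt .L))) (a2 * a3)
    have k2 := cinv c cc (f (.inr (.bt .L))) (bk f (.L, true))
    have k3 := cm a2 a3
    omega
  · simp only [yL, if_true]
    have e : (bk f (.L, false))⁻¹ *
        (bk f (.L, false) * f (.inr (.bt .L)) * bk f (.L, true) * f (.inr (.bt .L)) * a2 * a3) =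
        (f (.inr (.bt .L)) * bk f (.L, true) * f (.inr (.bt .L))) * a2 * a3 := by group
    rw [e]
    have k1 := c3 c cm (f (.inr (.bt .L)) * bk f (.L, true) * f (.inr (.bt .L))) a2 a3
    omega

theorem cost_E (x : Bool) : c ((yE f x)⁻¹ * (per.map f).prod) + (if x then 0 else 2) ≤ DD K := by
  rw [per_prod]
  have g1 := cost_a1 f hf K c c1 cm cc cf
  have g3 := cost_a3 f hf K c c1 cm cc cf
  obtain ⟨a1, ha1⟩ : ∃ a, a = bk f (.L, false) * f (.inr (.bt .L)) * bk f (.L, true) *
    f (.inr (.bt .L)) := ⟨_, rfl⟩
  obtain ⟨a3, ha3⟩ : ∃ a, a = f (.inr .tO) * (bk f (.O, false) * f (.inr (.bt .O)) *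
    bk f (.O, true) * f (.inr (.bt .O))) * f (.inr .tO) := ⟨_, rfl⟩
  rw [← ha1] at g1 ⊢
  rw [← ha3] at g3 ⊢
  have h2 := c_bk c c1 cm f K cf .E true
  have h3 := cconj f hf c cc (.inr (.bt .E)) (bk f (.E, true))
  have hb := c_bt c f K cf .E
  simp only [if_true] at h2
  obtain ⟨a2, ha2⟩ : ∃ a, a = f (.inr .tE) * (f (.inr (.bt .E)) * bk f (.E, true) *
    f (.inr (.bt .E)) * bk f (.E, false)) * f (.inr .tE) := ⟨_, rfl⟩
  rw [← ha2]
  have e : ∀ y : G, y⁻¹ * (a1 * a2 * a3) = (y⁻¹ * a1 * y) * (y⁻¹ * a2) * a3 := by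
    intro y; group
  rw [e]
  have k1 := c3 c cm ((yE f x)⁻¹ * a1 * yE f x) ((yE f x)⁻¹ * a2) a3
  have k2 := cinv c cc a1 (yE f x)
  have k3 : c ((yE f x)⁻¹ * a2) + (if x then 0 else 2) ≤ wP K .E := by
    rw [ha2]
    cases x
    · simp only [yE, Bool.false_eq_true, if_false]
      have e2 : (f (.inr .tE) * (bk f (.E, true) * bk f (.E, false)) * f (.inr .tE))⁻¹ *
          (f (.inr .tE) * (f (.inr (.bt .E)) * bk f (.E, true) * f (.inr (.bt .E)) *
            bk f (.E, false)) * f (.inr .tE)) =
          (bk f (.E, false) * f (.inr .tE))⁻¹ * (((bk f (.E, true))⁻¹ * f (.inr (.bt .E)) *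
            bk f (.E, true)) * f (.inr (.bt .E))) * (bk f (.E, false) * f (.inr .tE)) := by
        group
      rw [e2]
      have q1 := cinv c cc (((bk f (.E, true))⁻¹ * f (.inr (.bt .E)) *
            bk f (.E, true)) * f (.inr (.bt .E))) (bk f (.E, false) * f (.inr .tE))
      have q2 := cm ((bk f (.E, true))⁻¹ * f (.inr (.bt .E)) * bk f (.E, true)) (f (.inr (.bt .E)))
      have q3 := cinv c cc (f (.inr (.bt .E))) (bk f (.E, true))
      omega
    · simp only [yE, if_true]
      have e2 : (f (.inr .tE) * bk f (.E, false) * f (.inr .tE))⁻¹ *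
          (f (.inr .tE) * (f (.inr (.bt .E)) * bk f (.E, true) * f (.inr (.bt .E)) *
            bk f (.E, false)) * f (.inr .tE)) =
          (bk f (.E, false) * f (.inr .tE))⁻¹ * (f (.inr (.bt .E)) *
            bk f (.E, true) * f (.inr (.bt .E))) * (bk f (.E, false) * f (.inr .tE)) := by
        group
      rw [e2]
      have q1 := cinv c cc (f (.inr (.bt .E)) * bk f (.E, true) * f (.inr (.bt .E)))
        (bk f (.E, false) * f (.inr .tE))
      omega
  unfold DD
  omega

theorem cost_O (x : Bool) : c ((yO f x)⁻¹ * (per.map f).prod) + (if x then 0 else 2) ≤ DD K := by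
  rw [per_prod]
  have g1 := cost_a1 f hf K c c1 cm cc cf
  have g2 := cost_a2 f hf K c c1 cm cc cf
  obtain ⟨a1, ha1⟩ : ∃ a, a = bk f (.L, false) * f (.inr (.bt .L)) * bk f (.L, true) *
    f (.inr (.bt .L)) := ⟨_, rfl⟩
  obtain ⟨a2, ha2⟩ : ∃ a, a = f (.inr .tE) * (f (.inr (.bt .E)) * bk f (.E, true) *
    f (.inr (.bt .E)) * bk f (.E, false)) * f (.inr .tE) := ⟨_, rfl⟩
  rw [← ha1] at g1 ⊢
  rw [← ha2] at g2 ⊢
  have h2 := c_bk c c1 cm f K cf .O true
  have h3 := cconj f hf c cc (.inr (.bt .O)) (bk f (.O, true))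
  have hb := c_bt c f K cf .O
  simp only [if_true] at h2
  obtain ⟨a3, ha3⟩ : ∃ a, a = f (.inr .tO) * (bk f (.O, false) * f (.inr (.bt .O)) *
    bk f (.O, true) * f (.inr (.bt .O))) * f (.inr .tO) := ⟨_, rfl⟩
  rw [← ha3]
  have e : ∀ y : G, y⁻¹ * (a1 * a2 * a3) = (y⁻¹ * a1 * y) * (y⁻¹ * a2 * y) * (y⁻¹ * a3) := by
    intro y; group
  rw [e]
  have k1 := c3 c cm ((yO f x)⁻¹ * a1 * yO f x) ((yO f x)⁻¹ * a2 * yO f x) ((yO f x)⁻¹ * a3)
  have k2 := cinv c cc a1 (yO f x)
  have k2' := cinv c cc a2 (yO f x)
  have k3 : c ((yO f x)⁻¹ * a3) + (if x then 0 else 2) ≤ wP K .O := by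
    rw [ha3]
    cases x
    · simp only [yO, Bool.false_eq_true, if_false]
      have e2 : (f (.inr .tO) * (bk f (.O, false) * bk f (.O, true)) * f (.inr .tO))⁻¹ *
          (f (.inr .tO) * (bk f (.O, false) * f (.inr (.bt .O)) * bk f (.O, true) *
            f (.inr (.bt .O))) * f (.inr .tO)) =
          (f (.inr .tO))⁻¹ * (((bk f (.O, true))⁻¹ * f (.inr (.bt .O)) *
            bk f (.O, true)) * f (.inr (.bt .O))) * f (.inr .tO) := by
        group
      rw [e2]
      have q1 := cinv c cc (((bk f (.O, true))⁻¹ * f (.inr (.bt .O)) *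
            bk f (.O, true)) * f (.inr (.bt .O))) (f (.inr .tO))
      have q2 := cm ((bk f (.O, true))⁻¹ * f (.inr (.bt .O)) * bk f (.O, true)) (f (.inr (.bt .O)))
      have q3 := cinv c cc (f (.inr (.bt .O))) (bk f (.O, true))
      omega
    · simp only [yO, if_true]
      have e2 : (f (.inr .tO) * bk f (.O, false) * f (.inr .tO))⁻¹ *
          (f (.inr .tO) * (bk f (.O, false) * f (.inr (.bt .O)) * bk f (.O, true) *
            f (.inr (.bt .O))) * f (.inr .tO)) =
          (f (.inr .tO))⁻¹ * (f (.inr (.bt .O)) *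
            bk f (.O, true) * f (.inr (.bt .O))) * f (.inr .tO) := by
        group
      rw [e2]
      have q1 := cinv c cc (f (.inr (.bt .O)) * bk f (.O, true) * f (.inr (.bt .O)))
        (f (.inr .tO))
      omega
  unfold DD
  omega

end

/-! ### The word `L E O` -/

section
variable {G : Type*} [Group G] (f : Lt → G) (hf : ∀ s, f s * f s = 1)
  (hc : ∀ s t, comm s t = true → f s * f t = f t * f s)

theorem flat_false (u : List Bool) (g : Bool → List (Bool × Bool))
    (hg : ∀ x, g x = [(x, false)]) : u.flatMap g = u.map (fun x => (x, false)) := by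
  induction u with
  | nil => rfl
  | cons x u ih => rw [List.flatMap_cons, ih, hg]; rfl

theorem flat_true (u : List Bool) (g : Bool → List (Bool × Bool))
    (hg : ∀ x, g x = [(x, true)]) : u.flatMap g = u.map (fun x => (x, true)) := by
  induction u with
  | nil => rfl
  | cons x u ih => rw [List.flatMap_cons, ih, hg]; rfl

theorem flat_EA (u : List Bool) :
    u.flatMap (fun x => portA (.E, x)) = (sr u).map (fun x => (x, true)) := by
  induction u with
  | nil => rfl
  | cons x u ih =>
    have : sr (x :: u) = (if x then [false] else [true, false]) ++ sr u := by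
      unfold sr; rw [List.flatMap_cons]
    rw [List.flatMap_cons, ih, this, List.map_append]
    cases x <;> rfl

theorem flat_LB (u : List Bool) : u.flatMap (fun x => portB (.L, x)) = [] := by
  induction u with
  | nil => rfl
  | cons x u ih => rw [List.flatMap_cons, ih]; rfl

include hf hc in
theorem LEO (m : ℕ) :
    ((ff (m + 1)).map (fun z => bk f (.L, z))).prod *
      ((ff (m + 2)).reverse.map (fun z => bk f (.E, z))).prod *
      ((ff (m + 2)).map (fun z => bk f (.O, z))).prod =
    dd f .L ^ (ff (m + 1)).length * dd f .E ^ (ff (m + 2)).reverse.length *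
      dd f .O ^ (ff (m + 2)).length := by
  rw [bk_prod f hc, bk_prod f hc, bk_prod f hc]
  rw [leo]
  · rw [flat_false _ (fun x => portA (.L, x)) (fun _ => rfl),
      flat_EA, flat_false _ (fun x => portA (.O, x)) (fun _ => rfl),
      flat_LB, flat_false _ (fun x => portB (.E, x)) (fun _ => rfl),
      flat_true _ (fun x => portB (.O, x)) (fun _ => rfl), sr_reverse, sg_ff,
      HA_enc_false f hf, HA_enc_true, HA_enc_false f hf, HB_enc_false f hf, HB_enc_true,
      List.reverse_reverse]
    have e1 : ((ff (m + 1)).reverse.map (XA f)).prod⁻¹ *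
        ((ff (m + 2 + 1)).reverse.map (XA f)).prod *
        ((ff (m + 2)).reverse.map (XA f)).prod⁻¹ = 1 := by
      have : ff (m + 2 + 1) = ff (m + 2) ++ ff (m + 1) := rfl
      rw [this, List.reverse_append, List.map_append, List.prod_append]
      group
    have e2 : HB f (enc []) = 1 := rfl
    rw [e1, e2]
    group
  · exact ((comm_AD f hc _ _).symm).pow_left _
  · exact ((comm_AD f hc _ _).symm).pow_left _
  · exact ((comm_AD f hc _ _).symm).pow_left _
  · exact (comm_AB f hc _ _).symm
  · exact (comm_AB f hc _ _).symm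
  · exact (comm_AB f hc _ _).symm
  · exact ((comm_BD f hc _ _).symm).pow_left _
  · exact ((comm_BD f hc _ _).symm).pow_left _
  · exact ((comm_BD f hc _ _).symm).pow_left _

end

end UpperAux

open UpperAux in
theorem upper {G : Type*} [Group G] (f : Lt → G) (hf : ∀ s, f s * f s = 1)
    (hc : ∀ s t, comm s t = true → f s * f t = f t * f s) (K : ℕ) (c : G → ℕ) (c1 : c 1 = 0)
    (cm : ∀ x y, c (x * y) ≤ c x + c y) (cc : ∀ x y, c (y * x * y⁻¹) ≤ c x)
    (cf : ∀ s, c (f s) ≤ wt K s) (m : ℕ) :
    c ((per.map f).prod ^ Nat.fib (m + 4)) + 2 * Nat.fib (m + 3) ≤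
      Nat.fib (m + 4) * (2 * wQ K + (wP K .E + wP K .O + wP K .L)) +
        (4 * wQ K + 2 * (wD K .E + wD K .O + wD K .L)) := by
  obtain ⟨P, hP⟩ : ∃ P, P = (per.map f).prod := ⟨_, rfl⟩
  have hL := cost_L f hf K c c1 cm cc cf
  have hE := cost_E f hf K c c1 cm cc cf
  have hO := cost_O f hf K c c1 cm cc cf
  rw [← hP] at hL hE hO ⊢
  have r1 := rep c cm cc P (DD K) (yL f) hL (ff m) 1
    (P ^ (ff (m + 1)).reverse.length * P ^ (ff (m + 1)).length)
  have r2 := rep c cm cc P (DD K) (yE f) hE (ff (m + 1)).reverse (((ff m).map (yL f)).prod)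
    (P ^ (ff (m + 1)).length)
  have r3 := rep c cm cc P (DD K) (yO f) hO (ff (m + 1))
    (((ff m).map (yL f)).prod * ((ff (m + 1)).reverse.map (yE f)).prod) 1
  rw [yL_prod, yE_prod f hf, yO_prod f hf, sg_ff, sr_reverse, sg_ff, mul_one, mul_one] at r3
  rw [yL_prod, yE_prod f hf, sg_ff, sr_reverse, sg_ff] at r2
  rw [yL_prod, sg_ff] at r1
  simp only [ff_length, nA_reverse, List.length_reverse, ff_nA, one_mul] at r1 r2 r3
  have hn : Nat.fib (m + 4) = Nat.fib (m + 1) + (Nat.fib (m + 2) + Nat.fib (m + 2)) := by
    have h1 : Nat.fib (m + 4) = Nat.fib (m + 2) + Nat.fib (m + 3) := Nat.fib_add_two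
    have h2 : Nat.fib (m + 3) = Nat.fib (m + 1) + Nat.fib (m + 2) := Nat.fib_add_two
    omega
  have hn3 : Nat.fib (m + 3) = Nat.fib m + 2 * Nat.fib (m + 1) := by
    have h1 : Nat.fib (m + 2) = Nat.fib m + Nat.fib (m + 1) := Nat.fib_add_two
    have h2 : Nat.fib (m + 3) = Nat.fib (m + 1) + Nat.fib (m + 2) := Nat.fib_add_two
    omega
  have hfin := LEO f hf hc m
  obtain ⟨l, hl⟩ : ∃ l, l = ((ff (m + 1)).map (fun z => bk f (.L, z))).prod := ⟨_, rfl⟩
  obtain ⟨e, he⟩ : ∃ e, e = ((ff (m + 2)).reverse.map (fun z => bk f (.E, z))).prod := ⟨_, rfl⟩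
  obtain ⟨o, ho⟩ : ∃ o, o = ((ff (m + 2)).map (fun z => bk f (.O, z))).prod := ⟨_, rfl⟩
  rw [← hl, ← he, ← ho] at hfin
  rw [← hl] at r1
  rw [← hl, ← he] at r2
  rw [← hl, ← he, ← ho] at r3
  have d1 := delf c cm cc l (f (.inr .tE)) (e * f (.inr .tE) * (f (.inr .tO) * o * f (.inr .tO)))
  have d2 := delf c cm cc (l * e) (f (.inr .tE)) (f (.inr .tO) * o * f (.inr .tO))
  have d3 := delf c cm cc (l * e) (f (.inr .tO)) (o * f (.inr .tO))
  have d4 := delf c cm cc (l * e * o) (f (.inr .tO)) 1
  have w1 : c (f (.inr .tE)) ≤ wQ K := cf _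
  have w2 : c (f (.inr .tO)) ≤ wQ K := cf _
  have v1 := c_dd c c1 cm cc f K cf hf .L (ff (m + 1)).length
  have v2 := c_dd c c1 cm cc f K cf hf .E (ff (m + 2)).reverse.length
  have v3 := c_dd c c1 cm cc f K cf hf .O (ff (m + 2)).length
  have v4 := c3 c cm (dd f .L ^ (ff (m + 1)).length) (dd f .E ^ (ff (m + 2)).reverse.length)
    (dd f .O ^ (ff (m + 2)).length)
  rw [← hfin] at v4
  simp only [mul_assoc, mul_one] at r1 r2 r3 d1 d2 d3 d4 v4
  rw [hn, hn3, pow_add, pow_add]
  have hDD : DD K = 2 * wQ K + (wP K .E + wP K .O + wP K .L) := rfl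
  rw [← hDD, Nat.add_mul, Nat.add_mul]
  have e2 : m + 1 + 1 = m + 2 := rfl
  rw [e2] at r1 r2 r3
  omega

end Pool.Agent.Lib.MP_60edde_al.Neg
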