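import Mathlib
import Pool.Agent.Lib.MP_60edde_al.Final
import Pool.Agent.Lib.MP_60edde_al.Neg.Machine
import Pool.Agent.Lib.MP_60edde_al.Neg.Cox
import Pool.Agent.Lib.MP_60edde_al.Neg.DL
import Pool.Agent.Lib.MP_60edde_al.Neg.Upper

/-!
MP_60edde_al, negative answer: final assembly.
-/

namespace Pool.Agent.Lib.MP_60edde_al.Neg

open Filter Topology

section lists

variable {G : Type*} [Group G]

theorem commute_prod_right (x : G) (l : List G) (h : ∀ y ∈ l, x * y = y * x) :
    x * l.prod = l.prod * x := by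
  induction l with
  | nil => simp
  | cons y l ih =>
    rw [List.prod_cons, ← mul_assoc, h y (by simp), mul_assoc,
      ih (fun z hz => h z (List.mem_cons_of_mem _ hz)), mul_assoc]

theorem commute_prod_prod (l l' : List G) (h : ∀ x ∈ l, ∀ y ∈ l', x * y = y * x) :
    l.prod * l'.prod = l'.prod * l.prod := by
  induction l with
  | nil => simp
  | cons x l ih =>
    rw [List.prod_cons, mul_assoc, ih (fun z hz => h z (List.mem_cons_of_mem _ hz)), ← mul_assoc,
      commute_prod_right x l' (h x (by simp)), mul_assoc]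

theorem prod_sq_one (l : List G) (h1 : ∀ x ∈ l, x * x = 1) (h : ∀ x ∈ l, ∀ y ∈ l, x * y = y * x) :
    l.prod * l.prod = 1 := by
  induction l with
  | nil => simp
  | cons x l ih =>
    have h2 := ih (fun z hz => h1 z (List.mem_cons_of_mem _ hz))
      (fun z hz y hy => h z (List.mem_cons_of_mem _ hz) y (List.mem_cons_of_mem _ hy))
    have h3 := commute_prod_right x l (fun y hy => h x (by simp) y (List.mem_cons_of_mem _ hy))
    rw [List.prod_cons]
    calc x * l.prod * (x * l.prod) = x * (l.prod * x) * l.prod := by group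
      _ = x * (x * l.prod) * l.prod := by rw [h3]
      _ = (x * x) * (l.prod * l.prod) := by group
      _ = 1 := by rw [h1 x (by simp), h2, one_mul]

end lists

theorem cox_lower (K : ℕ) (hK : DLK K) (n k : ℕ)
    (h : IsRefProd (cmat K).toCoxeterSystem k
      ((cmat K).toCoxeterSystem.wordProd (big K per) ^ n)) : n * slope K ≤ (k : ℝ) :=
  cox_lower_of K hK.1 (slope K) n k (fun κ hs ht => base_lower K hK n κ hs ht) h

/-- the value of a letter: the product of its copies -/
noncomputable def fval (K : ℕ) (s : Lt) : (cmat K).Group :=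
  (cmat K).toCoxeterSystem.wordProd ((List.finRange (wt K s)).map (fun i => (⟨s, i⟩ : Idx K)))

theorem simple_comm (K : ℕ) (x y : Idx K) (h : x.1 = y.1 ∨ comm x.1 y.1 = true) :
    (cmat K).toCoxeterSystem.simple x * (cmat K).toCoxeterSystem.simple y =
      (cmat K).toCoxeterSystem.simple y * (cmat K).toCoxeterSystem.simple x := by
  by_cases hxy : x = y
  · rw [hxy]
  · have h1 := (cmat K).toCoxeterSystem.simple_mul_simple_pow x y
    have h2 : (cmat K) x y = 2 := by
      change (if x = y then 1 else if x.1 = y.1 ∨ comm x.1 y.1 = true then 2 else 0) = 2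
      rw [if_neg hxy, if_pos h]
    rw [h2, pow_two] at h1
    have hx := (cmat K).toCoxeterSystem.simple_mul_simple_self x
    have hy := (cmat K).toCoxeterSystem.simple_mul_simple_self y
    set a := (cmat K).toCoxeterSystem.simple x
    set b := (cmat K).toCoxeterSystem.simple y
    calc a * b = (a * b * (a * b)) * (b⁻¹ * a⁻¹) := by group
      _ = b⁻¹ * a⁻¹ := by rw [h1, one_mul]
      _ = b * a := by rw [eq_comm, eq_inv_mul_iff_mul_eq, ← mul_assoc, hy, one_mul,
                        eq_inv_iff_mul_eq_one, hx]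

theorem fval_sq (K : ℕ) (s : Lt) : fval K s * fval K s = 1 := by
  unfold fval CoxeterSystem.wordProd
  apply prod_sq_one
  · intro x hx
    obtain ⟨i, -, rfl⟩ := List.mem_map.1 hx
    exact (cmat K).toCoxeterSystem.simple_mul_simple_self i
  · intro x hx y hy
    obtain ⟨i, hi, rfl⟩ := List.mem_map.1 hx
    obtain ⟨j, hj, rfl⟩ := List.mem_map.1 hy
    obtain ⟨i, -, rfl⟩ := List.mem_map.1 hi
    obtain ⟨j, -, rfl⟩ := List.mem_map.1 hj
    exact simple_comm K _ _ (Or.inl rfl)

theorem fval_comm (K : ℕ) (s t : Lt) (h : comm s t = true) :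
    fval K s * fval K t = fval K t * fval K s := by
  unfold fval CoxeterSystem.wordProd
  apply commute_prod_prod
  intro x hx y hy
  obtain ⟨i, hi, rfl⟩ := List.mem_map.1 hx
  obtain ⟨j, hj, rfl⟩ := List.mem_map.1 hy
  obtain ⟨i, -, rfl⟩ := List.mem_map.1 hi
  obtain ⟨j, -, rfl⟩ := List.mem_map.1 hj
  exact simple_comm K _ _ (Or.inr h)

theorem wordProd_big (K : ℕ) (l : List Lt) :
    (cmat K).toCoxeterSystem.wordProd (big K l) = (l.map (fval K)).prod := by
  induction l with
  | nil => simp [big]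
  | cons s l ih =>
    have : big K (s :: l) = (List.finRange (wt K s)).map (fun i => (⟨s, i⟩ : Idx K)) ++
        big K l := by simp [big]
    rw [this, CoxeterSystem.wordProd_append, ih, List.map_cons, List.prod_cons, fval]

theorem fval_refProd (K : ℕ) (s : Lt) :
    IsRefProd (cmat K).toCoxeterSystem (wt K s) (fval K s) := by
  refine ⟨((List.finRange (wt K s)).map (fun i => (⟨s, i⟩ : Idx K))).map
    (cmat K).toCoxeterSystem.simple, ?_, rfl, by simp⟩
  intro t ht
  obtain ⟨i, -, rfl⟩ := List.mem_map.1 ht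
  exact (cmat K).toCoxeterSystem.isReflection_simple i

theorem psi_eq : psi = -Real.goldenConj := by
  unfold psi Real.goldenConj
  ring

theorem tendsto_of_subadd (u : ℕ → ℕ) (hsub : ∀ m n, u (m + n) ≤ u m + u n) (S : ℝ) (Q : ℕ)
    (C0 : ℕ) (hS : S = Q - 2 * psi) (hlow : ∀ n : ℕ, (n : ℝ) * S ≤ u n)
    (hup : ∀ m, u (Nat.fib (m + 4)) + 2 * Nat.fib (m + 3) ≤ Nat.fib (m + 4) * Q + C0) :
    Tendsto (fun n : ℕ => (u n : ℝ) / n) atTop (𝓝 S) := by
  have hs : Subadditive (fun n => (u n : ℝ)) := by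
    intro m n
    have := hsub m n
    change (u (m + n) : ℝ) ≤ u m + u n
    exact_mod_cast this
  have hb : BddBelow (Set.range fun n => (u n : ℝ) / n) := by
    refine ⟨0, ?_⟩
    rintro _ ⟨n, rfl⟩
    positivity
  have hlim := hs.tendsto_lim hb
  have hge : S ≤ hs.lim := by
    refine ge_of_tendsto hlim ?_
    filter_upwards [eventually_gt_atTop 0] with n hn
    rw [le_div_iff₀ (by exact_mod_cast hn), mul_comm]
    exact hlow n
  have hfib : Tendsto (fun m : ℕ => Nat.fib (m + 4)) atTop atTop := by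
    refine tendsto_atTop_mono' _ ?_ tendsto_id
    filter_upwards [eventually_ge_atTop 5] with m hm
    have := Nat.le_fib_add_one (m + 4)
    simp only [id]
    omega
  have hsubseq := hlim.comp hfib
  have hle : hs.lim ≤ S := by
    have h1 : Tendsto (fun m : ℕ => (Q : ℝ) - 2 * ((Nat.fib (m + 3) : ℝ) / Nat.fib (m + 4)) +
        C0 / (Nat.fib (m + 4) : ℝ)) atTop (𝓝 (Q - 2 * psi + 0)) := by
      refine Tendsto.add (Tendsto.sub tendsto_const_nhds (Tendsto.const_mul _ ?_)) ?_
      · have := (tendsto_fib_div_fib_succ_atTop).comp (tendsto_add_atTop_nat 3)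
        rw [psi_eq]
        exact this
      · exact Tendsto.div_atTop tendsto_const_nhds (tendsto_natCast_atTop_atTop.comp hfib)
    rw [hS]
    have h2 := le_of_tendsto_of_tendsto hsubseq h1 (Eventually.of_forall fun m => ?_)
    · simpa using h2
    · simp only [Function.comp]
      have h3 : (0 : ℝ) < Nat.fib (m + 4) := by
        exact_mod_cast Nat.fib_pos.2 (by omega)
      rw [div_le_iff₀ h3]
      have h4 : ((u (Nat.fib (m + 4)) + 2 * Nat.fib (m + 3) : ℕ) : ℝ) ≤
          ((Nat.fib (m + 4) * Q + C0 : ℕ) : ℝ) := by exact_mod_cast hup m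
      push_cast at h4
      have h5 : ((Q : ℝ) - 2 * ((Nat.fib (m + 3) : ℝ) / Nat.fib (m + 4)) +
        C0 / (Nat.fib (m + 4) : ℝ)) * Nat.fib (m + 4) =
          Nat.fib (m + 4) * Q - 2 * Nat.fib (m + 3) + C0 := by
        field_simp
      rw [h5]
      linarith
  have : hs.lim = S := le_antisymm hle hge
  rw [← this]
  exact hlim

/-- the matrix is right-angled -/
theorem cmat_right (K : ℕ) (i j : Idx K) :
    (cmat K) i j = 0 ∨ (cmat K) i j = 1 ∨ (cmat K) i j = 2 := by
  change (if i = j then 1 else if i.1 = j.1 ∨ comm i.1 j.1 = true then 2 else 0) = 0 ∨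
    (if i = j then 1 else if i.1 = j.1 ∨ comm i.1 j.1 = true then 2 else 0) = 1 ∨
    (if i = j then 1 else if i.1 = j.1 ∨ comm i.1 j.1 = true then 2 else 0) = 2
  split_ifs <;> simp

theorem irrational_srl : ∃ (B : Type) (_ : Finite B) (M : CoxeterMatrix B) (w : M.Group) (q : ℕ),
    (∀ i j, M i j = 0 ∨ M i j = 1 ∨ M i j = 2) ∧ ∀ rl : M.Group → ℕ,
      (∀ v k, rl v ≤ k ↔ IsRefProd M.toCoxeterSystem k v) →
      Filter.Tendsto (fun n : ℕ => (rl (w ^ n) : ℝ) / n) Filter.atTop (nhds (q - Real.sqrt 5)) := by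
  obtain ⟨K, hK⟩ := discrepancy
  refine ⟨Idx K, inferInstance, cmat K, (cmat K).toCoxeterSystem.wordProd (big K per),
    2 * wQ K + (wP K .E + wP K .O + wP K .L) + 1, cmat_right K, ?_⟩
  intro rl hrl
  have hslope : (((2 * wQ K + (wP K .E + wP K .O + wP K .L) + 1 : ℕ) : ℝ) - Real.sqrt 5) =
      slope K := by
    unfold slope psi
    push_cast
    ring
  rw [hslope]
  have hself : ∀ v, IsRefProd (cmat K).toCoxeterSystem (rl v) v := fun v =>
    (hrl v _).1 le_rfl
  have hmul : ∀ x y, rl (x * y) ≤ rl x + rl y := fun x y =>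
    (hrl _ _).2 ((hself x).mul _ (hself y))
  have hconj : ∀ x y, rl (y * x * y⁻¹) ≤ rl x := fun x y =>
    (hrl _ _).2 ((hself x).conj _ y)
  refine tendsto_of_subadd (fun n => rl ((cmat K).toCoxeterSystem.wordProd (big K per) ^ n)) ?_
    (slope K) (2 * wQ K + (wP K .E + wP K .O + wP K .L))
    (4 * wQ K + 2 * (wD K .E + wD K .O + wD K .L)) ?_ ?_ ?_
  · intro m n
    simp only [pow_add]
    exact hmul _ _
  · unfold slope
    push_cast
    ring
  · intro n
    exact cox_lower K hK n _ (hself _)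
  · intro m
    have := upper (fval K) (fval_sq K) (fval_comm K) K rl
      (Nat.le_zero.1 ((hrl _ _).2 (isRefProd_one _ 0))) hmul hconj
      (fun s => (hrl _ _).2 (fval_refProd K s)) m
    rw [← wordProd_big] at this
    exact this

end Pool.Agent.Lib.MP_60edde_al.Neg
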